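import Pool.Agent.Helper60_AEU.Stmt
import Pool.Agent.Helper35_AEU.DefsMain

/-!
Squad XQ (MP_5b0138_an): almost every convex polygon is determined by its Dirichlet spectrum among
ALL bounded convex domains.  Part A: the new germs.

Notation as in squad AEU: a half-plane is `s = (u, H)`, `{x | ip u x ≤ H}`; `Lap`, `EZ`, `Small`,
`germA`, `germB`, `germD` are those of `Helper35_AEU.DefsMain`.
-/

set_option autoImplicit false

namespace Pool.Agent.XQ

open MeasureTheory Complex Filter Topology ProbabilityTheory Pool.Agent.H16Iso Pool.Agent.H62T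
open Pool.Agent.AEU

/-! ### Triples: new germs -/

/-- GDX: the contribution of an acute triangle, up to the shortest altitude; no condition on the
angles (squad AEU: three different angles) -/
def GermDXStmt : Prop :=
  ∀ (u₁ u₂ u₃ : ℂ) (D₀ L : ℝ), ‖u₁‖ = 1 → ‖u₂‖ = 1 → ‖u₃‖ = 1 → 0 < dt u₁ u₂ → 0 < dt u₂ u₃ →
    0 < dt u₃ u₁ → ip u₁ u₂ < 0 → ip u₂ u₃ < 0 → ip u₃ u₁ < 0 → 0 < D₀ →
    L * dt u₁ u₂ < 2 * D₀ → L * dt u₂ u₃ < 2 * D₀ → L * dt u₃ u₁ < 2 * D₀ →
    Small L fun κ => Lap (EZ u₁ u₂ u₃ D₀) κ - germD (2 * D₀) κ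

/-- GIS: an acute isosceles triangle whose two equal angles (at the vertices `12` and `23`, that
is, at the ends of the side `2`) are larger than the third one: the contribution exceeds
`germD` by a term of relative order `κ^(1/2)` at the length of the two equal (shortest)
altitudes -/
def GermIsoStmt : Prop :=
  ∀ (u₁ u₂ u₃ : ℂ) (D₀ : ℝ), ‖u₁‖ = 1 → ‖u₂‖ = 1 → ‖u₃‖ = 1 → 0 < dt u₁ u₂ → 0 < dt u₂ u₃ →
    0 < dt u₃ u₁ → ip u₁ u₂ < 0 → ip u₂ u₃ < 0 → ip u₃ u₁ < 0 → 0 < D₀ →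
    dt u₁ u₂ = dt u₂ u₃ → dt u₃ u₁ < dt u₁ u₂ →
    ∃ c κ0 : ℝ, 0 < c ∧ 0 < κ0 ∧ ∀ κ : ℝ, κ0 ≤ κ →
      c * κ ^ (1 / 2 : ℝ) * Real.exp (-(2 * D₀ / dt u₁ u₂ * κ))
        ≤ Lap (EZ u₁ u₂ u₃ D₀) κ - germD (2 * D₀) κ

/-- GAH: an edge of length `l` with a right angle at one end and an obtuse interior angle
`π - β` at the other end -/
def GermAhStmt : Prop :=
  ∀ (z : ℂ) (β l : ℝ), ‖z‖ = 1 → 0 < β → β < Real.pi / 2 → 0 < l →
    Small (2 * l) fun κ =>
      Lap (EZ (z * exp (-β * I)) z (z * I) (Real.sin β * l)) κ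
        - (1 / 2) * germB l (Real.pi - β) 0 κ

/-- GBR: a vertex with a right angle and a side line at distance `d` -/
def GermBrStmt : Prop :=
  ∀ (z : ℂ) (η d : ℝ), ‖z‖ = 1 → 0 < η → η < Real.pi / 2 → 0 < d →
    Small (2 * d) fun κ =>
      Lap (EZ (z * exp (-(Real.pi / 2) * I)) z (z * I * exp (η * I)) d) κ
        + (1 / 2) * Real.exp (-(2 * d * κ))

/-! ### Four lines -/

/-- area of the set of the translations for which the body `h` leaves all half-planes in `M` and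
stays inside all half-planes in `E` -/
noncomputable def Ar (M E : Finset HP) (h : ℂ → ℝ) : ℝ :=
  (volume {x : ℂ | (∀ s ∈ M, s.2 < ip s.1 x + h s.1) ∧ ∀ s ∈ E, ip s.1 x + h s.1 < s.2}).toReal

/-- its expectation for the Brownian loop of duration `t` -/
noncomputable def EAr (M E : Finset HP) (t : ℝ) : ℝ :=
  ∫ ω, Ar M E (fun u => Real.sqrt t * hs ω u) ∂PP

/-- the half-plane with boundary line through `0` in the direction `exp (i η)`, containing the
directions `exp (i φ)`, `η - π < φ < η` -/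
noncomputable def lnU (η : ℝ) : HP := (I * exp (η * I), 0)

/-- the half-plane with boundary line through `0` in the direction `exp (- i η)`, containing the
directions `exp (i φ)`, `- η < φ < π - η` -/
noncomputable def lnD (η : ℝ) : HP := (-(I * exp (-(η * I))), 0)

/-- the half-plane with outer normal `exp (i δ)` whose boundary contains the point `a` -/
noncomputable def lnN (δ : ℝ) (a : ℂ) : HP := (exp (δ * I), ip (exp (δ * I)) a)

/-- real part of the diffraction kernel `KKf b` at `2 v + 2 i θ` (`KKt b 0 v = KKf b (2 v)`) -/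
noncomputable def KKt (b θ v : ℝ) : ℝ :=
  -(b / 4) * (Real.sin (b * Real.pi + 2 * b * θ)
      / (Real.cosh (2 * b * v) - Real.cos (b * Real.pi + 2 * b * θ))
    + Real.sin (b * Real.pi - 2 * b * θ)
      / (Real.cosh (2 * b * v) - Real.cos (b * Real.pi - 2 * b * θ)))

/-- germ of the triangular path of length `L` from a vertex with interior angle `π / b` to two
sides: `θ` is the angle between a side at the vertex and the bisector of the path, `γ` the angle
between the bisector and the path -/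
noncomputable def germE (L b θ γ κ : ℝ) : ℝ :=
  2 / Real.pi * ∫ v : ℝ, Real.exp (-(κ * L * Real.cosh v)) * (H12.Ceta b γ - KKt b θ v)

/-- GE2: the path from the vertex `0` (interior angle `η1 + η2`, sides in the directions
`exp (i η1)`, `exp (- i η2)`) to the lines `q`, `r` with normals `exp (i δ1)`, `exp (i δ2)` through
the point `ρ`, and back; both angles between the sides at the vertex and the bisector of the path
(the positive real axis) are acute -/
def GermE2Stmt : Prop :=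
  ∀ η1 η2 δ1 δ2 ρ : ℝ, 0 < η1 → η1 < Real.pi / 2 → 0 < η2 → η2 < Real.pi / 2 →
    -(Real.pi / 2) < δ1 → δ1 < 0 → 0 < δ2 → δ2 < Real.pi / 2 → Real.pi / 2 < δ2 - δ1 →
    δ2 - δ1 < η1 + η2 → 0 < ρ →
    Small (2 * ρ * Real.sin (δ2 - δ1)) fun κ =>
      Lap (EAr {lnU η1, lnD η2, lnN δ1 ρ, lnN δ2 ρ} ∅) κ
        - germE (2 * ρ * Real.sin (δ2 - δ1)) (Real.pi / (η1 + η2)) η2 (δ2 - δ1 - Real.pi / 2) κ

/-- GE1: the same, the angle between the side `lnU η1` and the bisector is obtuse; the loops stay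
inside the other side line `lnD η2` -/
def GermE1Stmt : Prop :=
  ∀ η1 η2 δ1 δ2 ρ : ℝ, Real.pi / 2 < η1 → 0 < η2 → η1 + η2 < Real.pi →
    -(Real.pi / 2) < δ1 → δ1 < 0 → 0 < δ2 → δ2 < Real.pi / 2 → Real.pi / 2 < δ2 - δ1 →
    δ2 - δ1 - Real.pi / 2 < η2 → 0 < ρ →
    Small (2 * ρ * Real.sin (δ2 - δ1)) fun κ =>
      -Lap (EAr {lnU η1, lnN δ1 ρ, lnN δ2 ρ} {lnD η2}) κ
        - germE (2 * ρ * Real.sin (δ2 - δ1)) (Real.pi / (η1 + η2)) η2 (δ2 - δ1 - Real.pi / 2) κ

/-- `f` is of the exact order `κ^(-p) exp (- L κ)` -/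
def Ord (L p : ℝ) (f : ℝ → ℝ) : Prop :=
  ∃ c C κ0 : ℝ, 0 < c ∧ 0 < C ∧ 0 < κ0 ∧ ∀ κ : ℝ, κ0 ≤ κ →
    c * κ ^ (-p) * Real.exp (-(L * κ)) ≤ f κ ∧ f κ ≤ C * κ ^ (-p) * Real.exp (-(L * κ))

open Classical in
/-- the lines which have to be left at a vertex with sides in the directions `exp (i η1)` and
`exp (- i η2)`, as seen in the direction of the positive real axis -/
noncomputable def cM (η1 η2 : ℝ) (a b : HP) : Finset HP :=
  (if η2 < Real.pi / 2 then {a} else ∅) ∪ (if η1 < Real.pi / 2 then {b} else ∅)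

open Classical in
/-- the lines inside which the loops stay -/
noncomputable def cE (η1 η2 : ℝ) (a b : HP) : Finset HP :=
  (if η2 < Real.pi / 2 then ∅ else {a}) ∪ (if η1 < Real.pi / 2 then ∅ else {b})

/-- G3: the segment between the two vertices `0` and `d`, both angles obtuse; the sides at `0` have
the directions `exp (i η1)`, `exp (- i η2)`, those at `d` the directions `- exp (- i ζ1)`,
`- exp (i ζ2)` -/
def Germ3Stmt : Prop :=
  ∀ η1 η2 ζ1 ζ2 d : ℝ, 0 < η1 → 0 < η2 → 0 < ζ1 → 0 < ζ2 → Real.pi / 2 < η1 + η2 →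
    η1 + η2 < Real.pi → Real.pi / 2 < ζ1 + ζ2 → ζ1 + ζ2 < Real.pi → η1 ≠ Real.pi / 2 →
    η2 ≠ Real.pi / 2 → ζ1 ≠ Real.pi / 2 → ζ2 ≠ Real.pi / 2 → 0 < d →
    Ord (2 * d) 1 fun κ => Lap (EAr
      (cM η1 η2 (lnU η1) (lnD η2) ∪
        cM ζ1 ζ2 (lnN (Real.pi / 2 - ζ1) d) (lnN (-(Real.pi / 2 - ζ2)) d))
      (cE η1 η2 (lnU η1) (lnD η2) ∪
        cE ζ1 ζ2 (lnN (Real.pi / 2 - ζ1) d) (lnN (-(Real.pi / 2 - ζ2)) d))) κ

/-- G4: the triangle with vertices `0`, `d` and a point `a` of the line with normal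
`exp (i (π / 2 + (θ - θ') / 2))`; the segment from `0` to `d` is an edge of the polygon, with
interior angles `α`, `α'` at its ends, `θ`, `θ'` are the angles of the triangle -/
def Germ4Stmt : Prop :=
  ∀ (α α' θ θ' d : ℝ) (a : ℂ), Real.pi / 2 < α → α < Real.pi → Real.pi / 2 < α' → α' < Real.pi →
    0 < θ → θ < 2 * α - Real.pi → 0 < θ' → θ' < 2 * α' - Real.pi → 0 < d → θ + θ' < Real.pi →
    (∃ p : ℝ, 0 < p ∧ a = p * exp (θ * I)) → (∃ p : ℝ, 0 < p ∧ a = d - p * exp (-(θ' * I))) →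
    Ord (d + ‖a‖ + ‖a - d‖) 2 fun κ => Lap (EAr
      {lnU α, lnN (Real.pi / 2 - α') d, lnN (Real.pi / 2 + (θ - θ') / 2) a}
      {lnD 0}) κ

end Pool.Agent.XQ
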