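import Pool.Agent.Helper16_XQ.Ana

/-!
Squad XQ (MP_5b0138_an), Part A: ranges of one-dimensional bridges (FB), and the uniqueness of the
sums of the germs at one level (U).
-/

set_option autoImplicit false

namespace Pool.Agent.XQ

open MeasureTheory Complex Filter Topology ProbabilityTheory Pool.Agent.H16Iso Pool.Agent.H62T
open Pool.Agent.AEU

/-- FB: the width of the Brownian loop of duration `t` -/
def FbStmt : Prop :=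
  ∀ (u : ℂ) (w : ℝ), ‖u‖ = 1 → 0 < w → ∃ c C t0 : ℝ, 0 < c ∧ 0 < C ∧ 0 < t0 ∧ ∀ t : ℝ, 0 < t →
    t < t0 →
    c * Real.exp (-(w ^ 2 / t))
      ≤ ∫ ω, max (Real.sqrt t * (hs ω u + hs ω (-u)) - w) 0 ∂PP ∧
    ∫ ω, (max (Real.sqrt t * (hs ω u + hs ω (-u)) - w) 0) ^ 2 ∂PP
      ≤ C * t * Real.exp (-(w ^ 2 / t))

/-- sum of germs of type A, given by the pairs of the exterior angles at the ends -/
noncomputable def SumA (L : ℝ) (l : List (ℝ × ℝ)) (κ : ℝ) : ℝ :=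
  (l.map fun p => germA (L / 2) p.1 p.2 κ).sum

/-- sum of germs of type B, given by the pairs `(α, η)` -/
noncomputable def SumB (L : ℝ) (l : List (ℝ × ℝ)) (κ : ℝ) : ℝ :=
  (l.map fun p => germB (L / 2) p.1 p.2 κ).sum

/-- sum of germs of type Ah, given by the obtuse angles -/
noncomputable def SumH (L : ℝ) (l : List ℝ) (κ : ℝ) : ℝ :=
  (l.map fun α => 1 / 2 * germB (L / 2) α 0 κ).sum

/-- sum of germs of type E, given by the triples `(α, θ, γ)` -/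
noncomputable def SumE (L : ℝ) (l : List (ℝ × ℝ × ℝ)) (κ : ℝ) : ℝ :=
  (l.map fun p => germE L (Real.pi / p.1) p.2.1 p.2.2 κ).sum

/-- exterior angles of an edge of type A -/
def OkA (p : ℝ × ℝ) : Prop :=
  0 < p.1 ∧ p.1 < Real.pi / 2 ∧ 0 < p.2 ∧ p.2 < Real.pi / 2

/-- angles of type B, B' -/
def OkB (p : ℝ × ℝ) : Prop :=
  (Real.pi / 2 < p.1 ∧ p.1 < Real.pi ∧ 0 < p.2 ∧ p.2 < p.1 ∧ p.2 ≠ Real.pi / 2 ∧
      p.1 - p.2 ≠ Real.pi / 2) ∨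
    (p.1 < Real.pi / 2 ∧ Real.pi / 2 - p.2 < p.1 ∧ Real.pi / 2 - (p.1 - p.2) < p.1)

/-- angles of type E -/
def OkE (p : ℝ × ℝ × ℝ) : Prop :=
  Real.pi / 2 < p.1 ∧ p.1 < Real.pi ∧ 0 < p.2.1 ∧ 0 < p.2.2 ∧ p.2.2 < p.1 - Real.pi / 2 ∧
    ((p.2.1 < Real.pi / 2 ∧ p.1 - p.2.1 < Real.pi / 2) ∨
      (p.2.1 < p.1 - Real.pi / 2 ∧ p.2.2 < p.2.1)) ∧
    ∀ n : ℤ, 4 * Real.cos (2 * Real.pi * p.2.1 / p.1) ≠ n

/-- U: uniqueness of the sums. Left: the items of the generic polygon, right: the items of the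
other polygon. `I` stands for the items of relative order `κ^(1/2)`, `T` for the torn bodies of
the types III and IV. -/
def UStmt : Prop :=
  ∀ (L : ℝ) (gP gQ r : ℕ) (AP AQ BP BQ : List (ℝ × ℝ)) (HQ : List ℝ) (EP : List (ℝ × ℝ × ℝ))
    (J T : ℝ → ℝ), 0 < L → gP ≤ 1 → r ≤ 1 → AP.length ≤ 1 → BP.length ≤ 1 →
    (∀ p ∈ AP, OkA p) → (∀ p ∈ AQ, OkA p) → (∀ p ∈ BP, OkB p) → (∀ p ∈ BQ, OkB p) →
    (∀ α ∈ HQ, Real.pi / 2 < α ∧ α < Real.pi) → (∀ p ∈ EP, OkE p) →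
    EP.Pairwise (fun p q => p.1 ≠ q.1) →
    (J = 0 ∨ ∃ c κ0 : ℝ, 0 < c ∧ 0 < κ0 ∧ ∀ κ : ℝ, κ0 ≤ κ →
      c * κ ^ (1 / 2 : ℝ) * Real.exp (-(L * κ)) ≤ J κ) →
    (T = 0 ∨ Ord L 1 T ∨ Ord L 1 (-T) ∨ Ord L 2 T ∨ Ord L 2 (-T)) →
    (Small L fun κ =>
      (-(gP : ℝ) * Real.exp (-(L * κ)) + SumA L AP κ + SumB L BP κ + SumE L EP κ + T κ)
      - (-(gQ : ℝ) * Real.exp (-(L * κ)) - (r : ℝ) / 2 * Real.exp (-(L * κ)) + SumA L AQ κ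
          + SumB L BQ κ + SumH L HQ κ + J κ)) →
    J = 0 ∧ T = 0 ∧ gP = gQ ∧ r = 0 ∧ HQ = [] ∧ EP = [] ∧
      ((AP = [] ∧ AQ = []) ∨ ∃ p q, AP = [p] ∧ AQ = [q] ∧ (p = q ∨ p = q.swap)) ∧
      ((BP = [] ∧ BQ = []) ∨
        ∃ p q, BP = [p] ∧ BQ = [q] ∧ p.1 = q.1 ∧ (p.2 = q.2 ∨ p.2 = q.1 - q.2))

end Pool.Agent.XQ
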