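import Pool.Agent.Helper16_XQ.StmtE
import Pool.Agent.Helper15_AEU3.Cvt

/-! helper16, XQ (MP_5b0138_an), GE: interchange of the Laplace transform and the integral over
the window (after helper15). -/

set_option autoImplicit false

namespace Pool.Agent.XQ.E

open MeasureTheory Complex Filter Topology ProbabilityTheory Pool.Agent.H16Iso Pool.Agent.H62T
  Pool.Agent.H16F Pool.Agent.H38KL Pool.Agent.H60K Pool.Agent.H60K.H15
open scoped ENNReal NNReal

/-- the integrand -/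
noncomputable def FFe (η1 η2 γ L ξ1 a κ : ℝ) (O E : Finset (Fin 3)) (t : ℝ) (p : ℂ × ℂ) : ℝ :=
  Real.exp (-(κ ^ 2 * t)) * (G a (p.1 - p.2) * (ch ξ1 p.2 - ch ξ1 p.1) *
    kME (us η1 η2) (hh 1) O E t (exp (γ * I) * (L - p.2)) (exp (-(γ * I)) * p.1))

theorem FFe_meas (η1 η2 γ L ξ1 a κ : ℝ) (O E : Finset (Fin 3)) :
    Measurable (Function.uncurry (FFe η1 η2 γ L ξ1 a κ O E)) := by
  unfold FFe
  have h1 : Measurable fun z : ℝ × ℂ × ℂ => Real.exp (-(κ ^ 2 * z.1)) := by fun_prop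
  have h2 : Measurable fun z : ℝ × ℂ × ℂ => G a (z.2.1 - z.2.2) :=
    (H41.G_cont _).measurable.comp (by fun_prop)
  have h3 : Measurable fun z : ℝ × ℂ × ℂ => ch ξ1 z.2.2 - ch ξ1 z.2.1 :=
    ((ch_meas _).comp (by fun_prop)).sub ((ch_meas _).comp (by fun_prop))
  have h4 : Measurable fun z : ℝ × ℂ × ℂ =>
      kME (us η1 η2) (hh 1) O E z.1 (exp (γ * I) * (L - z.2.2)) (exp (-(γ * I)) * z.2.1) := by
    have a1 : Measurable fun z : ℝ × ℂ × ℂ => exp (γ * I) * ((L : ℂ) - z.2.2) := by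
      have a3 : Continuous fun z : ℝ × ℂ × ℂ => exp (γ * I) * ((L : ℂ) - z.2.2) :=
        continuous_const.mul (continuous_const.sub (continuous_snd.comp continuous_snd))
      exact a3.measurable
    have a2 : Measurable fun z : ℝ × ℂ × ℂ => exp (-(γ * I)) * z.2.1 := by
      have a3 : Continuous fun z : ℝ × ℂ × ℂ => exp (-(γ * I)) * z.2.1 :=
        continuous_const.mul (continuous_fst.comp continuous_snd)
      exact a3.measurable
    have a4 : Measurable fun z : ℝ × ℂ × ℂ =>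
        ((z.1, exp (γ * I) * ((L : ℂ) - z.2.2), exp (-(γ * I)) * z.2.1) : ℝ × ℂ × ℂ) :=
      measurable_fst.prodMk (a1.prodMk a2)
    have a5 := (kME_meas (us η1 η2) (hh 1) O E).comp a4
    exact a5
  exact h1.mul ((h2.mul h3).mul h4)

theorem FFe_bound {η1 η2 γ L ξ1 δ a κ ζ1 ζ2 r : ℝ} (O E : Finset (Fin 3)) (hr : 0 < r)
    (ha : 0 < a)
    (hfar : ∀ x ∈ Rw ξ1 δ ζ1 ζ2, ∀ y ∈ Rw ξ1 δ ζ1 ζ2,
      r ≤ ‖exp (γ * I) * (L - y) - exp (-(γ * I)) * x‖)
    {t : ℝ} (ht : 0 < t) {p : ℂ × ℂ} (hp : p ∈ Rw ξ1 δ ζ1 ζ2 ×ˢ Rw ξ1 δ ζ1 ζ2) :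
    ‖FFe η1 η2 γ L ξ1 a κ O E t p‖ ≤ Real.exp (-(κ ^ 2 * t)) *
      ((4 * Real.pi * a)⁻¹ * (O.powerset.card * (1 / (Real.pi * r ^ 2)))) := by
  unfold FFe
  rw [Real.norm_eq_abs, abs_mul, abs_of_pos (Real.exp_pos _)]
  refine mul_le_mul_of_nonneg_left ?_ (Real.exp_pos _).le
  rw [abs_mul, abs_mul]
  have h1 : |G a (p.1 - p.2)| * |ch ξ1 p.2 - ch ξ1 p.1| ≤ (4 * Real.pi * a)⁻¹ * 1 := by
    refine mul_le_mul ?_ (ch_abs _ _ _) (abs_nonneg _) (by positivity)
    rw [abs_of_nonneg (H41.G_nonneg ha _)]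
    unfold G
    rw [div_eq_mul_inv]
    refine mul_le_of_le_one_left (by positivity) ?_
    apply Real.exp_le_one_iff.2
    have : 0 ≤ ‖p.1 - p.2‖ ^ 2 / (4 * a) := by positivity
    have e : -(‖p.1 - p.2‖ ^ 2) / (4 * a) = -(‖p.1 - p.2‖ ^ 2 / (4 * a)) := by ring
    rw [e]
    linarith
  rw [mul_one] at h1
  refine mul_le_mul h1 ?_ (abs_nonneg _) (by positivity)
  refine (kME_abs_le _ _ O E ht _ _).trans ?_
  exact mul_le_mul_of_nonneg_left (G_far ht hr (hfar _ hp.1 _ hp.2)) (Nat.cast_nonneg _)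

theorem cvtE {η1 η2 γ L ξ1 δ ζ1 ζ2 c κ r : ℝ} (O E : Finset (Fin 3)) (hc : 0 < c) (hκ : 0 < κ)
    (hr : 0 < r) (hfar : ∀ x ∈ Rw ξ1 δ ζ1 ζ2, ∀ y ∈ Rw ξ1 δ ζ1 ζ2,
      r ≤ ‖exp (γ * I) * (L - y) - exp (-(γ * I)) * x‖) :
    (∫ t in Set.Ioi (c / κ), Real.exp (-(κ ^ 2 * t)) * TTE η1 η2 γ L O E ξ1 δ ζ1 ζ2 (c / κ) t)
      = Real.exp (-(κ * c)) * ∫ x in Rw ξ1 δ ζ1 ζ2, ∫ y in Rw ξ1 δ ζ1 ζ2,
        G (c / κ) (x - y) * (ch ξ1 y - ch ξ1 x) *
        ∫ t in Set.Ioi (0 : ℝ), Real.exp (-(κ ^ 2 * t)) *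
          kME (us η1 η2) (hh 1) O E t (exp (γ * I) * (L - y)) (exp (-(γ * I)) * x) := by
  have ha : 0 < c / κ := by positivity
  set a : ℝ := c / κ with had
  set S : Set ℂ := Rw ξ1 δ ζ1 ζ2 with hS
  have hSm : MeasurableSet S := (Rw_open _ _ _ _).measurableSet
  have hSf : volume S < ⊤ := Rw_finite _ _ _ _
  have : IsFiniteMeasure (volume.restrict S) := ⟨by
    rw [Measure.restrict_apply_univ]
    exact hSf⟩
  set F := FFe η1 η2 γ L ξ1 a κ O E with hF
  set M : ℝ := (4 * Real.pi * a)⁻¹ * (O.powerset.card * (1 / (Real.pi * r ^ 2))) with hM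
  have hexp : IntegrableOn (fun t : ℝ => Real.exp (-(κ ^ 2 * t))) (Set.Ioi 0) := by
    have := integrableOn_exp_mul_Ioi (a := -(κ ^ 2)) (by
      have : 0 < κ ^ 2 := by positivity
      linarith) 0
    refine this.congr_fun (fun t _ => ?_) measurableSet_Ioi
    simp only
    congr 1
    ring
  have hprod : (volume.restrict (Set.Ioi (0 : ℝ))).prod
      ((volume.restrict S).prod (volume.restrict S))
      = ((volume : Measure ℝ).prod ((volume : Measure ℂ).prod (volume : Measure ℂ))).restrict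
        (Set.Ioi (0 : ℝ) ×ˢ (S ×ˢ S)) := by
    rw [Measure.prod_restrict, Measure.prod_restrict]
  have hint : Integrable (Function.uncurry F) ((volume.restrict (Set.Ioi (0 : ℝ))).prod
      ((volume.restrict S).prod (volume.restrict S))) := by
    have h1 : Integrable (fun z : ℝ × ℂ × ℂ => Real.exp (-(κ ^ 2 * z.1)) * M)
        ((volume.restrict (Set.Ioi (0 : ℝ))).prod
          ((volume.restrict S).prod (volume.restrict S))) :=
      Integrable.mul_prod hexp (integrable_const M)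
    refine h1.mono' (FFe_meas η1 η2 γ L ξ1 a κ O E).aestronglyMeasurable ?_
    rw [hprod]
    filter_upwards [ae_restrict_mem (measurableSet_Ioi.prod (hSm.prod hSm))] with z hz
    exact FFe_bound O E hr ha hfar hz.1 hz.2
  -- the window as a product
  have hFt : ∀ t ∈ Set.Ioi (0 : ℝ), ∫ x in S, ∫ y in S, F t (x, y)
      = ∫ p, F t p ∂((volume.restrict S).prod (volume.restrict S)) := by
    intro t ht
    rw [integral_prod]
    have h1 : Integrable (fun _ : ℂ × ℂ => Real.exp (-(κ ^ 2 * t)) * M)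
        ((volume.restrict S).prod (volume.restrict S)) := integrable_const _
    refine h1.mono' ((FFe_meas η1 η2 γ L ξ1 a κ O E).comp
      measurable_prodMk_left).aestronglyMeasurable ?_
    rw [Measure.prod_restrict]
    filter_upwards [ae_restrict_mem (hSm.prod hSm)] with z hz
    exact FFe_bound O E hr ha hfar ht hz
  -- the shift
  have hshift : (∫ t in Set.Ioi a, Real.exp (-(κ ^ 2 * t)) *
        TTE η1 η2 γ L O E ξ1 δ ζ1 ζ2 a t)
      = ∫ t in Set.Ioi (0 : ℝ), Real.exp (-(κ ^ 2 * (t + a))) *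
        TTE η1 η2 γ L O E ξ1 δ ζ1 ζ2 a (t + a) := by
    have hmp : MeasurePreserving (fun t : ℝ => t + a) volume volume :=
      measurePreserving_add_right volume a
    have hemb : MeasurableEmbedding (fun t : ℝ => t + a) :=
      (Homeomorph.addRight a).measurableEmbedding
    have := hmp.setIntegral_preimage_emb hemb (fun t : ℝ => Real.exp (-(κ ^ 2 * t)) *
        TTE η1 η2 γ L O E ξ1 δ ζ1 ζ2 a t) (Set.Ioi a)
    have hpre : (fun t : ℝ => t + a) ⁻¹' Set.Ioi a = Set.Ioi 0 := by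
      ext t
      simp
    rw [hpre] at this
    exact this.symm
  rw [hshift]
  have hE : Real.exp (-(κ * c)) = Real.exp (-(κ ^ 2 * a)) := by
    congr 2
    rw [had]
    field_simp
  have hin : ∀ t ∈ Set.Ioi (0 : ℝ), Real.exp (-(κ ^ 2 * (t + a))) *
      TTE η1 η2 γ L O E ξ1 δ ζ1 ζ2 a (t + a)
      = Real.exp (-(κ * c)) * ∫ p, F t p ∂((volume.restrict S).prod (volume.restrict S)) := by
    intro t ht
    rw [← hFt t ht]
    unfold TTE
    have e1 : Real.exp (-(κ ^ 2 * (t + a))) = Real.exp (-(κ * c)) * Real.exp (-(κ ^ 2 * t)) := by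
      rw [hE, ← Real.exp_add]
      congr 1
      ring
    have e2 : t + a - a = t := by ring
    rw [e1, e2, mul_assoc]
    congr 1
    rw [← integral_const_mul]
    refine integral_congr_ae (Eventually.of_forall fun x => ?_)
    simp only
    rw [← integral_const_mul]
    rfl
  rw [setIntegral_congr_fun measurableSet_Ioi hin, integral_const_mul]
  congr 1
  have hint2 : Integrable (fun p : ℂ × ℂ => ∫ t in Set.Ioi (0 : ℝ), F t p)
      ((volume.restrict S).prod (volume.restrict S)) := hint.integral_prod_right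
  rw [integral_integral_swap hint, integral_prod _ hint2]
  refine integral_congr_ae (Eventually.of_forall fun x => ?_)
  refine integral_congr_ae (Eventually.of_forall fun y => ?_)
  simp only
  rw [← integral_const_mul]
  refine integral_congr_ae (Eventually.of_forall fun t => ?_)
  rw [hF]
  unfold FFe
  simp only
  ring

/-- the image of the window is far from the window -/
theorem far {γ L ξ1 δ ζ r : ℝ} (hγ : 0 < γ) (hγ' : γ < Real.pi / 2)
    (hr : r ≤ Real.sin γ * (L - 2 * δ) - 2 * ζ) (hζ : 0 < ζ) :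
    ∀ x ∈ Rw ξ1 δ ζ ζ, ∀ y ∈ Rw ξ1 δ ζ ζ,
      r ≤ ‖exp (γ * I) * (L - y) - exp (-(γ * I)) * x‖ := by
  rintro x ⟨hx1, hx2, hx3⟩ y ⟨hy1, hy2, hy3⟩
  have hs : 0 < Real.sin γ := Real.sin_pos_of_pos_of_lt_pi hγ (by linarith [Real.pi_pos])
  have hc : 0 < Real.cos γ := Real.cos_pos_of_mem_Ioo ⟨by linarith, hγ'⟩
  have hc1 := Real.cos_le_one γ
  have e : (exp (γ * I) * (L - y) - exp (-(γ * I)) * x).im
      = Real.sin γ * (L - y.re + x.re) - Real.cos γ * (y.im + x.im) := by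
    have e1 : exp (γ * I) = (Real.cos γ : ℂ) + (Real.sin γ : ℂ) * I := by
      rw [Complex.exp_mul_I, Complex.ofReal_cos, Complex.ofReal_sin]
    have e2 : exp (-(γ * I)) = (Real.cos γ : ℂ) - (Real.sin γ : ℂ) * I := by
      rw [← neg_mul, Complex.exp_mul_I, Complex.cos_neg, Complex.sin_neg, Complex.ofReal_cos,
        Complex.ofReal_sin]
      ring
    rw [e1, e2]
    generalize Real.cos γ = c
    generalize Real.sin γ = s
    simp
    ring
  refine le_trans ?_ (Complex.abs_im_le_norm _)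
  rw [e]
  refine le_trans ?_ (le_abs_self _)
  rw [abs_lt] at hx1 hy1
  have h1 : Real.sin γ * (L - 2 * δ) ≤ Real.sin γ * (L - y.re + x.re) :=
    mul_le_mul_of_nonneg_left (by linarith) hs.le
  have h2 : Real.cos γ * (y.im + x.im) ≤ 2 * ζ := by
    calc Real.cos γ * (y.im + x.im) ≤ Real.cos γ * (2 * ζ) :=
          mul_le_mul_of_nonneg_left (by linarith) hc.le
      _ ≤ 1 * (2 * ζ) := mul_le_mul_of_nonneg_right hc1 (by linarith)
      _ = _ := one_mul _
  linarith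

end Pool.Agent.XQ.E
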