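import Pool.Agent.Helper25_AEU.Defs
import Pool.Agent.Helper16_XQ.Ana

/-!
Squad XQ (MP_5b0138_an): almost every convex polygon is determined by its Dirichlet spectrum among
ALL bounded convex domains.  Part G (geometry): definitions.

`P` is the generic polygon (`GenX`), `Q` an arbitrary convex polygon (`Pg Q`): parallel sides,
right angles, equal lengths are allowed. Bodies, isometries, half-planes: as in squad AEU
(`Helper25_AEU.Defs`).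
-/

set_option autoImplicit false

namespace Pool.Agent.XQ

open MeasureTheory Complex Filter Topology Pool.Agent.H62T
open Pool.Agent.H16F (Sublin)
open Pool.Agent.AEU

/-! ### Placements, induction hypothesis -/

/-- the isometry `g` places the triple `S` and the body `h` into `Y` -/
structure WP (X Y : Finset HP) (g : Iso2) (S : Finset HP) (h : ℂ → ℝ) : Prop where
  card : S.card = 3
  sub : Sublin h
  fits : Fits X h
  fits' : Fits Y (mb g h)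
  tch : S ⊆ touch X h
  mem : ∀ s ∈ S, mv g s ∈ Y

/-- placements of bodies shorter than `L` are unique -/
def Uq (X Y : Finset HP) (L : ℝ) : Prop :=
  ∀ (g g' : Iso2) (S : Finset HP) (h : ℂ → ℝ), WP X Y g S h → WP X Y g' S h → lam h < L → g = g'

/-- environment: everything is matched below the level `L`, in both directions -/
structure Env (X Y : Finset HP) (L : ℝ) : Prop where
  pg : Pg X
  pg' : Pg Y
  all : AllM X Y L
  all' : AllM Y X L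
  uq : Uq X Y L
  uq' : Uq Y X L

open Classical in
/-- number of the ghosts of length `l` -/
noncomputable def gc (X : Finset HP) (l : ℝ) : ℕ :=
  ((X.powersetCard 3).filter fun S => Ghost X S ∧ ell S = l).card

/-- induction hypothesis: `P` and `Q` agree below the level `L` -/
structure Hyp (P Q : Finset HP) (L : ℝ) : Prop where
  m1 : AllM P Q L
  m2 : AllM Q P L
  uq : Uq P Q L
  gh : ∀ l : ℝ, l < L → gc P l = gc Q l

/-- `P` and `Q` agree up to the level `L`, including `L` -/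
structure HypLe (P Q : Finset HP) (L : ℝ) : Prop where
  m1 : ∀ h, Special P h → lam h ≤ L → ∃ g, Mat P Q g h
  m2 : ∀ h, Special Q h → lam h ≤ L → ∃ g, Mat Q P g h
  uq : ∀ (g g' : Iso2) (S : Finset HP) (h : ℂ → ℝ), WP P Q g S h → WP P Q g' S h → lam h ≤ L →
    g = g'
  gh : ∀ l : ℝ, l ≤ L → gc P l = gc Q l

/-- the triple `S` is touched by a body which fits and is shorter than `L` -/
def Lt (X S : Finset HP) (L : ℝ) : Prop :=
  ∃ h, Sublin h ∧ Fits X h ∧ S ⊆ touch X h ∧ lam h < L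

/-- the triple `S` is touched by a body which fits and is not longer than `L` -/
def Le (X S : Finset HP) (L : ℝ) : Prop :=
  ∃ h, Sublin h ∧ Fits X h ∧ S ⊆ touch X h ∧ lam h ≤ L

/-- the body `h` cannot be placed in `Y` together with the sides which it touches -/
def Unl (X Y : Finset HP) (h : ℂ → ℝ) : Prop :=
  Special X h ∧ ¬ ∃ g, Fits Y (mb g h) ∧ ∀ s ∈ touch X h, mv g s ∈ Y

/-- `h` is a shortest body touching the sides which it touches -/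
def MinF (X : Finset HP) (h : ℂ → ℝ) : Prop :=
  ∀ h', Sublin h' → Fits X h' → touch X h ⊆ touch X h' → lam h ≤ lam h'

/-- pairwise nonparallel sides -/
def Np (S : Finset HP) : Prop := ∀ s ∈ S, ∀ t ∈ S, s ≠ t → dt s.1 t.1 ≠ 0

/-! ### Shapes of critical bodies -/

/-- four different half-planes -/
def Ne4 (a b c d : HP) : Prop := a ≠ b ∧ a ≠ c ∧ a ≠ d ∧ b ≠ c ∧ b ≠ d ∧ c ≠ d

/-- an edge whose two angles are not acute -/
structure ShA (X : Finset HP) (h : ℂ → ℝ) (i j k : HP) (v w : ℂ) : Prop where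
  vi : VxOf X i j v
  wk : VxOf X j k w
  ne : i ≠ k
  obt : 0 ≤ ip i.1 j.1
  obt' : 0 ≤ ip j.1 k.1
  body : h = hf ![v, w]

/-- a vertex and points inside two other sides -/
structure ShE (X : Finset HP) (h : ℂ → ℝ) (i j q r : HP) (v x y : ℂ) : Prop where
  vi : VxOf X i j v
  qX : q ∈ X
  rX : r ∈ X
  ne : Ne4 i j q r
  xq : ip q.1 x = q.2
  yr : ip r.1 y = r.2
  xs : ∀ s ∈ X, s ≠ q → ip s.1 x < s.2
  ys : ∀ s ∈ X, s ≠ r → ip s.1 y < s.2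
  body : h = hf ![v, x, y]

/-- a diagonal -/
structure Sh3 (X : Finset HP) (h : ℂ → ℝ) (i j k l : HP) (v w : ℂ) : Prop where
  vi : VxOf X i j v
  wk : VxOf X k l w
  ne : Ne4 i j k l
  body : h = hf ![v, w]

/-- an edge and a point inside another side -/
structure Sh4 (X : Finset HP) (h : ℂ → ℝ) (i j k s : HP) (v w x : ℂ) : Prop where
  vi : VxOf X i j v
  wk : VxOf X j k w
  sX : s ∈ X
  ne : Ne4 i j k s
  xs : ip s.1 x = s.2
  xt : ∀ t ∈ X, t ≠ s → ip t.1 x < t.2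
  body : h = hf ![v, w, x]

/-- four points inside four different sides -/
structure ShC (X : Finset HP) (h : ℂ → ℝ) (x : Fin 4 → ℂ) (s : Fin 4 → HP) : Prop where
  inj : Function.Injective s
  mem : ∀ i, s i ∈ X
  on : ∀ i, ip (s i).1 (x i) = (s i).2
  ins : ∀ i, ∀ t ∈ X, t ≠ s i → ip t.1 (x i) < t.2
  body : h = hf x

/-- `e` and the side `i` form an acute angle at the vertex of the sides `i` and `j`: the vector
`e` has a positive scalar product with the direction in which the side `i` leaves the vertex -/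
def Ac (e : ℂ) (i j : HP) : Prop := ip e j.1 < ip i.1 j.1 * ip e i.1

/-- torn body of the type III in `Q`: a diagonal, exactly one acute angle at each end, two different
isometries into `P`, which exchange the images of the sides `i` and `k` -/
structure QTor (Q P : Finset HP) (L : ℝ) (h : ℂ → ℝ) (i j k l : HP) (v w : ℂ) (g1 g2 : Iso2) :
    Prop where
  sh : Sh3 Q h i j k l v w
  len : lam h = L
  min : MinF Q h
  unl : Unl Q P h
  gne : g1 ≠ g2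
  f1 : Fits P (mb g1 h)
  f2 : Fits P (mb g2 h)
  i1 : mv g1 i ∈ P
  j1 : mv g1 j ∈ P
  k1 : mv g1 k ∈ P
  k2 : mv g2 k ∈ P
  l2 : mv g2 l ∈ P
  i2 : mv g2 i ∈ P
  ex : mv g1 i = mv g2 k
  ex' : mv g1 k = mv g2 i
  ne : mv g1 j ≠ mv g2 l
  ai : Ac (w - v) i j
  aj : ¬ Ac (w - v) j i
  ak : Ac (v - w) k l
  al : ¬ Ac (v - w) l k
  lt1 : Lt Q {i, j, k} L
  lt2 : Lt Q {k, l, i} L

/-! ### Genericity -/

/-- reflection in the boundary line of a half-plane -/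
noncomputable def rl (s : HP) (x : ℂ) : ℂ := x - ((2 * (ip s.1 x - s.2) : ℝ) : ℂ) * s.1

/-- half the length of the triangular path from the vertex `vx i j` to the lines `q`, `r` -/
noncomputable def hE (i j q r : HP) : ℝ := |dt q.1 r.1| * ‖vx i j - vx q r‖

/-- generic polygons -/
structure GenX (P : Finset HP) : Prop where
  gen : Gen P
  x1 : ∀ a ∈ P, ∀ b ∈ P, ∀ c ∈ P, ∀ d ∈ P, Ne4 a b c d →
    a.1 * c.1 ≠ I * (b.1 * d.1) ∧ a.1 * c.1 ≠ -(I * (b.1 * d.1))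
  x2 : ∀ a b c, Tri P a b c → a.1 * a.1 ≠ I * (b.1 * c.1) ∧ a.1 * a.1 ≠ -(I * (b.1 * c.1))
  flipq : ∀ i j q a b c, Tri P i j q → Tri P a b c → ∀ f : Iso2, mv f i = j → mv f j = i →
    ell3 i q (mv f q) ≠ ell3 a b c
  n1 : ∀ i ∈ P, ∀ j ∈ P, ∀ q ∈ P, ∀ r ∈ P, Ne4 i j q r → ip (vx i j - vx q r) (I * i.1) ≠ 0
  n2 : ∀ i ∈ P, ∀ j ∈ P, ∀ q ∈ P, ∀ r ∈ P, ∀ q' ∈ P, ∀ r' ∈ P, Ne4 i j q r → Ne4 i j q' r' →
    hE i j q r = hE i j q' r' → (q = q' ∧ r = r') ∨ (q = r' ∧ r = q')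
  n3 : ∀ i ∈ P, ∀ j ∈ P, ∀ k ∈ P, ∀ l ∈ P, ∀ i' ∈ P, ∀ j' ∈ P, ∀ k' ∈ P, ∀ l' ∈ P,
    Ne4 i j k l → Ne4 i' j' k' l' → ‖vx i j - vx k l‖ = ‖vx i' j' - vx k' l'‖ →
    ({i, j, k, l} : Finset HP) = {i', j', k', l'}
  n4 : ∀ a ∈ P, ∀ b ∈ P, ∀ b' ∈ P, ∀ c ∈ P, ∀ i ∈ P, ∀ j ∈ P, ∀ k ∈ P, ∀ l ∈ P,
    Ne4 a b b' c → Ne4 i j k l → ∀ f : Iso2, mv f a = c → mv f c = a →
    ‖vx a b - f (vx a b')‖ ≠ ‖vx i j - vx k l‖
  n5 : ∀ a ∈ P, ∀ b ∈ P, ∀ b' ∈ P, ∀ c ∈ P, Ne4 a b b' c → ∀ f : Iso2, mv f a = c → mv f c = a →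
    ip (vx a b - f (vx a b')) (I * b.1) ≠ 0
  n6 : ∀ i ∈ P, ∀ j ∈ P, ∀ k ∈ P, ∀ s ∈ P, Ne4 i j k s →
    dt (rl s (vx j k) - vx i j) (i.1 * i.1 * (starRingEnd ℂ) (vx j k - vx i j)) ≠ 0
  n8 : ∀ i ∈ P, ∀ j ∈ P, ∀ q ∈ P, ∀ r ∈ P, Ne4 i j q r → ∀ α θ : ℝ, 0 < α → α < Real.pi →
    Real.cos α = -ip i.1 j.1 → 0 < θ → θ < Real.pi →
    Real.cos θ * ‖vx q r - vx i j‖ = ip (I * i.1) (vx q r - vx i j) → ∀ n : ℤ,
    4 * Real.cos (2 * Real.pi * θ / α) ≠ n ∧ 4 * Real.cos (2 * Real.pi * (Real.pi - θ) / α) ≠ n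

/-! ### Torn bodies -/

/-- torn body with its certificate: for all bodies `∑ c s * h s.1 ≤ lam h`, with equality and
`c s * (h s.1 - s.2) ≥ 0` only for `K` -/
structure TornC (X F : Finset HP) (K : ℂ → ℝ) (L : ℝ) (c : HP → ℝ) : Prop where
  card : F.card = 4
  np : Np F
  sub : Sublin K
  fits : Fits X K
  tch : touch X K = F
  len : lam K = L
  ne : ∀ s ∈ F, c s ≠ 0
  dep : ∑ s ∈ F, ((c s : ℝ) : ℂ) * s.1 = 0
  cert : ∀ h, Sublin h → ∑ s ∈ F, c s * h s.1 ≤ lam h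
  val : ∑ s ∈ F, c s * s.2 = L
  uniq : ∀ h, Sublin h → (∀ s ∈ F, 0 ≤ c s * (h s.1 - s.2)) → lam h ≤ L → h = K
  lt : ∀ t ∈ F, 0 < c t → Lt X (F.erase t) L

open Classical in
/-- the sides of `F` which have to be left -/
noncomputable def Mp (F : Finset HP) (c : HP → ℝ) : Finset HP := F.filter fun s => 0 < c s

open Classical in
/-- the sides of `F` inside which the body stays -/
noncomputable def Mm (F : Finset HP) (c : HP → ℝ) : Finset HP := F.filter fun s => c s < 0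

/-- standard form of the type E; `α` is the angle at the vertex, `θ` the angle between a side and
the bisector of the path, `γ` half the angle of the path at the vertex -/
def StdE (F E : Finset HP) (L α θ γ : ℝ) : Prop :=
  ∃ (g : Iso2) (η1 η2 δ1 δ2 ρ : ℝ), 0 < η1 ∧ 0 < η2 ∧ η1 + η2 < Real.pi ∧
    -(Real.pi / 2) < δ1 ∧ δ1 < 0 ∧ 0 < δ2 ∧ δ2 < Real.pi / 2 ∧ Real.pi / 2 < δ2 - δ1 ∧
    δ2 - δ1 < η1 + η2 ∧ δ2 - δ1 - Real.pi / 2 < η2 ∧ 0 < ρ ∧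
    F.image (mv g) = {lnU η1, lnD η2, lnN δ1 ρ, lnN δ2 ρ} ∧
    ((η1 < Real.pi / 2 ∧ η2 < Real.pi / 2 ∧ E = ∅) ∨
      (Real.pi / 2 < η1 ∧ E.image (mv g) = {lnD η2})) ∧
    L = 2 * ρ * Real.sin (δ2 - δ1) ∧ α = η1 + η2 ∧ θ = η2 ∧ γ = δ2 - δ1 - Real.pi / 2

/-- standard form of the type III -/
def Std3 (F E : Finset HP) (L : ℝ) : Prop :=
  ∃ (g : Iso2) (η1 η2 ζ1 ζ2 d : ℝ), 0 < η1 ∧ 0 < η2 ∧ 0 < ζ1 ∧ 0 < ζ2 ∧ Real.pi / 2 < η1 + η2 ∧
    η1 + η2 < Real.pi ∧ Real.pi / 2 < ζ1 + ζ2 ∧ ζ1 + ζ2 < Real.pi ∧ η1 ≠ Real.pi / 2 ∧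
    η2 ≠ Real.pi / 2 ∧ ζ1 ≠ Real.pi / 2 ∧ ζ2 ≠ Real.pi / 2 ∧ 0 < d ∧ L = 2 * d ∧
    F.image (mv g) = {lnU η1, lnD η2, lnN (Real.pi / 2 - ζ1) d, lnN (-(Real.pi / 2 - ζ2)) d} ∧
    E.image (mv g) = cE η1 η2 (lnU η1) (lnD η2) ∪
      cE ζ1 ζ2 (lnN (Real.pi / 2 - ζ1) d) (lnN (-(Real.pi / 2 - ζ2)) d)

/-- standard form of the type IV -/
def Std4 (F E : Finset HP) (L : ℝ) : Prop :=
  ∃ (g : Iso2) (α α' θ θ' d : ℝ) (a : ℂ), Real.pi / 2 < α ∧ α < Real.pi ∧ Real.pi / 2 < α' ∧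
    α' < Real.pi ∧ 0 < θ ∧ θ < 2 * α - Real.pi ∧ 0 < θ' ∧ θ' < 2 * α' - Real.pi ∧ 0 < d ∧
    θ + θ' < Real.pi ∧ (∃ p : ℝ, 0 < p ∧ a = p * exp (θ * I)) ∧
    (∃ p : ℝ, 0 < p ∧ a = d - p * exp (-(θ' * I))) ∧ L = d + ‖a‖ + ‖a - d‖ ∧
    F.image (mv g) = {lnU α, lnD 0, lnN (Real.pi / 2 - α') d,
      lnN (Real.pi / 2 + (θ - θ') / 2) a} ∧
    E.image (mv g) = {lnD 0}

/-! ### Events near the level `L` -/

open Classical in
/-- the sides which are erased for the triple `S`: the fourth sides `t` of the torn bodies of `T`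
touching `S`, if `S` is touched by shorter bodies too -/
noncomputable def er (X : Finset HP) (T : Finset (Finset HP)) (c : Finset HP → HP → ℝ)
    (S : Finset HP) : Finset HP :=
  X.filter fun t => t ∉ S ∧ insert t S ∈ T ∧ 0 < c (insert t S) t

open Classical in
/-- the relaxed polygon for the triple `S` -/
noncomputable def rlx (X : Finset HP) (T : Finset (Finset HP)) (c : Finset HP → HP → ℝ)
    (S : Finset HP) : Finset HP :=
  X \ er X T c S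

/-- the triples whose shortest touching body is a torn body -/
def TB (T : Finset (Finset HP)) (c : Finset HP → HP → ℝ) (S : Finset HP) : Prop :=
  ∃ F ∈ T, ∃ t ∈ F, S = F.erase t ∧ c F t < 0

/-- opposite sides at distance `L / 2` facing each other -/
structure FacePair (X : Finset HP) (L : ℝ) (a a' : HP) : Prop where
  mem : a ∈ X
  mem' : a' ∈ X
  opp : a'.1 = -a.1
  dist : a.2 + a'.2 = L / 2
  seg : ∃ x ∈ Cl X, ip a.1 x = a.2 ∧ x - ((L / 2 : ℝ) : ℂ) * a.1 ∈ Cl X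

/-- the triples of sides of `X` near the level `L`: `M` matched triples, `N` triples touched by
unmatched bodies, `T` torn quadruples with certificates `c` and bodies `K` -/
structure Part (X : Finset HP) (L δ : ℝ) (M N T : Finset (Finset HP)) (c : Finset HP → HP → ℝ)
    (K : Finset HP → ℂ → ℝ) : Prop where
  sM : M ⊆ X.powersetCard 3
  sN : N ⊆ X.powersetCard 3
  nM : ∀ S ∈ M, Np S
  nN : ∀ S ∈ N, Np S
  torn : ∀ F ∈ T, F ⊆ X ∧ TornC X F (K F) L (c F)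
  dMN : Disjoint M N
  dM : ∀ S ∈ M, ¬ TB T c S
  dN : ∀ S ∈ N, ¬ TB T c S
  tin : ∀ F ∈ T, ∀ t ∈ F, 0 < c F t → F.erase t ∈ M ∪ N
  tinj : ∀ F ∈ T, ∀ F' ∈ T, ∀ t ∈ F, ∀ t' ∈ F', c F t < 0 → c F' t' < 0 →
    F.erase t = F'.erase t' → F = F' ∧ t = t'
  loc : ∀ S ∈ N, ∀ h, Sublin h → lam h < L + δ → (Ev (rlx X T c S) S h ↔ EvL S h)
  out : ∀ S ∈ X.powersetCard 3, Np S → S ∉ M → S ∉ N → ¬ TB T c S → ∀ h, Sublin h →
    lam h < L + δ → ¬ Ev X S h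
  far : ∀ F ∈ T, ∀ h, Sublin h → lam h < L + δ → (∀ s ∈ F, 0 ≤ c F s * (h s.1 - s.2)) →
    ∀ s ∈ X, s ∉ F → h s.1 < s.2
  par : ∀ a ∈ X, ∀ a' ∈ X, a ≠ a' → dt a.1 a'.1 = 0 → ¬ FacePair X L a a' → ∀ h, Sublin h →
    Fits X h → lam h < L + δ → ¬ (a ∈ touch X h ∧ a' ∈ touch X h)
  face : ∀ a a', FacePair X L a a' → ∃ x y : ℂ, x ≠ y ∧ x ∈ Cl X ∧ y ∈ Cl X ∧ ip a.1 x = a.2 ∧
    ip a.1 y = a.2 ∧ x - ((L / 2 : ℝ) : ℂ) * a.1 ∈ Cl X ∧ y - ((L / 2 : ℝ) : ℂ) * a.1 ∈ Cl X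

/-! ### Kinds of new triples -/

/-- ghost at the level `L` -/
structure KGh (S : Finset HP) (L : ℝ) : Prop where
  card : S.card = 3
  unit : ∀ s ∈ S, ‖s.1‖ = 1
  acute : Acute S
  len : ell S = L
  alt : ∀ i j q, S = {i, j, q} → L / 2 < q.2 - ip q.1 (vx i j)

/-- edge with two obtuse angles -/
def KA (S : Finset HP) (L c c' : ℝ) : Prop :=
  ∃ i j k, S = {i, j, k} ∧ S.card = 3 ∧ IsA i j k L c c'

/-- edge with an obtuse angle and a right angle -/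
def KAh (S : Finset HP) (L c : ℝ) : Prop :=
  ∃ i j k, S = {i, j, k} ∧ S.card = 3 ∧ ‖i.1‖ = 1 ∧ ‖j.1‖ = 1 ∧ ‖k.1‖ = 1 ∧ ip i.1 j.1 = c ∧
    0 < c ∧ c < 1 ∧ ip j.1 k.1 = 0 ∧ 0 < dt i.1 j.1 * dt j.1 k.1 ∧ eA i j k = L ∧
    ip k.1 (vx i j) < k.2 ∧ ip i.1 (vx j k) < i.2

/-- vertex and side, obtuse angle at the vertex -/
def KB (S : Finset HP) (L c a b : ℝ) : Prop :=
  ∃ i j q, S = {i, j, q} ∧ S.card = 3 ∧ IsB i j q L c a b ∧ 0 < c

/-- vertex and side, right angle at the vertex -/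
def KBr (S : Finset HP) (L a b : ℝ) : Prop :=
  ∃ i j q, S = {i, j, q} ∧ S.card = 3 ∧ IsB i j q L 0 a b

/-- vertex and side, acute angle at the vertex, larger than the two other angles of the triangle -/
def KBa (S : Finset HP) (L c a b : ℝ) : Prop :=
  ∃ i j q, S = {i, j, q} ∧ S.card = 3 ∧ IsB i j q L c a b ∧ c < 0 ∧ Acute S ∧ 0 < ell S ∧
    ell S < L ∧ b < c ∧ a < c

/-- acute isosceles triangle, the two equal angles (at `ij` and `jq`) are larger than the third -/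
def KIso (S : Finset HP) (L : ℝ) : Prop :=
  ∃ (i j q : HP) (c a : ℝ), S = {i, j, q} ∧ S.card = 3 ∧ IsB i j q L c a c ∧ c < 0 ∧ Acute S ∧
    0 < ell S ∧ ell S < L ∧ a < c

/-- kinds in `P` -/
def KindP (S : Finset HP) (L : ℝ) : Prop :=
  Old S L ∨ KGh S L ∨ (∃ c c', KA S L c c') ∨ (∃ c a b, KB S L c a b) ∨ ∃ c a b, KBa S L c a b

/-- kinds in `Q` -/
def KindQ (S : Finset HP) (L : ℝ) : Prop :=
  KindP S L ∨ (∃ c, KAh S L c) ∨ (∃ a b, KBr S L a b) ∨ KIso S L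

open Classical in
/-- the structure of `P` and `Q` near the level `L` -/
structure SplitX (P Q : Finset HP) (L δ : ℝ) (M NP NQ TP TQ : Finset (Finset HP))
    (cP cQ : Finset HP → HP → ℝ) (KP KQ : Finset HP → ℂ → ℝ) (γ : Finset HP → Iso2) : Prop where
  L0 : 0 < L
  δ0 : 0 < δ
  pP : Part P L δ M NP TP cP KP
  pQ : Part Q L δ (M.image fun S => S.image (mv (γ S))) NQ TQ cQ KQ
  inj : ∀ S ∈ M, ∀ S' ∈ M, S.image (mv (γ S)) = S'.image (mv (γ S')) → S = S'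
  mat : ∀ S ∈ M, ∀ h, Sublin h → lam h < L + δ →
    (Ev (rlx P TP cP S) S h ↔
      Ev (rlx Q TQ cQ (S.image (mv (γ S)))) (S.image (mv (γ S))) (mb (γ S) h))
  kP : ∀ S ∈ NP, KindP S L
  kQ : ∀ S ∈ NQ, KindQ S L
  one : ∀ S ∈ NP, ∀ S' ∈ NP, ¬ Old S L → ¬ Old S' L → S = S'
  r90 : ∀ S ∈ NQ, ∀ S' ∈ NQ, (∃ a b, KBr S L a b) → (∃ a b, KBr S' L a b) → S = S'
  old : ∀ l : ℝ, l < L → (NP.filter fun S => Acute S ∧ ell S = l).card
    = (NQ.filter fun S => Acute S ∧ ell S = l).card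
  tP : ∀ F ∈ TP, (∃ α θ γ, StdE F (Mm F (cP F)) L α θ γ ∧
      ∀ n : ℤ, 4 * Real.cos (2 * Real.pi * θ / α) ≠ n) ∨
    Std3 F (Mm F (cP F)) L ∨ Std4 F (Mm F (cP F)) L
  tE : ∀ F ∈ TP, ∀ F' ∈ TP, ∀ α θ γ θ' γ', StdE F (Mm F (cP F)) L α θ γ →
    StdE F' (Mm F' (cP F')) L α θ' γ' → F = F'
  t3 : ∀ F ∈ TP, ∀ F' ∈ TP, Std3 F (Mm F (cP F)) L → Std3 F' (Mm F' (cP F')) L → F = F'
  tQ : ∀ F ∈ TQ, Std3 F (Mm F (cQ F)) L ∧ (Mm F (cQ F)).card = 2
  t34 : TQ.Nonempty → ∀ F ∈ TP, ¬ Std3 F (Mm F (cP F)) L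

end Pool.Agent.XQ
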