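import Pool.Agent.Helper16_XQ.StmtE
import Pool.Agent.Helper44_BLK.Fin

/-! helper16, XQ (MP_5b0138_an), GE: closed forms of the main terms. -/

set_option autoImplicit false

namespace Pool.Agent.XQ.E

open MeasureTheory Filter Topology Pool.Agent.H60K Pool.Agent.H60K.H44 Pool.Agent.H38KL
  Pool.Agent.AEU.H12

/-- kernel of `fub_kit` -/
noncomputable def Fk (q p v : ℝ) : ℝ :=
  Real.pi / (2 * q) * (Real.sin (Real.pi * p / q)
    / (Real.cosh (Real.pi * (2 * v) / q) + Real.cos (Real.pi * p / q)))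

theorem cos_gt {q p : ℝ} (hq : 0 < q) (hp : |p| < q) : -1 < Real.cos (Real.pi * p / q) := by
  have hpi := Real.pi_pos
  rw [abs_lt] at hp
  have h1 : |Real.pi * p / q| < Real.pi := by
    rw [abs_lt]
    constructor
    · rw [lt_div_iff₀ hq]
      nlinarith
    · rw [div_lt_iff₀ hq]
      nlinarith
  rw [← Real.cos_abs, ← Real.cos_pi]
  exact Real.cos_lt_cos_of_nonneg_of_le_pi (abs_nonneg _) le_rfl h1

theorem fk_cont {q p : ℝ} (hq : 0 < q) (hp : |p| < q) : Continuous (Fk q p) := by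
  unfold Fk
  refine continuous_const.mul (Continuous.div (by fun_prop) (by fun_prop) fun v => ?_)
  have h1 := cos_gt hq hp
  have h2 := Real.one_le_cosh (Real.pi * (2 * v) / q)
  linarith

theorem fk_bdd {q p : ℝ} (hq : 0 < q) (hp : |p| < q) (v : ℝ) :
    |Fk q p v| ≤ Real.pi / (2 * q) * (1 / (1 + Real.cos (Real.pi * p / q))) := by
  have hpi := Real.pi_pos
  have h1 := cos_gt hq hp
  have h2 := Real.one_le_cosh (Real.pi * (2 * v) / q)
  unfold Fk
  rw [abs_mul, abs_of_pos (by positivity : 0 < Real.pi / (2 * q)), abs_div,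
    abs_of_pos (by linarith : 0 < Real.cosh (Real.pi * (2 * v) / q) + Real.cos (Real.pi * p / q))]
  gcongr
  · linarith
  · exact Real.abs_sin_le_one _

theorem fk_int {x q p : ℝ} (hx : 0 < x) (hq : 0 < q) (hp : |p| < q) :
    IntegrableOn (fun v => Real.exp (-(x * Real.cosh v)) * Fk q p v) (Set.Ioi 0) := by
  refine Integrable.mul_bdd (c := Real.pi / (2 * q) * (1 / (1 + Real.cos (Real.pi * p / q))))
    (intg_exp_cosh hx).integrableOn ?_ ?_
  · exact (fk_cont hq hp).aestronglyMeasurable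
  · exact Eventually.of_forall fun v => fk_bdd hq hp v

/-- a weight with a hyperbolic cosine -/
theorem fub_cosh {x q p s : ℝ} (hx : 0 < x) (hq : 0 < q) (h1 : |p + s| < q) (h2 : |p - s| < q) :
    IntegrableOn (fun τ => Real.sinh (p * τ) / Real.sinh (q * τ) * Real.cosh (s * τ)
      * Kit (2 * τ) x) (Set.Ioi 0) ∧
    ∫ τ in Set.Ioi (0 : ℝ), Real.sinh (p * τ) / Real.sinh (q * τ) * Real.cosh (s * τ)
      * Kit (2 * τ) x = ∫ v in Set.Ioi (0 : ℝ), Real.exp (-(x * Real.cosh v)) *
        ((Fk q (p + s) v + Fk q (p - s) v) / 2) := by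
  have k1 := fub_kit x hx q (p + s) hq h1
  have k2 := fub_kit x hx q (p - s) hq h2
  have e : ∀ τ : ℝ, Real.sinh (p * τ) / Real.sinh (q * τ) * Real.cosh (s * τ) * Kit (2 * τ) x
      = 1 / 2 * (Real.sinh ((p + s) * τ) / Real.sinh (q * τ) * Kit (2 * τ) x
        + Real.sinh ((p - s) * τ) / Real.sinh (q * τ) * Kit (2 * τ) x) := by
    intro τ
    rw [add_mul, sub_mul, Real.sinh_add, Real.sinh_sub]
    ring
  simp only [e]
  refine ⟨(k1.1.add k2.1).const_mul (1 / 2), ?_⟩
  rw [integral_const_mul, integral_add k1.1 k2.1, k1.2, k2.2]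
  have i1 := fk_int hx hq h1
  have i2 := fk_int hx hq h2
  unfold Fk at i1 i2
  rw [← integral_add i1 i2, ← integral_const_mul]
  refine integral_congr_ae (Eventually.of_forall fun v => ?_)
  unfold Fk
  simp only
  ring

theorem KKt_even (b θ v : ℝ) : KKt b θ (-v) = KKt b θ v := by
  unfold KKt
  have e : 2 * b * -v = -(2 * b * v) := by ring
  rw [e, Real.cosh_neg]

/-- the germ as a half-line integral -/
theorem germE_eq {L b θ γ κ : ℝ} (hL : 0 < L) (hκ : 0 < κ)
    (hi : IntegrableOn (fun v => Real.exp (-(κ * L * Real.cosh v)) * KKt b θ v) (Set.Ioi 0)) :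
    germE L b θ γ κ = 4 / Real.pi * (Ceta b γ * Kit 0 (κ * L)
      - ∫ v in Set.Ioi (0 : ℝ), Real.exp (-(κ * L * Real.cosh v)) * KKt b θ v) := by
  have hx : 0 < κ * L := by positivity
  set x := κ * L with hxdef
  have i1 : IntegrableOn (fun v => Real.exp (-(x * Real.cosh v))) (Set.Ioi 0) :=
    (intg_exp_cosh hx).integrableOn
  unfold germE Kit
  have e1 : ∀ v : ℝ, Real.exp (-(κ * L * Real.cosh v)) * (AEU.H12.Ceta b γ - KKt b θ v)
      = (fun v : ℝ => Real.exp (-(x * Real.cosh v)) * (Ceta b γ - KKt b θ v)) |v| := by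
    intro v
    rcases abs_choice v with h | h
    · rw [h]
    · rw [h]
      simp only [Real.cosh_neg, KKt_even]
      rfl
  simp only [e1]
  rw [integral_comp_abs (f := fun v : ℝ => Real.exp (-(x * Real.cosh v))
    * (Ceta b γ - KKt b θ v))]
  have e2 : ∫ v in Set.Ioi (0 : ℝ), Real.exp (-(x * Real.cosh v)) * (Ceta b γ - KKt b θ v)
      = Ceta b γ * (∫ v in Set.Ioi (0 : ℝ), Real.exp (-(x * Real.cosh v)) * Real.cos (0 * v))
        - ∫ v in Set.Ioi (0 : ℝ), Real.exp (-(x * Real.cosh v)) * KKt b θ v := by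
    rw [← integral_const_mul, ← integral_sub (by simpa using i1.const_mul (Ceta b γ)) hi]
    refine integral_congr_ae (Eventually.of_forall fun v => ?_)
    simp only [zero_mul, Real.cos_zero, mul_one]
    ring
  rw [e2]
  ring

/-- integral of the coefficient `m2` -/
theorem m2_cosh {a γ : ℝ} (h0 : 0 < a) (h1 : a < Real.pi) (hγ : 0 < γ)
    (h2 : Real.pi - a + 2 * γ < a) :
    IntegrableOn (fun τ => Real.sinh ((Real.pi - a) * τ) / Real.sinh (a * τ)
      * Real.cosh (2 * γ * τ)) (Set.Ioi 0) ∧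
    ∫ τ in Set.Ioi (0 : ℝ), Real.sinh ((Real.pi - a) * τ) / Real.sinh (a * τ)
      * Real.cosh (2 * γ * τ) = Ceta (Real.pi / a) γ := by
  have hpi := Real.pi_pos
  have key := AEU.H44.int_cosh a (Real.pi - a) (2 * γ) h0 (by
    rw [abs_of_pos (by linarith), abs_of_pos (by linarith)]
    linarith)
  refine ⟨key.1, ?_⟩
  rw [key.2]
  have e2 : Real.pi * (Real.pi - a) / a = Real.pi / a * Real.pi - Real.pi := by
    field_simp
  have e3 : Real.pi * (2 * γ) / a = 2 * (Real.pi / a) * γ := by ring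
  rw [e2, e3, Real.sin_sub_pi, Real.cos_sub_pi]
  unfold Ceta
  rw [mul_div_assoc]
  have e4 : Real.pi / (2 * a) = Real.pi / a / 2 := by field_simp
  rw [e4]
  congr 2

theorem fk1 {a θ v : ℝ} (h0 : 0 < a) :
    (Fk a (Real.pi - a + 2 * θ) v + Fk a (Real.pi - a - 2 * θ) v) / 2
      = KKt (Real.pi / a) θ v := by
  unfold Fk KKt
  have e1 : Real.pi * (Real.pi - a + 2 * θ) / a
      = Real.pi / a * Real.pi + 2 * (Real.pi / a) * θ - Real.pi := by
    field_simp
    ring
  have e2 : Real.pi * (Real.pi - a - 2 * θ) / a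
      = Real.pi / a * Real.pi - 2 * (Real.pi / a) * θ - Real.pi := by
    field_simp
    ring
  have e3 : Real.pi * (2 * v) / a = 2 * (Real.pi / a) * v := by ring
  have e4 : Real.pi / (2 * a) = Real.pi / a / 2 := by field_simp
  rw [e1, e2, e3, e4, Real.sin_sub_pi, Real.cos_sub_pi, Real.sin_sub_pi, Real.cos_sub_pi]
  ring

theorem fk2 {a η1 η2 v : ℝ} (h0 : 0 < a) (ha : a = η1 + η2) :
    (Fk a (2 * a - Real.pi + (η1 - η2)) v + Fk a (2 * a - Real.pi - (η1 - η2)) v) / 2
      = -KKt (Real.pi / a) η2 v := by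
  unfold Fk KKt
  have e1 : Real.pi * (2 * a - Real.pi + (η1 - η2)) / a
      = Real.pi - (Real.pi / a * Real.pi + 2 * (Real.pi / a) * η2) + 2 * Real.pi := by
    have : η1 = a - η2 := by linarith
    rw [this]
    field_simp
    ring
  have e2 : Real.pi * (2 * a - Real.pi - (η1 - η2)) / a
      = Real.pi - (Real.pi / a * Real.pi - 2 * (Real.pi / a) * η2) := by
    have : η1 = a - η2 := by linarith
    rw [this]
    field_simp
    ring
  have e3 : Real.pi * (2 * v) / a = 2 * (Real.pi / a) * v := by ring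
  have e4 : Real.pi / (2 * a) = Real.pi / a / 2 := by field_simp
  rw [e1, e2, e3, e4, Real.sin_add_two_pi, Real.cos_add_two_pi, Real.sin_pi_sub,
    Real.cos_pi_sub, Real.sin_pi_sub, Real.cos_pi_sub]
  ring

/-- FINE -/
theorem finE : FinEStmt := by
  have hpi := Real.pi_pos
  constructor
  · intro η1 η2 γ L κ h1 h2 h12 hγ hγ2 hL hκ
    have h0 : 0 < η1 + η2 := by linarith
    have hx : 0 < κ * L := by positivity
    have p1 : |Real.pi - (η1 + η2) + 2 * η2| < η1 + η2 := by
      rw [abs_lt]; constructor <;> linarith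
    have p2 : |Real.pi - (η1 + η2) - 2 * η2| < η1 + η2 := by
      rw [abs_lt]; constructor <;> linarith
    have k := fub_cosh hx h0 p1 p2
    have k2 := m2_cosh h0 h12 hγ (by linarith)
    simp only [fk1 h0] at k
    have hi : IntegrableOn (fun v => Real.exp (-(κ * L * Real.cosh v))
        * KKt (Real.pi / (η1 + η2)) η2 v) (Set.Ioi 0) := by
      have i1 := ((fk_int hx h0 p1).add (fk_int hx h0 p2)).const_mul (1 / 2)
      refine i1.congr (Eventually.of_forall fun v => ?_)
      simp only [Pi.add_apply]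
      rw [← fk1 h0]
      ring
    rw [germE_eq hL hκ hi]
    unfold FE1 m2
    have e : ∀ τ : ℝ, Real.sinh ((Real.pi - (η1 + η2)) * τ) / Real.sinh ((η1 + η2) * τ)
        * (Real.cosh (2 * η2 * τ) * Kit (2 * τ) (κ * L) - Real.cosh (2 * γ * τ) * Kit 0 (κ * L))
        = Real.sinh ((Real.pi - (η1 + η2)) * τ) / Real.sinh ((η1 + η2) * τ)
          * Real.cosh (2 * η2 * τ) * Kit (2 * τ) (κ * L)
          - Real.sinh ((Real.pi - (η1 + η2)) * τ) / Real.sinh ((η1 + η2) * τ)
            * Real.cosh (2 * γ * τ) * Kit 0 (κ * L) := by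
      intro τ
      ring
    simp only [e]
    rw [integral_sub k.1 (k2.1.mul_const _), integral_mul_const, k.2, k2.2]
    ring
  · intro η1 η2 γ L κ h1 h1' h2 h2' hγ hγ2 hL hκ
    have h0 : 0 < η1 + η2 := by linarith
    have hx : 0 < κ * L := by positivity
    have p1 : |2 * (η1 + η2) - Real.pi + (η1 - η2)| < η1 + η2 := by
      rw [abs_lt]; constructor <;> linarith
    have p2 : |2 * (η1 + η2) - Real.pi - (η1 - η2)| < η1 + η2 := by
      rw [abs_lt]; constructor <;> linarith
    have k := fub_cosh hx h0 p1 p2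
    have k2 := m2_cosh h0 (by linarith) hγ (by linarith)
    simp only [fk2 h0 rfl] at k
    have hi : IntegrableOn (fun v => Real.exp (-(κ * L * Real.cosh v))
        * KKt (Real.pi / (η1 + η2)) η2 v) (Set.Ioi 0) := by
      have i1 := ((fk_int hx h0 p1).add (fk_int hx h0 p2)).const_mul (-(1 / 2))
      refine i1.congr (Eventually.of_forall fun v => ?_)
      simp only [Pi.add_apply]
      have := fk2 (v := v) h0 (rfl : η1 + η2 = η1 + η2)
      have e : KKt (Real.pi / (η1 + η2)) η2 v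
          = -((Fk (η1 + η2) (2 * (η1 + η2) - Real.pi + (η1 - η2)) v
            + Fk (η1 + η2) (2 * (η1 + η2) - Real.pi - (η1 - η2)) v) / 2) := by
        rw [this, neg_neg]
      rw [e]
      ring
    rw [germE_eq hL hκ hi]
    unfold FE2 m1 m2
    rw [integral_add k.1 (k2.1.mul_const _), integral_mul_const, k.2, k2.2]
    have e : ∫ v in Set.Ioi (0 : ℝ), Real.exp (-(κ * L * Real.cosh v))
        * -KKt (Real.pi / (η1 + η2)) η2 v
        = -∫ v in Set.Ioi (0 : ℝ), Real.exp (-(κ * L * Real.cosh v))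
          * KKt (Real.pi / (η1 + η2)) η2 v := by
      rw [← integral_neg]
      refine integral_congr_ae (Eventually.of_forall fun v => ?_)
      simp only
      ring
    rw [e]
    ring

end Pool.Agent.XQ.E
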