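import Pool.Agent.Helper16_XQ.StmtE
import Pool.Agent.Helper12_AEU.Fln

/-! helper16, XQ (MP_5b0138_an), GE: the general flux through the window, two shifts
(after helper12). -/

set_option autoImplicit false

namespace Pool.Agent.XQ.E

open MeasureTheory Filter Topology Real Set Pool.Agent.H60K
open Pool.Agent.AEU.H12


/-- the `τ` integral on the half-line, two shifts -/
noncomputable def JK2 (m1 m2 : ℝ → ℝ) (b1 b2 κ : ℝ) (z x : ℂ) : ℝ :=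
  1 / π ^ 2 * ∫ τ in Ioi (0 : ℝ), Kit τ (κ * ‖z‖) * Kit τ (κ * ‖x‖) *
    (m1 τ * cosh ((b1 + z.arg + x.arg) * τ) + m2 τ * cosh ((b2 + z.arg - x.arg) * τ))

/-- the integral over the line equals the integral over the half-line -/
lemma jk_link2 {m1 m2 : ℝ → ℝ} {C1 C2 g₁ g₂ b1 b2 κ : ℝ} (h1 : Ev m1 C1 g₁) (h2 : Ev m2 C2 g₂)
    (hκ : 0 < κ) {z x : ℂ} (hz : 0 < z.re) (hx : 0 < x.re)
    (hi1 : Integrable fun τ : ℝ => ((AEU.H12.wt m1 b1 τ : ℝ) : ℂ) *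
      (AEU.H12.pw (κ * x.re) (κ * x.im) (-1 * τ) * AEU.H12.pw (κ * z.re) (κ * z.im) (-1 * τ)))
    (hi2 : Integrable fun τ : ℝ => ((AEU.H12.wt m2 b2 τ : ℝ) : ℂ) *
      (AEU.H12.pw (κ * x.re) (κ * x.im) (1 * τ) * AEU.H12.pw (κ * z.re) (κ * z.im) (-1 * τ))) :
    (∫ τ : ℝ, ((AEU.H12.wt m1 b1 τ : ℝ) : ℂ) *
      (AEU.H12.pw (κ * x.re) (κ * x.im) (-1 * τ) * AEU.H12.pw (κ * z.re) (κ * z.im) (-1 * τ))) +
    ∫ τ : ℝ, ((AEU.H12.wt m2 b2 τ : ℝ) : ℂ) *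
      (AEU.H12.pw (κ * x.re) (κ * x.im) (1 * τ) * AEU.H12.pw (κ * z.re) (κ * z.im) (-1 * τ)) =
    ((JK2 m1 m2 b1 b2 κ z x : ℝ) : ℂ) := by
  have h12 : Integrable fun τ : ℝ => ((AEU.H12.wt m1 b1 τ : ℝ) : ℂ) *
      (AEU.H12.pw (κ * x.re) (κ * x.im) (-1 * τ) * AEU.H12.pw (κ * z.re) (κ * z.im) (-1 * τ)) +
      ((AEU.H12.wt m2 b2 τ : ℝ) : ℂ) *
      (AEU.H12.pw (κ * x.re) (κ * x.im) (1 * τ) * AEU.H12.pw (κ * z.re) (κ * z.im) (-1 * τ)) :=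
    hi1.add hi2
  rw [← integral_add hi1 hi2, integral_line_eq h12]
  unfold JK2
  rw [← integral_const_mul, ← integral_complex_ofReal]
  congr 1
  ext τ
  simp only [pw_polar hκ hx, pw_polar hκ hz]
  unfold AEU.H12.wt
  rw [h1.even, h2.even]
  have k1 : AEU.H12.Kit (-1 * τ) (κ * ‖x‖) = AEU.H12.Kit τ (κ * ‖x‖) := by rw [neg_one_mul, Kit_neg']
  have k2 : AEU.H12.Kit (-1 * τ) (κ * ‖z‖) = AEU.H12.Kit τ (κ * ‖z‖) := by rw [neg_one_mul, Kit_neg']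
  have k3 : AEU.H12.Kit (-1 * -τ) (κ * ‖x‖) = AEU.H12.Kit τ (κ * ‖x‖) := by rw [neg_one_mul, neg_neg]
  have k4 : AEU.H12.Kit (-1 * -τ) (κ * ‖z‖) = AEU.H12.Kit τ (κ * ‖z‖) := by rw [neg_one_mul, neg_neg]
  have k5 : AEU.H12.Kit (1 * τ) (κ * ‖x‖) = AEU.H12.Kit τ (κ * ‖x‖) := by rw [one_mul]
  have k6 : AEU.H12.Kit (1 * -τ) (κ * ‖x‖) = AEU.H12.Kit τ (κ * ‖x‖) := by rw [one_mul, Kit_neg']
  rw [k1, k2, k3, k4, k5, k6]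
  simp only [← Complex.ofReal_mul, ← Complex.ofReal_add]
  congr 1
  have c1 : cosh ((b1 + z.arg + x.arg) * τ) = (rexp (b1 * τ) * rexp (-(x.arg * (-1 * τ))) *
      rexp (-(z.arg * (-1 * τ))) + rexp (b1 * -τ) * rexp (-(x.arg * (-1 * -τ))) *
      rexp (-(z.arg * (-1 * -τ)))) / 2 := by
    rw [cosh_eq, ← Real.exp_add, ← Real.exp_add, ← Real.exp_add, ← Real.exp_add]
    congr 3 <;> ring
  have c2 : cosh ((b2 + z.arg - x.arg) * τ) = (rexp (b2 * τ) * rexp (-(x.arg * (1 * τ))) *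
      rexp (-(z.arg * (-1 * τ))) + rexp (b2 * -τ) * rexp (-(x.arg * (1 * -τ))) *
      rexp (-(z.arg * (-1 * -τ)))) / 2 := by
    rw [cosh_eq, ← Real.exp_add, ← Real.exp_add, ← Real.exp_add, ← Real.exp_add]
    congr 3 <;> ring
  rw [c1, c2]
  field_simp
  ring

/-- the main term -/
lemma main_term2 {m1 m2 : ℝ → ℝ} {C1 C2 g₁ g₂ b1 b2 κ d : ℝ} (h1 : Ev m1 C1 g₁)
    (h2 : Ev m2 C2 g₂) (hb : |b1| < g₁) (hb2 : |b2| < g₂) (hκ : 0 < κ) (hd : 0 < d) :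
    ((π : ℝ) : ℂ) * (∫ τ, ((AEU.H12.wt m1 b1 τ : ℝ) : ℂ) * Mn κ d (-1 * τ) (-1 * τ)) +
      ((π : ℝ) : ℂ) * (∫ τ, ((AEU.H12.wt m2 b2 τ : ℝ) : ℂ) * Mn κ d (1 * τ) (-1 * τ)) =
    ((2 / π * ∫ τ in Ioi (0 : ℝ), (m1 τ * cosh (b1 * τ) * AEU.H12.Kit 0 (2 * κ * d) +
      m2 τ * cosh (b2 * τ) * AEU.H12.Kit (2 * τ) (2 * κ * d)) : ℝ) : ℂ) := by
  have i1 := mn_int (κ := κ) (d := d) (s1 := -1) (s2 := -1) (h1.wt hb)
  have i2 := mn_int (κ := κ) (d := d) (s1 := 1) (s2 := -1) (h2.wt hb2)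
  have i12 : Integrable fun τ : ℝ => ((AEU.H12.wt m1 b1 τ : ℝ) : ℂ) * Mn κ d (-1 * τ) (-1 * τ) +
    ((AEU.H12.wt m2 b2 τ : ℝ) : ℂ) * Mn κ d (1 * τ) (-1 * τ) := i1.add i2
  rw [← mul_add, ← integral_add i1 i2, integral_line_eq i12, ← integral_const_mul,
    ← integral_const_mul, ← integral_complex_ofReal]
  congr 1
  ext τ
  simp only [Mn_eq hκ hd]
  have k1 : AEU.H12.Kit (-1 * τ - -1 * τ) (2 * κ * d) = AEU.H12.Kit 0 (2 * κ * d) := by rw [sub_self]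
  have k2 : AEU.H12.Kit (-1 * -τ - -1 * -τ) (2 * κ * d) = AEU.H12.Kit 0 (2 * κ * d) := by rw [sub_self]
  have k3 : AEU.H12.Kit (-1 * τ - 1 * τ) (2 * κ * d) = AEU.H12.Kit (2 * τ) (2 * κ * d) := by
    rw [← Kit_neg']; congr 1; ring
  have k4 : AEU.H12.Kit (-1 * -τ - 1 * -τ) (2 * κ * d) = AEU.H12.Kit (2 * τ) (2 * κ * d) := by
    congr 1; ring
  rw [k1, k2, k3, k4]
  simp only [← Complex.ofReal_mul, ← Complex.ofReal_add]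
  congr 1
  unfold AEU.H12.wt
  rw [h1.even, h2.even, cosh_eq, cosh_eq]
  have e1 : b1 * -τ = -(b1 * τ) := by ring
  have e2 : b2 * -τ = -(b2 * τ) := by ring
  rw [e1, e2]
  have := pi_ne_zero
  field_simp
  ring

/-- the value at a point -/
lemma f_eq2 {m1 m2 : ℝ → ℝ} {C1 C2 g₁ g₂ b1 b2 κ d a X0 Δ : ℝ} (h1 : Ev m1 C1 g₁)
    (h2 : Ev m2 C2 g₂) (hb : |b1| < g₁) (hb2 : |b2| < g₂) (hκ : 0 < κ) (ha : 0 < a) (hX : Δ < X0)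
    (hX2 : X0 + Δ < 2 * d) {q : ℝ × ℝ} (hq : q ∈ Iq X0 Δ) (r : ℝ × ℝ) :
    ((H62T.G a ((q.1 + r.1 * Complex.I : ℂ) - (q.2 + r.2 * Complex.I)) *
      (ch X0 (q.2 + r.2 * Complex.I) - ch X0 (q.1 + r.1 * Complex.I)) *
      JK2 m1 m2 b1 b2 κ (2 * d - (starRingEnd ℂ) (q.2 + r.2 * Complex.I))
        (q.1 + r.1 * Complex.I) : ℝ) : ℂ)
    = (∫ τ, ((AEU.H12.wt m1 b1 τ : ℝ) : ℂ) * KF κ d a X0 (-1 * τ) (-1 * τ) q r) +
      ∫ τ, ((AEU.H12.wt m2 b2 τ : ℝ) : ℂ) * KF κ d a X0 (1 * τ) (-1 * τ) q r := by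
  have hq11 := hq.1.1
  have hq22 := hq.2.2
  have xre : (q.1 + r.1 * Complex.I : ℂ).re = q.1 := by simp
  have xim : (q.1 + r.1 * Complex.I : ℂ).im = r.1 := by simp
  have yre : (q.2 + r.2 * Complex.I : ℂ).re = q.2 := by simp
  have zre : (2 * d - (starRingEnd ℂ) (q.2 + r.2 * Complex.I) : ℂ).re = 2 * d - q.2 := by simp
  have zim : (2 * d - (starRingEnd ℂ) (q.2 + r.2 * Complex.I) : ℂ).im = r.2 := by simp
  have hx : 0 < (q.1 + r.1 * Complex.I : ℂ).re := by rw [xre]; linarith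
  have hz : 0 < (2 * d - (starRingEnd ℂ) (q.2 + r.2 * Complex.I) : ℂ).re := by rw [zre]; linarith
  have j1 := AEU.H12.pp_int (s1 := -1) (s2 := -1) (h1.wt hb) (by norm_num) (by norm_num) hκ hz hx
  have j2 := AEU.H12.pp_int (s1 := 1) (s2 := -1) (h2.wt hb2) (by norm_num)
    (by norm_num) hκ hz hx
  have hl := jk_link2 h1 h2 hκ hz hx j1 j2
  rw [Complex.ofReal_mul, ← hl, G_eq a ha]
  have c1 : ch X0 (q.1 + r.1 * Complex.I) = chi X0 q.1 := by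
    unfold ch chi
    rw [xre]
  have c2 : ch X0 (q.2 + r.2 * Complex.I) = chi X0 q.2 := by
    unfold ch chi
    rw [yre]
  rw [c1, c2, mul_add, ← integral_const_mul, ← integral_const_mul, xre, xim, zre, zim]
  congr 1
  · congr 1
    ext τ
    unfold KF
    push_cast
    ring
  · congr 1
    ext τ
    unfold KF
    push_cast
    ring

/-- decomposition of the integral over the window -/
lemma win_split2 {m1 m2 : ℝ → ℝ} {C1 C2 g₁ g₂ b1 b2 κ d a X0 Δ θ0 ζ1 ζ2 : ℝ} (h1 : Ev m1 C1 g₁)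
    (h2 : Ev m2 C2 g₂) (hb : |b1| < g₁) (hb2 : |b2| < g₂) (hκ : 0 < κ) (ha : 0 < a) (hX : Δ < X0)
    (hX2 : X0 + Δ < 2 * d) (h0 : 0 < θ0) (h0' : θ0 < π / 2)
    (hθ1 : 2 * θ0 < g₁ - b1) (hθ2 : 2 * θ0 < g₁ + b1) (hθ3 : 2 * θ0 < g₂ - b2)
    (hθ4 : 2 * θ0 < g₂ + b2)
    (hA : 1 ≤ κ * (X0 - Δ) * cos θ0 ∧ 1 ≤ κ * (2 * d - X0 - Δ) * cos θ0) :
    ((∫ x in Rw X0 Δ ζ1 ζ2, ∫ y in Rw X0 Δ ζ1 ζ2,
      H62T.G a (x - y) * (ch X0 y - ch X0 x) *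
        JK2 m1 m2 b1 b2 κ (2 * d - (starRingEnd ℂ) y) x : ℝ) : ℂ)
    = (∫ q in Iq X0 Δ, ∫ r in Jw ζ1 ζ2,
        ∫ τ, ((AEU.H12.wt m1 b1 τ : ℝ) : ℂ) * KF κ d a X0 (-1 * τ) (-1 * τ) q r) +
      ∫ q in Iq X0 Δ, ∫ r in Jw ζ1 ζ2,
        ∫ τ, ((AEU.H12.wt m2 b2 τ : ℝ) : ℂ) * KF κ d a X0 (1 * τ) (-1 * τ) q r := by
  have hw1 := h1.wt hb
  have hw2 := h2.wt hb2
  have i1 := t_int (ζ1 := ζ1) (ζ2 := ζ2) (s1 := -1) (s2 := -1) hw1 (by norm_num) (by norm_num)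
    hκ ha hX hX2 h0 h0' hθ1 hθ2 hA
  have i2 := t_int (ζ1 := ζ1) (ζ2 := ζ2) (s1 := 1) (s2 := -1) hw2 (by norm_num) (by norm_num)
    hκ ha hX hX2 h0 h0' hθ3 hθ4 hA
  have hmem : ∀ᵐ z : (ℝ × ℝ) × (ℝ × ℝ) ∂((volume.restrict (Iq X0 Δ)).prod
      (volume.restrict (Jw ζ1 ζ2))), z.1 ∈ Iq X0 Δ := by
    have hA : ∀ᵐ q ∂(volume.restrict (Iq X0 Δ)), q ∈ Iq X0 Δ := ae_restrict_mem (Iq_meas X0 Δ)
    exact Measure.quasiMeasurePreserving_fst.ae hA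
  set F : ℂ → ℂ → ℂ := fun x y => ((H62T.G a (x - y) * (ch X0 y - ch X0 x) *
    JK2 m1 m2 b1 b2 κ (2 * d - (starRingEnd ℂ) y) x : ℝ) : ℂ) with hF
  have hFe : (fun z : (ℝ × ℝ) × (ℝ × ℝ) =>
      F (z.1.1 + z.2.1 * Complex.I) (z.1.2 + z.2.2 * Complex.I)) =ᵐ[(volume.restrict (Iq X0 Δ)).prod
      (volume.restrict (Jw ζ1 ζ2))] fun z => (∫ τ, ((AEU.H12.wt m1 b1 τ : ℝ) : ℂ) *
        KF κ d a X0 (-1 * τ) (-1 * τ) z.1 z.2) +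
      ∫ τ, ((AEU.H12.wt m2 b2 τ : ℝ) : ℂ) * KF κ d a X0 (1 * τ) (-1 * τ) z.1 z.2 := by
    filter_upwards [hmem] with z hz
    exact f_eq2 h1 h2 hb hb2 hκ ha hX hX2 hz z.2
  have hFi : Integrable (fun z : (ℝ × ℝ) × (ℝ × ℝ) =>
      F (z.1.1 + z.2.1 * Complex.I) (z.1.2 + z.2.2 * Complex.I))
      ((volume.restrict (Iq X0 Δ)).prod (volume.restrict (Ioo (-ζ2) ζ1 ×ˢ Ioo (-ζ2) ζ1))) :=
    (integrable_congr hFe).mpr (i1.add i2)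
  have e0 : ((∫ x in Rw X0 Δ ζ1 ζ2, ∫ y in Rw X0 Δ ζ1 ζ2,
      H62T.G a (x - y) * (ch X0 y - ch X0 x) *
        JK2 m1 m2 b1 b2 κ (2 * d - (starRingEnd ℂ) y) x : ℝ) : ℂ)
      = ∫ x in Rw X0 Δ ζ1 ζ2, ∫ y in Rw X0 Δ ζ1 ζ2, F x y := by
    rw [← integral_complex_ofReal]
    congr 1
    ext x
    rw [← integral_complex_ofReal]
  rw [e0, window_integral hFi]
  change ∫ q in Iq X0 Δ, ∫ r in Jw ζ1 ζ2, F (q.1 + r.1 * Complex.I) (q.2 + r.2 * Complex.I) = _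
  have e1 := integral_prod _ hFi
  have e2 := integral_prod _ i1
  have e3 := integral_prod _ i2
  have e4 := integral_congr_ae hFe
  rw [integral_add i1 i2, e2, e3] at e4
  rw [← e4]
  exact e1.symm

/-- the general flux -/
theorem gen2 {m1 m2 : ℝ → ℝ} {C1 C2 g₁ g₂ b1 b2 d δ X0 M μ ζ1 ζ2 θ : ℝ} (h1 : Ev m1 C1 g₁)
    (h2 : Ev m2 C2 g₂) (hb : |b1| < g₁) (hb2 : |b2| < g₂) (hd : 0 < d) (hδ : 0 < δ)
    (hX : δ < X0) (hX2 : X0 + δ < 2 * d)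
    (hM : 0 < M) (hμ : 0 < μ) (hζ1 : μ ≤ ζ1) (hζ2 : μ ≤ ζ2) (t1 : 0 < θ) (t1' : θ < π / 2)
    (r1 : 2 * θ < g₁ - b1) (r4 : 2 * θ < g₁ + b1)
    (x1 : M ≤ AEU.H12.Ex d δ μ θ ζ1) (x2 : M ≤ AEU.H12.Ex d δ μ θ ζ2) :
    ∃ c0, 0 < c0 ∧ ∀ c, 0 < c → c < c0 → ∃ C κ0 : ℝ, 0 < κ0 ∧ ∀ κ, κ0 ≤ κ →
      |κ / c * rexp (-(κ * c)) * (∫ x in Rw X0 δ ζ1 ζ2, ∫ y in Rw X0 δ ζ1 ζ2,
          H62T.G (c / κ) (x - y) * (ch X0 y - ch X0 x) *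
            JK2 m1 m2 b1 b2 κ (2 * d - (starRingEnd ℂ) y) x) -
        2 / π * ∫ τ in Ioi (0 : ℝ), (m1 τ * cosh (b1 * τ) * AEU.H12.Kit 0 (2 * κ * d) +
          m2 τ * cosh (b2 * τ) * AEU.H12.Kit (2 * τ) (2 * κ * d))| ≤ C * rexp (-(κ * M)) := by
  have hb' := abs_lt.mp hb
  have hb2' := abs_lt.mp hb2
  have hw1 := h1.wt hb
  have hw2 := h2.wt hb2
  obtain ⟨c1, hc1, H1⟩ := weight_flux kitShift (s1 := -1) (s2 := -1) hd hδ hM hX hX2 hμ hζ1 hζ2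
    (by norm_num) (by norm_num) hw1 t1 t1' t1 t1' t1 t1' t1 t1' (by linarith) (by linarith)
    (by linarith) (by linarith) x1 x2 x1 x2
  obtain ⟨c2, hc2, H2⟩ := weight_flux kitShift (s1 := 1) (s2 := -1) hd hδ hM hX hX2 hμ hζ1 hζ2
    (by norm_num) (by norm_num) hw2 t1 t1' t1 t1' t1 t1' t1 t1' (by linarith) (by linarith)
    (by linarith) (by linarith) x1 x2 x1 x2
  refine ⟨min c1 c2, lt_min hc1 hc2, fun c hc hcc => ?_⟩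
  obtain ⟨D1, k1, hk1, K1⟩ := H1 c hc (hcc.trans_le (min_le_left _ _))
  obtain ⟨D2, k2, hk2, K2⟩ := H2 c hc (hcc.trans_le (min_le_right _ _))
  set g := min (min (g₁ - b1) (g₁ + b1)) (min (min (g₂ - b2) (g₂ + b2)) 1) with hg
  have hgp : 0 < g := lt_min (lt_min (by linarith) (by linarith))
    (lt_min (lt_min (by linarith) (by linarith)) one_pos)
  set θ0 := g / 4 with hθ0
  have q1 : g ≤ g₁ - b1 := (min_le_left _ _).trans (min_le_left _ _)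
  have q2 : g ≤ g₁ + b1 := (min_le_left _ _).trans (min_le_right _ _)
  have q3 : g ≤ g₂ - b2 := (min_le_right _ _).trans ((min_le_left _ _).trans (min_le_left _ _))
  have q3' : g ≤ g₂ + b2 := (min_le_right _ _).trans ((min_le_left _ _).trans (min_le_right _ _))
  have q4 : g ≤ 1 := (min_le_right _ _).trans (min_le_right _ _)
  have h0 : 0 < θ0 := by positivity
  have h0' : θ0 < π / 2 := by have := pi_gt_three; linarith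
  have hcos : 0 < cos θ0 := cos_pos_of_mem_Ioo ⟨by linarith [pi_pos], h0'⟩
  set l := min (X0 - δ) (2 * d - X0 - δ) with hl
  have hl0 : 0 < l := lt_min (by linarith) (by linarith)
  have hl1 : l ≤ X0 - δ := min_le_left _ _
  have hl2 : l ≤ 2 * d - X0 - δ := min_le_right _ _
  refine ⟨D1 + D2, max (max k1 k2) (1 / (l * cos θ0)),
    lt_max_of_lt_left (lt_max_of_lt_left hk1), fun κ hκ => ?_⟩
  have m1' : k1 ≤ κ := ((le_max_left _ _).trans (le_max_left _ _)).trans hκ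
  have m2' : k2 ≤ κ := ((le_max_right _ _).trans (le_max_left _ _)).trans hκ
  have m3' : 1 / (l * cos θ0) ≤ κ := (le_max_right _ _).trans hκ
  have hκp : 0 < κ := hk1.trans_le m1'
  have hA : 1 ≤ κ * (X0 - δ) * cos θ0 ∧ 1 ≤ κ * (2 * d - X0 - δ) * cos θ0 := by
    rw [div_le_iff₀ (by positivity)] at m3'
    constructor
    · calc 1 ≤ κ * (l * cos θ0) := m3'
        _ = κ * l * cos θ0 := by ring
        _ ≤ _ := by gcongr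
    · calc 1 ≤ κ * (l * cos θ0) := m3'
        _ = κ * l * cos θ0 := by ring
        _ ≤ _ := by gcongr
  have S := win_split2 (ζ1 := ζ1) (ζ2 := ζ2) (a := c / κ) h1 h2 hb hb2 hκp (by positivity) hX hX2
    h0 h0' (by linarith) (by linarith) (by linarith) (by linarith) hA
  have T := main_term2 h1 h2 hb hb2 hκp hd
  have L1 := K1 κ m1'
  have L2 := K2 κ m2'
  rw [← Real.norm_eq_abs, ← Complex.norm_real, Complex.ofReal_sub, Complex.ofReal_mul, S, ← T]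
  calc _ = ‖(((κ / c * rexp (-(κ * c)) : ℝ) : ℂ) * (∫ q in Iq X0 δ, ∫ r in Jw ζ1 ζ2,
        ∫ τ, ((AEU.H12.wt m1 b1 τ : ℝ) : ℂ) * KF κ d (c / κ) X0 (-1 * τ) (-1 * τ) q r) -
        ((π : ℝ) : ℂ) * ∫ τ, ((AEU.H12.wt m1 b1 τ : ℝ) : ℂ) * Mn κ d (-1 * τ) (-1 * τ)) +
        (((κ / c * rexp (-(κ * c)) : ℝ) : ℂ) * (∫ q in Iq X0 δ, ∫ r in Jw ζ1 ζ2,
        ∫ τ, ((AEU.H12.wt m2 b2 τ : ℝ) : ℂ) * KF κ d (c / κ) X0 (1 * τ) (-1 * τ) q r) -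
        ((π : ℝ) : ℂ) * ∫ τ, ((AEU.H12.wt m2 b2 τ : ℝ) : ℂ) * Mn κ d (1 * τ) (-1 * τ))‖ := by
        congr 1
        ring
    _ ≤ D1 * rexp (-(κ * M)) + D2 * rexp (-(κ * M)) := (norm_add_le _ _).trans (add_le_add L1 L2)
    _ = _ := by ring

end Pool.Agent.XQ.E
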