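import Pool.Agent.Helper16_XQ.CvtE
import Pool.Agent.Helper16_XQ.GenE
import Pool.Agent.Helper15_AEU3.Kes
import Pool.Agent.Helper51_KT.Ktb
import Pool.Agent.Helper38_AEU3.Ktp
import Pool.Agent.Helper7_AEU.Ktl
import Pool.Agent.Helper44_BLK.Small
import Pool.Agent.Helper38_AEU3.KerAll

/-! helper16, XQ (MP_5b0138_an), GE: the fluxes. -/

set_option autoImplicit false

namespace Pool.Agent.XQ.E

open MeasureTheory Filter Topology Real Set Pool.Agent.H60K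
open Pool.Agent.AEU.H12

/-- angle of a point near the positive real axis -/
lemma arg_small {w : ℂ} {m ζ : ℝ} (hm : 0 < m) (hre : m ≤ w.re) (him : |w.im| ≤ ζ) :
    |w.arg| ≤ 2 * ζ / m := by
  have hpi := pi_pos
  have hw : 0 < w.re := hm.trans_le hre
  have hw0 : w ≠ 0 := by
    intro h
    rw [h, Complex.zero_re] at hw
    exact lt_irrefl _ hw
  have h1 : |w.arg| ≤ π / 2 := Complex.abs_arg_le_pi_div_two_iff.mpr hw.le
  have h2 := mul_abs_le_abs_sin h1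
  have h3 : |sin w.arg| ≤ ζ / m := by
    rw [Complex.sin_arg, abs_div, abs_norm]
    have h4 : m ≤ ‖w‖ := hre.trans (Complex.re_le_norm w)
    exact div_le_div₀ ((abs_nonneg _).trans him) him hm h4
  have h5 : |w.arg| ≤ π / 2 * (ζ / m) := by
    have h6 : 2 / π * |w.arg| ≤ ζ / m := h2.trans h3
    calc |w.arg| = π / 2 * (2 / π * |w.arg|) := by field_simp
      _ ≤ _ := by gcongr
  refine h5.trans ?_
  have h7 : 0 ≤ ζ / m := (abs_nonneg _).trans h3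
  calc π / 2 * (ζ / m) ≤ 2 * (ζ / m) :=
        mul_le_mul_of_nonneg_right (by linarith only [pi_le_four]) h7
    _ = _ := by ring

lemma pt_x (γ : ℝ) (x : ℂ) : Complex.exp (-(γ * Complex.I)) * x
    = (‖x‖ : ℂ) * Complex.exp (((x.arg - γ : ℝ) : ℂ) * Complex.I) := by
  conv_lhs => rw [← Complex.norm_mul_exp_arg_mul_I x]
  rw [mul_left_comm, ← Complex.exp_add]
  congr 2
  push_cast
  ring

lemma pt_y (γ L : ℝ) (y : ℂ) : Complex.exp (γ * Complex.I) * (L - y)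
    = (‖(L : ℂ) - (starRingEnd ℂ) y‖ : ℂ) *
      Complex.exp (((γ - ((L : ℂ) - (starRingEnd ℂ) y).arg : ℝ) : ℂ) * Complex.I) := by
  set z := (L : ℂ) - (starRingEnd ℂ) y with hz
  have e1 : (L : ℂ) - y = (starRingEnd ℂ) z := by
    rw [hz, map_sub, Complex.conj_ofReal, Complex.conj_conj]
  have e2 : (starRingEnd ℂ) z = (‖z‖ : ℂ) * Complex.exp (-(z.arg * Complex.I)) := by
    conv_lhs => rw [← Complex.norm_mul_exp_arg_mul_I z]
    rw [map_mul, Complex.conj_ofReal, ← Complex.exp_conj, map_mul, Complex.conj_ofReal,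
      Complex.conj_I, mul_neg]
  rw [e1, e2, mul_left_comm, ← Complex.exp_add]
  congr 2
  push_cast
  ring

lemma ker_jk2 (hKER : KerStatement) {η1 η2 γ κ : ℝ} (h1 : 0 < η1) (h2 : 0 < η2)
    (h12 : η1 + η2 < π) (hκ : 0 < κ) {z x z1 x1 : ℂ} (hz : z ≠ 0) (hx : x ≠ 0)
    (ez : z1 = (‖z‖ : ℂ) * Complex.exp (((γ - z.arg : ℝ) : ℂ) * Complex.I))
    (ex : x1 = (‖x‖ : ℂ) * Complex.exp (((x.arg - γ : ℝ) : ℂ) * Complex.I))
    (hz1 : -η2 < γ - z.arg) (hz2 : γ - z.arg < η1) (hx1 : -η2 < x.arg - γ)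
    (hx2 : x.arg - γ < η1) :
    ∫ t in Ioi (0 : ℝ), rexp (-(κ ^ 2 * t)) * kME (us η1 η2) (hh 1) {1} {2} t z1 x1 =
      JK2 (fun τ => -(sinh ((π - (η1 + η2)) * τ) / sinh ((η1 + η2) * τ)))
        (fun τ => sinh ((π - (η1 + η2)) * τ) / sinh ((η1 + η2) * τ)) (-(2 * γ)) (-(2 * η2)) κ z x := by
  obtain ⟨_, _, h⟩ := hKER η1 η2 1 κ ‖z‖ ‖x‖ (γ - z.arg) (x.arg - γ) h1 h2 h12 hκ
    (norm_pos_iff.mpr hz) (norm_pos_iff.mpr hx) hz1 hz2 hx1 hx2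
  rw [← ez, ← ex] at h
  rw [h]
  unfold JK2
  rw [show (2 : ℝ) / π ^ 2 = 1 / π ^ 2 * 2 by ring, mul_assoc, ← integral_const_mul]
  congr 1
  congr 1
  ext τ
  have e1 : cosh ((-(2 * η2) + z.arg - x.arg) * τ)
      = cosh (τ * (γ - z.arg + η2)) * cosh (τ * (x.arg - γ + η2)) +
      sinh (τ * (γ - z.arg + η2)) * sinh (τ * (x.arg - γ + η2)) := by
    rw [← cosh_add, ← cosh_neg]
    congr 1
    ring
  have e2 : cosh ((-(2 * γ) + z.arg + x.arg) * τ)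
      = cosh (τ * (γ - z.arg + η2)) * cosh (τ * (x.arg - γ + η2)) -
      sinh (τ * (γ - z.arg + η2)) * sinh (τ * (x.arg - γ + η2)) := by
    rw [← cosh_sub, ← cosh_neg]
    congr 1
    ring
  rw [e1, e2]
  have e3 : H38KL.Kit τ (κ * ‖z‖) = AEU.H12.Kit τ (κ * ‖z‖) := rfl
  have e4 : H38KL.Kit τ (κ * ‖x‖) = AEU.H12.Kit τ (κ * ‖x‖) := rfl
  rw [e3, e4]
  ring

lemma kes_jk2 (hKES : KesStatement) {η1 η2 γ κ : ℝ} (h1 : 0 < η1) (h2 : 0 < η2)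
    (h12 : η1 + η2 < π) (hκ : 0 < κ) {z x z1 x1 : ℂ} (hz : z ≠ 0) (hx : x ≠ 0)
    (ez : z1 = (‖z‖ : ℂ) * Complex.exp (((γ - z.arg : ℝ) : ℂ) * Complex.I))
    (ex : x1 = (‖x‖ : ℂ) * Complex.exp (((x.arg - γ : ℝ) : ℂ) * Complex.I))
    (hz1 : -η2 < γ - z.arg) (hz2 : γ - z.arg < η1) (hx1 : -η2 < x.arg - γ)
    (hx2 : x.arg - γ < η1) :
    ∫ t in Ioi (0 : ℝ), rexp (-(κ ^ 2 * t)) * kME (us η1 η2) (hh 1) {1, 2} ∅ t z1 x1 =
      JK2 (fun τ => sinh ((π - (η1 + η2)) * τ) / sinh ((η1 + η2) * τ))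
        (fun τ => sinh ((2 * (η1 + η2) - π) * τ) / sinh ((η1 + η2) * τ))
        (-(2 * γ)) (η1 - η2) κ z x := by
  obtain ⟨_, _, h⟩ := hKES η1 η2 1 κ ‖z‖ ‖x‖ (γ - z.arg) (x.arg - γ) h1 h2 h12 hκ
    (norm_pos_iff.mpr hz) (norm_pos_iff.mpr hx) hz1 hz2 hx1 hx2
  rw [← ez, ← ex] at h
  rw [h]
  unfold JK2
  congr 1
  congr 1
  ext τ
  have e1 : cosh ((η1 - η2 - (γ - z.arg) - (x.arg - γ)) * τ)
      = cosh ((η1 - η2 + z.arg - x.arg) * τ) := by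
    congr 1
    ring
  have e2 : cosh ((γ - z.arg - (x.arg - γ)) * τ) = cosh ((-(2 * γ) + z.arg + x.arg) * τ) := by
    rw [← cosh_neg]
    congr 1
    ring
  rw [e1, e2]
  have e3 : H38KL.Kit τ (κ * ‖z‖) = AEU.H12.Kit τ (κ * ‖z‖) := rfl
  have e4 : H38KL.Kit τ (κ * ‖x‖) = AEU.H12.Kit τ (κ * ‖x‖) := rfl
  rw [e3, e4]
  ring

/-- the parameters -/
lemma params {η1 η2 γ L ξ0 θm : ℝ} (hγ : 0 < γ) (hγ' : γ < π / 2) (h1 : γ < η1) (h2 : γ < η2)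
    (hξ0 : 0 < ξ0) (hξL : ξ0 < L) (hθm : 0 < θm) :
    ∃ ζ0 : ℝ, 0 < ζ0 ∧ ∀ ζ : ℝ, 0 < ζ → ζ < ζ0 → ∃ e δ0 θ : ℝ, 0 < e ∧ 0 < δ0 ∧ 0 < θ ∧
      θ < π / 2 ∧ θ < θm ∧
      ∀ δ : ℝ, 0 < δ → δ < δ0 → ∀ ξ1 : ℝ, |ξ1 - ξ0| ≤ 2 * δ →
      δ < ξ1 ∧ ξ1 + δ < 2 * (L / 2) ∧ L + e ≤ AEU.H12.Ex (L / 2) δ (ζ / 2) θ ζ ∧
      (∀ x ∈ Rw ξ1 δ ζ ζ, x ≠ 0 ∧ -η2 < x.arg - γ ∧ x.arg - γ < η1 ∧
        (L : ℂ) - (starRingEnd ℂ) x ≠ 0 ∧ -η2 < γ - ((L : ℂ) - (starRingEnd ℂ) x).arg ∧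
        γ - ((L : ℂ) - (starRingEnd ℂ) x).arg < η1) ∧
      ∀ x ∈ Rw ξ1 δ ζ ζ, ∀ y ∈ Rw ξ1 δ ζ ζ, sin γ * L / 4
        ≤ ‖Complex.exp (γ * Complex.I) * (L - y) - Complex.exp (-(γ * Complex.I)) * x‖ := by
  have hs : 0 < sin γ := sin_pos_of_pos_of_lt_pi hγ (by linarith [pi_pos])
  have hL : 0 < L := hξ0.trans hξL
  set m := min ξ0 (L - ξ0) / 2 with hm
  have hm0 : 0 < m := by
    have : 0 < min ξ0 (L - ξ0) := lt_min hξ0 (by linarith)
    positivity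
  have hm1 : 2 * m ≤ ξ0 := by
    have : min ξ0 (L - ξ0) ≤ ξ0 := min_le_left _ _
    linarith
  have hm2 : 2 * m ≤ L - ξ0 := by
    have : min ξ0 (L - ξ0) ≤ L - ξ0 := min_le_right _ _
    linarith
  set ε := min γ (min (η1 - γ) (η2 - γ)) with hε
  have hε0 : 0 < ε := lt_min hγ (lt_min (by linarith) (by linarith))
  have hε1 : ε ≤ γ := min_le_left _ _
  have hε2 : ε ≤ η1 - γ := (min_le_right _ _).trans (min_le_left _ _)
  have hε3 : ε ≤ η2 - γ := (min_le_right _ _).trans (min_le_right _ _)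
  refine ⟨min (ε * m / 2) (sin γ * L / 8), lt_min (by positivity) (by positivity),
    fun ζ hζ hζ0 => ?_⟩
  have hz1 : ζ < ε * m / 2 := hζ0.trans_le (min_le_left _ _)
  have hz2 : ζ < sin γ * L / 8 := hζ0.trans_le (min_le_right _ _)
  have hang : 2 * ζ / m < ε := by
    rw [div_lt_iff₀ hm0]
    linarith only [hz1]
  set θ := min (min θm 1) (ζ / L) / 2 with hθ
  have hθ0 : 0 < θ := by
    have : 0 < min (min θm 1) (ζ / L) := lt_min (lt_min hθm one_pos) (by positivity)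
    positivity
  have hθ1 : 2 * θ ≤ θm := by
    have : min (min θm 1) (ζ / L) ≤ θm := (min_le_left _ _).trans (min_le_left _ _)
    linarith only [hθ, this]
  have hθ2 : 2 * θ ≤ 1 := by
    have : min (min θm 1) (ζ / L) ≤ 1 := (min_le_left _ _).trans (min_le_right _ _)
    linarith only [hθ, this]
  have hθ3 : 2 * θ ≤ ζ / L := by
    have : min (min θm 1) (ζ / L) ≤ ζ / L := min_le_right _ _
    linarith
  have hθ4 : 2 * (θ * L) ≤ ζ := by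
    rw [le_div_iff₀ hL] at hθ3
    linarith
  refine ⟨ζ * θ / 8, min (min (m / 3) (L / 4)) (ζ * θ / 16), θ, by positivity,
    lt_min (lt_min (by positivity) (by positivity)) (by positivity), hθ0,
    by linarith [pi_gt_three], by linarith, fun δ hδ hδ0 ξ1 hξ => ?_⟩
  have d1 : δ < m / 3 := hδ0.trans_le ((min_le_left _ _).trans (min_le_left _ _))
  have d2 : δ < L / 4 := hδ0.trans_le ((min_le_left _ _).trans (min_le_right _ _))
  have d3 : δ < ζ * θ / 16 := hδ0.trans_le (min_le_right _ _)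
  rw [abs_le] at hξ
  refine ⟨by linarith only [hm1, hξ, d1], by linarith only [hm2, hξ, d1], ?_, ?_, ?_⟩
  · unfold AEU.H12.Ex
    have c1 : 1 - θ ^ 2 / 2 ≤ cos θ := one_sub_sq_div_two_le_cos
    have s1 : θ / 2 ≤ sin θ := by
      have h := mul_le_sin hθ0.le (by linarith only [hθ2, pi_gt_three] : θ ≤ π / 2)
      refine le_trans ?_ h
      have : 1 / 2 ≤ 2 / π := by
        rw [div_le_div_iff₀ two_pos pi_pos]
        linarith only [pi_le_four]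
      calc θ / 2 = 1 / 2 * θ := by ring
        _ ≤ _ := mul_le_mul_of_nonneg_right this hθ0.le
    have hLd : 0 < 2 * (L / 2) - 2 * δ := by linarith only [hm1, hm2, hδ, d1]
    have e1 : (2 * (L / 2) - 2 * δ) * (1 - θ ^ 2 / 2) ≤ (2 * (L / 2) - 2 * δ) * cos θ :=
      mul_le_mul_of_nonneg_left c1 hLd.le
    have e2 : 2 * (ζ - ζ / 2) * (θ / 2) ≤ 2 * (ζ - ζ / 2) * sin θ :=
      mul_le_mul_of_nonneg_left s1 (by linarith only [hζ])
    have e3 : θ * (θ * L) ≤ θ * (ζ / 2) := mul_le_mul_of_nonneg_left (by linarith only [hθ4]) hθ0.le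
    have e4 : 0 ≤ δ * θ ^ 2 := by positivity
    linarith only [d3, e1, e2, e3, e4]
  · rintro x ⟨hx1, hx2, hx3⟩
    rw [abs_lt] at hx1
    have him : |x.im| ≤ ζ := abs_le.mpr ⟨hx2.le, hx3.le⟩
    have hre : m ≤ x.re := by linarith
    have zre : ((L : ℂ) - (starRingEnd ℂ) x).re = L - x.re := by simp
    have zim : ((L : ℂ) - (starRingEnd ℂ) x).im = x.im := by simp
    have hre' : m ≤ ((L : ℂ) - (starRingEnd ℂ) x).re := by rw [zre]; linarith only [hm2, hξ, d1, hx1]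
    have him' : |((L : ℂ) - (starRingEnd ℂ) x).im| ≤ ζ := by rw [zim]; exact him
    have a1 := (arg_small hm0 hre him).trans_lt hang
    have a2 := (arg_small hm0 hre' him').trans_lt hang
    rw [abs_lt] at a1 a2
    refine ⟨?_, by linarith, by linarith, ?_, by linarith, by linarith⟩
    · intro h
      rw [h, Complex.zero_re] at hre
      linarith
    · intro h
      rw [h, Complex.zero_re] at hre'
      linarith
  · refine far hγ hγ' ?_ hζ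
    have : sin γ * (L / 2) ≤ sin γ * (L - 2 * δ) := mul_le_mul_of_nonneg_left (by linarith) hs.le
    linarith only [hz2, this]

/-- FLE1 -/
theorem fluxE1_of (hKER : KerStatement) : FluxE1Stmt := by
  intro η1 η2 γ L ξ0 h1 h2 h12 hγ hγ2 hξ0 hξL
  have hpi := pi_pos
  have hL : 0 < L := hξ0.trans hξL
  obtain ⟨ζ0, hζ0, H⟩ := params (η1 := η1) (η2 := η2) (θm := (2 * (η1 + η2) - π - 2 * γ) / 2)
    hγ (by linarith) (by linarith) hγ2 hξ0 hξL (by linarith)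
  refine ⟨ζ0, hζ0, fun ζ hζ hζζ => ?_⟩
  obtain ⟨e, δ0, θ, he, hδ0, t0, t1, t2, H⟩ := H ζ hζ hζζ
  refine ⟨e, δ0, he, hδ0, fun δ hδ hδδ ξ1 hξ => ?_⟩
  obtain ⟨q1, q2, q3, q4, q5⟩ := H δ hδ hδδ ξ1 hξ
  have hp : |π - (η1 + η2)| < η1 + η2 := by
    rw [abs_of_pos (by linarith)]; linarith only [h1, hγ, hγ2]
  have hp' : η1 + η2 - |π - (η1 + η2)| = 2 * (η1 + η2) - π := by
    rw [abs_of_pos (by linarith)]; ring
  obtain ⟨C1, hev⟩ := ev_shb hp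
  rw [hp'] at hev
  have hb1 : |-(2 * γ)| < 2 * (η1 + η2) - π := by
    rw [abs_neg, abs_of_pos (by linarith only [hγ])]; linarith only [h1, hγ2]
  have hb2 : |-(2 * η2)| < 2 * (η1 + η2) - π := by
    rw [abs_neg, abs_of_pos (by linarith only [hγ, hγ2])]; linarith
  obtain ⟨c0, hc0, hg⟩ := gen2 (X0 := ξ1) (μ := ζ / 2) (ζ1 := ζ) (ζ2 := ζ) (θ := θ) hev.neg hev
    hb1 hb2 (by positivity : 0 < L / 2) hδ q1 q2 (by linarith : 0 < L + e) (by positivity)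
    (by linarith) (by linarith) t0 t1 (by linarith) (by linarith only [t2]) q3 q3
  refine ⟨c0, hc0, fun c hc hcc => ?_⟩
  obtain ⟨C, κ0, hκ0, hg⟩ := hg c hc hcc
  refine ⟨C, κ0, hκ0, fun κ hκ => ?_⟩
  have hκp : 0 < κ := hκ0.trans_le hκ
  have hg := hg κ hκ
  have hs : 0 < sin γ := sin_pos_of_pos_of_lt_pi hγ (by linarith only [h1, h12, hγ, hγ2])
  rw [cvtE {1} {2} hc hκp (by positivity : 0 < sin γ * L / 4) q5]
  have e1 : FE1 η1 η2 γ L κ = 2 / π * ∫ τ in Ioi (0 : ℝ),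
      (-(sinh ((π - (η1 + η2)) * τ) / sinh ((η1 + η2) * τ)) * cosh (-(2 * γ) * τ) *
        AEU.H12.Kit 0 (2 * κ * (L / 2)) + sinh ((π - (η1 + η2)) * τ) / sinh ((η1 + η2) * τ) *
        cosh (-(2 * η2) * τ) * AEU.H12.Kit (2 * τ) (2 * κ * (L / 2))) := by
    unfold FE1 m2
    congr 1
    congr 1
    ext τ
    have e3 : H38KL.Kit 0 (κ * L) = AEU.H12.Kit 0 (2 * κ * (L / 2)) := by
      rw [show 2 * κ * (L / 2) = κ * L by ring]
      rfl
    have e4 : H38KL.Kit (2 * τ) (κ * L) = AEU.H12.Kit (2 * τ) (2 * κ * (L / 2)) := by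
      rw [show 2 * κ * (L / 2) = κ * L by ring]
      rfl
    rw [e3, e4, neg_mul (2 * γ), neg_mul (2 * η2), cosh_neg, cosh_neg]
    ring
  rw [e1, ← mul_assoc (κ / c)]
  rw [inner_congr (B := fun x y =>
      JK2 (fun τ => -(sinh ((π - (η1 + η2)) * τ) / sinh ((η1 + η2) * τ)))
        (fun τ => sinh ((π - (η1 + η2)) * τ) / sinh ((η1 + η2) * τ)) (-(2 * γ)) (-(2 * η2)) κ
        (2 * ((L / 2 : ℝ) : ℂ) - (starRingEnd ℂ) y) x)]
  · exact hg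
  · intro x hx y hy
    obtain ⟨a1, a2, a3, _, _, _⟩ := q4 x hx
    obtain ⟨_, _, _, b1, b2, b3⟩ := q4 y hy
    have eL : (2 * ((L / 2 : ℝ) : ℂ) : ℂ) = (L : ℂ) := by push_cast; ring
    rw [eL]
    exact ker_jk2 hKER (by linarith only [h1, h12, hγ, hγ2]) h2 h12 hκp b1 a1 (pt_y γ L y) (pt_x γ x) b2 b3 a2 a3

/-- FLE2 -/
theorem fluxE2_of (hKES : KesStatement) : FluxE2Stmt := by
  intro η1 η2 γ L ξ0 h1 h1' h2 h2' hγ hγ2 hξ0 hξL
  have hpi := pi_pos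
  have hL : 0 < L := hξ0.trans hξL
  obtain ⟨ζ0, hζ0, H⟩ := params (η1 := η1) (η2 := η2) (θm := (2 * (η1 + η2) - π - 2 * γ) / 2)
    hγ (by linarith) (by linarith) (by linarith) hξ0 hξL (by linarith)
  refine ⟨ζ0, hζ0, fun ζ hζ hζζ => ?_⟩
  obtain ⟨e, δ0, θ, he, hδ0, t0, t1, t2, H⟩ := H ζ hζ hζζ
  refine ⟨e, δ0, he, hδ0, fun δ hδ hδδ ξ1 hξ => ?_⟩
  obtain ⟨q1, q2, q3, q4, q5⟩ := H δ hδ hδδ ξ1 hξ
  have hp : |π - (η1 + η2)| < η1 + η2 := by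
    rw [abs_of_pos (by linarith only [h1', h2'])]; linarith only [hγ, t0, t2]
  have hp' : η1 + η2 - |π - (η1 + η2)| = 2 * (η1 + η2) - π := by
    rw [abs_of_pos (by linarith only [h1', h2'])]; ring
  have hr : |2 * (η1 + η2) - π| < η1 + η2 := by
    rw [abs_of_pos (by linarith only [hγ, t0, t2])]; linarith
  have hr' : η1 + η2 - |2 * (η1 + η2) - π| = π - (η1 + η2) := by
    rw [abs_of_pos (by linarith only [hγ, t0, t2])]; ring
  obtain ⟨C1, hev⟩ := ev_shb hp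
  rw [hp'] at hev
  obtain ⟨C2, hev2⟩ := ev_shb hr
  rw [hr'] at hev2
  have hb1 : |-(2 * γ)| < 2 * (η1 + η2) - π := by
    rw [abs_neg, abs_of_pos (by linarith only [hγ])]; linarith only [t0, t2]
  have hb2 : |η1 - η2| < π - (η1 + η2) := by
    rw [abs_lt]; constructor <;> linarith only [h2', h1']
  obtain ⟨c0, hc0, hg⟩ := gen2 (X0 := ξ1) (μ := ζ / 2) (ζ1 := ζ) (ζ2 := ζ) (θ := θ) hev hev2
    hb1 hb2 (by positivity : 0 < L / 2) hδ q1 q2 (by linarith only [he, hδ, q1, q2] : 0 < L + e) (by positivity)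
    (by linarith) (by linarith only [hζ]) t0 t1 (by linarith only [hγ, t2]) (by linarith) q3 q3
  refine ⟨c0, hc0, fun c hc hcc => ?_⟩
  obtain ⟨C, κ0, hκ0, hg⟩ := hg c hc hcc
  refine ⟨C, κ0, hκ0, fun κ hκ => ?_⟩
  have hκp : 0 < κ := hκ0.trans_le hκ
  have hg := hg κ hκ
  have hs : 0 < sin γ := sin_pos_of_pos_of_lt_pi hγ (by linarith only [h1', h2', hγ, t0, t2])
  rw [cvtE {1, 2} ∅ hc hκp (by positivity : 0 < sin γ * L / 4) q5]
  have e1 : FE2 η1 η2 γ L κ = 2 / π * ∫ τ in Ioi (0 : ℝ),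
      (sinh ((π - (η1 + η2)) * τ) / sinh ((η1 + η2) * τ) * cosh (-(2 * γ) * τ) *
        AEU.H12.Kit 0 (2 * κ * (L / 2)) + sinh ((2 * (η1 + η2) - π) * τ) / sinh ((η1 + η2) * τ) *
        cosh ((η1 - η2) * τ) * AEU.H12.Kit (2 * τ) (2 * κ * (L / 2))) := by
    unfold FE2 m1 m2
    congr 1
    congr 1
    ext τ
    have e3 : H38KL.Kit 0 (κ * L) = AEU.H12.Kit 0 (2 * κ * (L / 2)) := by
      rw [show 2 * κ * (L / 2) = κ * L by ring]
      rfl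
    have e4 : H38KL.Kit (2 * τ) (κ * L) = AEU.H12.Kit (2 * τ) (2 * κ * (L / 2)) := by
      rw [show 2 * κ * (L / 2) = κ * L by ring]
      rfl
    rw [e3, e4, neg_mul (2 * γ), cosh_neg]
    ring
  rw [e1, ← mul_assoc (κ / c)]
  rw [inner_congr (B := fun x y =>
      JK2 (fun τ => sinh ((π - (η1 + η2)) * τ) / sinh ((η1 + η2) * τ))
        (fun τ => sinh ((2 * (η1 + η2) - π) * τ) / sinh ((η1 + η2) * τ)) (-(2 * γ)) (η1 - η2) κ
        (2 * ((L / 2 : ℝ) : ℂ) - (starRingEnd ℂ) y) x)]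
  · exact hg
  · intro x hx y hy
    obtain ⟨a1, a2, a3, _, _, _⟩ := q4 x hx
    obtain ⟨_, _, _, b1, b2, b3⟩ := q4 y hy
    have eL : (2 * ((L / 2 : ℝ) : ℂ) : ℂ) = (L : ℂ) := by push_cast; ring
    rw [eL]
    exact kes_jk2 hKES h1 h2 (by linarith only [h1', h2']) hκp b1 a1 (pt_y γ L y) (pt_x γ x) b2 b3 a2 a3

theorem fluxE1 : FluxE1Stmt := fluxE1_of H38.kerAll

theorem fluxE2 : FluxE2Stmt :=
  fluxE2_of (H15.kes H38.kerAll H51.ktb H38.ktp AEU.H7.ktl H44.uni)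

end Pool.Agent.XQ.E
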