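import Pool.Agent.Helper36_XQ.Stmt5

/-!
Squad XQ (MP_5b0138_an), part E4, module GAC: near-minimal loops (helper16).
-/

set_option autoImplicit false

namespace Pool.Agent.XQ.K4.H16

open MeasureTheory Complex Filter Topology ProbabilityTheory Pool.Agent.H16Iso Pool.Agent.H62T
  Pool.Agent.H16F Pool.Agent.H38KL Pool.Agent.AEU
open scoped ENNReal NNReal

theorem poly4 (hpol : PolStatement) {n : ℕ} [NeZero n] (z : Fin n → ℂ) {a b c d : ℕ} (h1 : a < b)
    (h2 : b < c) (h3 : c < d) (h4 : d < n) :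
    ‖z (Fin.ofNat n a) - z (Fin.ofNat n b)‖ + ‖z (Fin.ofNat n b) - z (Fin.ofNat n c)‖
      + ‖z (Fin.ofNat n c) - z (Fin.ofNat n d)‖ + ‖z (Fin.ofNat n d) - z (Fin.ofNat n a)‖
      ≤ Pl z := by
  have hs : StrictMono (![a, b, c, d] : Fin 4 → ℕ) := by
    rw [Fin.strictMono_iff_lt_succ]
    intro i
    fin_cases i
    · exact h1
    · exact h2
    · exact h3
  have h := hpol.1 n z 3 ![a, b, c, d] hs h4
  rw [Fin.sum_univ_three] at h
  exact h

theorem poly5 (hpol : PolStatement) {n : ℕ} [NeZero n] (z : Fin n → ℂ) {a b c d f : ℕ}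
    (h1 : a < b) (h2 : b < c) (h3 : c < d) (h4 : d < f) (h5 : f < n) :
    ‖z (Fin.ofNat n a) - z (Fin.ofNat n b)‖ + ‖z (Fin.ofNat n b) - z (Fin.ofNat n c)‖
      + ‖z (Fin.ofNat n c) - z (Fin.ofNat n d)‖ + ‖z (Fin.ofNat n d) - z (Fin.ofNat n f)‖
      + ‖z (Fin.ofNat n f) - z (Fin.ofNat n a)‖ ≤ Pl z := by
  have hs : StrictMono (![a, b, c, d, f] : Fin 5 → ℕ) := by
    rw [Fin.strictMono_iff_lt_succ]
    intro i
    fin_cases i
    · exact h1
    · exact h2
    · exact h3
    · exact h4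
  have h := hpol.1 n z 4 ![a, b, c, d, f] hs h5
  rw [Fin.sum_univ_four] at h
  exact h

theorem near {u v p q : ℂ} {e : ℝ} (hu : ‖u - p‖ < e) (hv : ‖v - q‖ < e) :
    ‖p - q‖ - 2 * e ≤ ‖u - v‖ := by
  have h1 : p - q = (u - v) - (u - p) + (v - q) := by ring
  have h2 : ‖p - q‖ ≤ ‖u - v‖ + ‖u - p‖ + ‖v - q‖ := by
    rw [h1]
    exact (norm_add_le _ _).trans (add_le_add_left (norm_sub_le _ _) _)
  linarith

/-- the three points -/
noncomputable def PP (Q R : ℂ) : Fin 3 → ℂ := ![0, Q, R]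

/-- the group of a label -/
def gr : Fin 4 → Fin 3 := ![0, 0, 1, 2]

theorem ofNat_self {n : ℕ} [NeZero n] (i : Fin n) : Fin.ofNat n (i : ℕ) = i := by
  ext
  simp [Fin.ofNat, Nat.mod_eq_of_lt i.2]

/-- geometry of the triangle -/
structure Tri (Q R : ℂ) (L D : ℝ) : Prop where
  hD : 0 < D
  dst : ∀ p q : Fin 3, p ≠ q → D ≤ ‖PP Q R p - PP Q R q‖
  per : ∀ p q r : Fin 3, p ≠ q → q ≠ r → p ≠ r →
    ‖PP Q R p - PP Q R q‖ + ‖PP Q R q - PP Q R r‖ + ‖PP Q R r - PP Q R p‖ = L
  str : ∀ p q r : Fin 3, p ≠ q → q ≠ r → p ≠ r →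
    D ≤ ‖PP Q R p - PP Q R q‖ + ‖PP Q R p - PP Q R r‖ - ‖PP Q R q - PP Q R r‖

theorem tri_of {Q R : ℂ} {a b m : ℝ} (hQ : ‖Q‖ = a) (hR : ‖R‖ = b) (hQR : ‖Q - R‖ = m)
    (ha : 0 < a) (hb : 0 < b) (hm : 0 < m) (h1 : m < a + b) (h2 : a < b + m) (h3 : b < a + m) :
    ∃ D : ℝ, Tri Q R (a + b + m) D := by
  set D := min (min a (min b m)) (min (a + b - m) (min (b + m - a) (a + m - b))) with hD
  have d1 : D ≤ a := (min_le_left _ _).trans (min_le_left _ _)
  have d2 : D ≤ b := (min_le_left _ _).trans ((min_le_right _ _).trans (min_le_left _ _))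
  have d3 : D ≤ m := (min_le_left _ _).trans ((min_le_right _ _).trans (min_le_right _ _))
  have d4 : D ≤ a + b - m := (min_le_right _ _).trans (min_le_left _ _)
  have d5 : D ≤ b + m - a := (min_le_right _ _).trans ((min_le_right _ _).trans (min_le_left _ _))
  have d6 : D ≤ a + m - b := (min_le_right _ _).trans ((min_le_right _ _).trans (min_le_right _ _))
  have k1 : ‖(0 : ℂ) - Q‖ = a := by rw [zero_sub, norm_neg, hQ]
  have k2 : ‖Q - (0 : ℂ)‖ = a := by rw [sub_zero, hQ]
  have k3 : ‖(0 : ℂ) - R‖ = b := by rw [zero_sub, norm_neg, hR]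
  have k4 : ‖R - (0 : ℂ)‖ = b := by rw [sub_zero, hR]
  have k5 : ‖R - Q‖ = m := by rw [norm_sub_rev, hQR]
  refine ⟨D, ⟨?_, ?_, ?_, ?_⟩⟩
  · exact lt_min (lt_min ha (lt_min hb hm)) (lt_min (by linarith) (lt_min (by linarith)
      (by linarith)))
  · intro p q hpq
    fin_cases p <;> fin_cases q <;>
      first
        | exact absurd rfl hpq
        | (simp only [PP, Fin.isValue, Fin.zero_eta, Fin.mk_one, Fin.reduceFinMk,
            Matrix.cons_val_zero, Matrix.cons_val_one, Matrix.cons_val]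
           first
            | (rw [k1]; exact d1)
            | (rw [k2]; exact d1)
            | (rw [k3]; exact d2)
            | (rw [k4]; exact d2)
            | (rw [k5]; exact d3)
            | (rw [hQR]; exact d3))
  · intro p q r hpq hqr hpr
    fin_cases p <;> fin_cases q <;> fin_cases r <;>
      first
        | exact absurd rfl hpq
        | exact absurd rfl hqr
        | exact absurd rfl hpr
        | (simp only [PP, Fin.isValue, Fin.zero_eta, Fin.mk_one, Fin.reduceFinMk,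
            Matrix.cons_val_zero, Matrix.cons_val_one, Matrix.cons_val]
           linarith)
  · intro p q r hpq hqr hpr
    fin_cases p <;> fin_cases q <;> fin_cases r <;>
      first
        | exact absurd rfl hpq
        | exact absurd rfl hqr
        | exact absurd rfl hpr
        | (simp only [PP, Fin.isValue, Fin.zero_eta, Fin.mk_one, Fin.reduceFinMk,
            Matrix.cons_val_zero, Matrix.cons_val_one, Matrix.cons_val]
           linarith)

/-- the alternation condition -/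
theorem alt (hpol : PolStatement) {Q R : ℂ} {L D e : ℝ} (ht : Tri Q R L D) (he : 0 < e)
    (heD : 12 * e < D) {n : ℕ} [NeZero n] {x : Fin n → ℂ} {A : Fin n → Finset (Fin 4)}
    (hn : ∀ j s, s ∈ A j → ‖x j - PP Q R (gr s)‖ < e) (hPl : Pl x < L + e)
    (hv : ∀ w : Fin 3, ∃ i : Fin n, ‖x i - PP Q R w‖ < e) (p : Fin 3) (j : Fin n) (a b c : ℕ)
    (ha : 0 < a) (hab : a < b) (hbc : b < c) (hcn : c < n)
    (h0 : ∃ s ∈ A j, gr s = p) (h1 : ∃ s ∈ A (j + Fin.ofNat n a), gr s ≠ p)
    (h2 : ∃ s ∈ A (j + Fin.ofNat n b), gr s = p) (h3 : ∃ s ∈ A (j + Fin.ofNat n c), gr s ≠ p) :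
    False := by
  obtain ⟨s0, hs0, e0⟩ := h0
  obtain ⟨s1, hs1, e1⟩ := h1
  obtain ⟨s2, hs2, e2⟩ := h2
  obtain ⟨s3, hs3, e3⟩ := h3
  set q := gr s1 with hq
  set r := gr s3 with hr
  have n0 := hn _ _ hs0
  have n1 := hn _ _ hs1
  have n2 := hn _ _ hs2
  have n3 := hn _ _ hs3
  rw [e0] at n0
  rw [e2] at n2
  rw [← hq] at n1
  rw [← hr] at n3
  set z := rot j x with hz
  have zk : ∀ k : ℕ, z (Fin.ofNat n k) = x (j + Fin.ofNat n k) := by
    intro k
    rw [hz]
    unfold rot
    rw [add_comm]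
  have zP : Pl z = Pl x := hpol.2.2.2.1 n x j
  have z0 : z (Fin.ofNat n 0) = x j := by
    rw [zk]
    congr 1
    have : Fin.ofNat n 0 = 0 := by
      ext
      simp [Fin.ofNat]
    rw [this, add_zero]
  have m0 : ‖z (Fin.ofNat n 0) - PP Q R p‖ < e := by rw [z0]; exact n0
  have m1 : ‖z (Fin.ofNat n a) - PP Q R q‖ < e := by rw [zk]; exact n1
  have m2 : ‖z (Fin.ofNat n b) - PP Q R p‖ < e := by rw [zk]; exact n2
  have m3 : ‖z (Fin.ofNat n c) - PP Q R r‖ < e := by rw [zk]; exact n3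
  have hPz : Pl z < L + e := by rw [zP]; exact hPl
  by_cases hqr : q = r
  · -- the third group
    obtain ⟨w, hw1, hw2⟩ : ∃ w : Fin 3, w ≠ p ∧ w ≠ q := by
      have : ∀ p q : Fin 3, ∃ w : Fin 3, w ≠ p ∧ w ≠ q := by decide
      exact this p q
    obtain ⟨i, hi⟩ := hv w
    set l : ℕ := ((i - j : Fin n) : ℕ) with hl
    have hln : l < n := (i - j).2
    have zl : z (Fin.ofNat n l) = x i := by
      rw [zk, hl, ofNat_self]
      congr 1
      abel
    have ml : ‖z (Fin.ofNat n l) - PP Q R w‖ < e := by rw [zl]; exact hi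
    rw [← hqr] at m3
    have hper := ht.per p q w (Ne.symm e1) (Ne.symm hw2) (Ne.symm hw1)
    have dpq := ht.dst p q (Ne.symm e1)
    have dpw := ht.dst p w (Ne.symm hw1)
    have dqw := ht.dst q w (Ne.symm hw2)
    have far : ∀ k : ℕ, ∀ t : Fin 3, t ≠ w → ‖z (Fin.ofNat n k) - PP Q R t‖ < e → l ≠ k := by
      intro k t htw hk hlk
      rw [← hlk] at hk
      have := near hk ml
      rw [sub_self, norm_zero] at this
      have d := ht.dst t w htw
      linarith
    have l0 : l ≠ 0 := far 0 p (Ne.symm hw1) m0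
    have la : l ≠ a := far a q (Ne.symm hw2) m1
    have lb : l ≠ b := far b p (Ne.symm hw1) m2
    have lc : l ≠ c := far c q (Ne.symm hw2) m3
    have k01 := near m0 m1
    have k12 := near m1 m2
    have k23 := near m2 m3
    have k30 := near m3 m0
    have k0l := near m0 ml
    have kl1 := near ml m1
    have k1l := near m1 ml
    have kl2 := near ml m2
    have k2l := near m2 ml
    have kl3 := near ml m3
    have k3l := near m3 ml
    have kl0 := near ml m0
    have s1 := norm_sub_rev (PP Q R p) (PP Q R q)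
    have s2 := norm_sub_rev (PP Q R p) (PP Q R w)
    have s3 := norm_sub_rev (PP Q R q) (PP Q R w)
    rcases lt_or_gt_of_ne la with h | h
    · have := poly5 hpol z (Nat.pos_of_ne_zero l0) h hab hbc hcn
      linarith only [he, heD, hPl, zP, hper, dpq, k12, k23, k30, k0l, kl1, s1, s2, s3, this]
    · rcases lt_or_gt_of_ne lb with h' | h'
      · have := poly5 hpol z ha h h' hbc hcn
        linarith only [he, heD, hPl, zP, hper, dpq, k01, k23, k30, k1l, kl2, s1, this]
      · rcases lt_or_gt_of_ne lc with h'' | h''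
        · have := poly5 hpol z ha hab h' h'' hcn
          linarith only [he, heD, hPl, zP, hper, dpq, k01, k12, k30, k2l, kl3, s1, s2, s3, this]
        · have := poly5 hpol z ha hab hbc h'' hln
          linarith
  · have := poly4 hpol z ha hab hbc hcn
    have k01 := near m0 m1
    have k12 := near m1 m2
    have k23 := near m2 m3
    have k30 := near m3 m0
    have s1 := norm_sub_rev (PP Q R p) (PP Q R q)
    have s2 := norm_sub_rev (PP Q R p) (PP Q R r)
    have hper := ht.per p q r (Ne.symm e1) hqr (Ne.symm e3)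
    have hstr := ht.str p q r (Ne.symm e1) hqr (Ne.symm e3)
    linarith

/-- a thin ellipse -/
theorem thin {w : ℂ} {f1 f2 m η : ℝ} (hf : f2 - f1 = m)
    (h : ‖w - f1‖ + ‖w - f2‖ < m + η) : 4 * w.im ^ 2 < 2 * m * η + η ^ 2 := by
  have h1 : ‖(starRingEnd ℂ) w - f2‖ = ‖w - f2‖ := by
    have : (starRingEnd ℂ) w - f2 = (starRingEnd ℂ) (w - f2) := by
      rw [map_sub, Complex.conj_ofReal]
    rw [this, Complex.norm_conj]
  have h2 : ‖(w - f1) - ((starRingEnd ℂ) w - f2)‖ < m + η := by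
    refine (norm_sub_le _ _).trans_lt ?_
    rw [h1]
    exact h
  have h3 : ‖(w - f1) - ((starRingEnd ℂ) w - f2)‖ ^ 2 = m ^ 2 + 4 * w.im ^ 2 := by
    rw [Complex.sq_norm, Complex.normSq_apply]
    simp
    rw [← hf]
    ring
  have h4 := norm_nonneg ((w - f1) - ((starRingEnd ℂ) w - f2))
  have h5 : ‖(w - f1) - ((starRingEnd ℂ) w - f2)‖ ^ 2 < (m + η) ^ 2 := by
    apply pow_lt_pow_left₀ h2 h4 (by norm_num)
  rw [h3] at h5
  linarith only [h5]

theorem gac (hpol : PolStatement) (hpte : PteStatement) (hcyc : CycStatement) : GacStatement := by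
  intro δ1 δ2 ρ ζ hL hζ
  obtain ⟨g0, g1, q0, r0, qr, dQR, _, _, _, _, mQ, mR, hiso, _⟩ := hpte δ1 δ2 ρ hL
  set γ := gE δ1 δ2 with hγ
  set a := sq δ1 δ2 ρ with ha
  set b := sr δ1 δ2 ρ with hb
  set L := LE δ1 δ2 ρ with hLd
  set Q := Qp δ1 δ2 ρ with hQ
  set R := Rp δ1 δ2 ρ with hR
  set m := L - b - a with hm
  have hm0 : 0 < m := by linarith
  have nQ : ‖Q‖ = a := by
    rw [hQ]
    unfold Qp
    have e1 : -(((gE δ1 δ2 : ℝ) : ℂ) * I) = (((-gE δ1 δ2 : ℝ)) : ℂ) * I := by push_cast; ring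
    rw [norm_mul, e1, Complex.norm_exp_ofReal_mul_I, one_mul, Complex.norm_real,
      Real.norm_eq_abs, abs_of_pos q0]
  have nR : ‖R‖ = b := by
    rw [hR]
    unfold Rp
    rw [norm_mul, Complex.norm_exp_ofReal_mul_I, one_mul, Complex.norm_real,
      Real.norm_eq_abs, abs_of_pos r0]
  have hlaw : m ^ 2 = a ^ 2 + b ^ 2 - 2 * a * b * Real.cos (2 * γ) := by
    rw [← dQR, hQ, hR]
    unfold Qp Rp
    rw [← hγ, ← ha, ← hb, Complex.sq_norm, Complex.normSq_apply]
    have e1 : -((γ : ℂ) * I) = ((-γ : ℝ) : ℂ) * I := by push_cast; ring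
    rw [e1]
    simp only [Complex.sub_re, Complex.sub_im, Complex.mul_re, Complex.mul_im,
      Complex.exp_ofReal_mul_I_re, Complex.exp_ofReal_mul_I_im, Complex.ofReal_re,
      Complex.ofReal_im, Real.cos_neg, Real.sin_neg]
    rw [Real.cos_two_mul]
    have := Real.sin_sq_add_cos_sq γ
    linear_combination (a + b) ^ 2 * this
  have hc1 : Real.cos (2 * γ) < 1 := by
    have h := Real.cos_lt_cos_of_nonneg_of_le_pi (x := 0) (y := 2 * γ) le_rfl (by linarith only [g1])
      (by linarith)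
    rwa [Real.cos_zero] at h
  have hc2 : -1 < Real.cos (2 * γ) := by
    have h := Real.cos_lt_cos_of_nonneg_of_le_pi (x := 2 * γ) (y := Real.pi) (by linarith)
      le_rfl (by linarith)
    rwa [Real.cos_pi] at h
  have hab0 : 0 < a * b := by positivity
  have t1 : m < a + b := by
    apply lt_of_pow_lt_pow_left₀ 2 (by positivity)
    linarith only [hlaw, mul_lt_mul_of_pos_left hc2 hab0]
  have t2 : a < b + m := by
    by_contra hcon
    push Not at hcon
    have : m ^ 2 ≤ (a - b) ^ 2 := pow_le_pow_left₀ hm0.le (by linarith) 2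
    linarith only [hlaw, this, mul_lt_mul_of_pos_left hc1 hab0]
  have t3 : b < a + m := by
    by_contra hcon
    push Not at hcon
    have : m ^ 2 ≤ (b - a) ^ 2 := pow_le_pow_left₀ hm0.le (by linarith) 2
    linarith only [hlaw, this, mul_lt_mul_of_pos_left hc1 hab0]
  obtain ⟨D, hT⟩ := tri_of nQ nR dQR q0 r0 hm0 t1 t2 t3
  have eL : a + b + m = L := by rw [hm]; ring
  rw [eL] at hT
  have hD := hT.hD
  have hxi : xiE δ1 δ2 ρ = a + m / 2 := by
    unfold xiE
    rw [← ha, ← hb, ← hLd, hm]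
    ring
  -- the constant
  set e := min (min (D / 13) (m / 8)) (min (ζ / 4) (min 1 (ζ ^ 2 / (14 * m + 100)))) with he
  have e0 : 0 < e := by
    refine lt_min (lt_min (by positivity) (by positivity)) (lt_min (by positivity)
      (lt_min one_pos (by positivity)))
  have e1 : e ≤ D / 13 := (min_le_left _ _).trans (min_le_left _ _)
  have e2 : e ≤ m / 8 := (min_le_left _ _).trans (min_le_right _ _)
  have e3 : e ≤ ζ / 4 := (min_le_right _ _).trans (min_le_left _ _)
  have e4 : e ≤ 1 := (min_le_right _ _).trans ((min_le_right _ _).trans (min_le_left _ _))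
  have e5 : e ≤ ζ ^ 2 / (14 * m + 100) :=
    (min_le_right _ _).trans ((min_le_right _ _).trans (min_le_right _ _))
  refine ⟨e, e0, ?_⟩
  intro δ hδ hδe O n _ x A hOn hO hvis h01 h2 h3 hsh hPl
  have hn : ∀ j s, s ∈ A j → ‖x j - PP Q R (gr s)‖ < e := by
    intro j s hs
    fin_cases s
    · simpa [PP, gr] using h01 j (Or.inl hs)
    · simpa [PP, gr] using h01 j (Or.inr hs)
    · simpa [PP, gr] using h2 j hs
    · simpa [PP, gr] using h3 j hs
  have hv : ∀ w : Fin 3, ∃ i : Fin n, ‖x i - PP Q R w‖ < e := by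
    intro w
    fin_cases w
    · obtain ⟨s, hs⟩ := hOn
      obtain ⟨j, hj⟩ := hvis s (Finset.mem_union_left _ hs)
      have h := hn j s hj
      have hs' := hO hs
      refine ⟨j, ?_⟩
      rw [Finset.mem_insert, Finset.mem_singleton] at hs'
      rcases hs' with rfl | rfl
      · exact h
      · exact h
    · obtain ⟨j, hj⟩ := hvis 2 (by simp)
      exact ⟨j, hn j 2 hj⟩
    · obtain ⟨j, hj⟩ := hvis 3 (by simp)
      exact ⟨j, hn j 3 hj⟩
  have hgr : ∀ j s s', s ∈ A j → s' ∈ A j → gr s = gr s' := by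
    intro j s s' hs hs'
    by_contra hne
    have k := near (hn j s hs) (hn j s' hs')
    rw [sub_self, norm_zero] at k
    have := hT.dst _ _ hne
    linarith
  -- the map `mi`
  have miQ : ∀ y : ℂ, ‖mi δ1 δ2 ρ y - a‖ = ‖y - Q‖ := by
    intro y
    rw [← mQ, hiso]
  have miR : ∀ y : ℂ, ‖mi δ1 δ2 ρ y - (L - b : ℝ)‖ = ‖y - R‖ := by
    intro y
    rw [← mR, hiso]
  refine ⟨⟨?_, ?_⟩, ?_, ?_⟩
  · -- label 2
    intro j hj
    have k1 := h2 j hj
    have k2 := hsh j
    have k3 : ‖x (j + 1) - Q‖ < 2 * e := by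
      have : x (j + 1) - Q = (x j - Q) - (x j - x (j + 1)) := by ring
      rw [this]
      exact (norm_sub_le _ _).trans_lt (by linarith)
    have key : ∀ y : ℂ, ‖y - Q‖ < 2 * e → y ∉ CE δ1 δ2 ρ := by
      intro y hy hC
      have c1 : xiE δ1 δ2 ρ ≤ (mi δ1 δ2 ρ y).re := hC
      rw [← miQ] at hy
      have c2 := (Complex.abs_re_le_norm _).trans_lt hy
      rw [Complex.sub_re, Complex.ofReal_re, abs_lt] at c2
      rw [hxi] at c1
      linarith
    exact ⟨key _ (by linarith), key _ k3⟩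
  · -- label 3
    intro j hj
    have k1 := h3 j hj
    have k2 := hsh j
    have k3 : ‖x (j + 1) - R‖ < 2 * e := by
      have : x (j + 1) - R = (x j - R) - (x j - x (j + 1)) := by ring
      rw [this]
      exact (norm_sub_le _ _).trans_lt (by linarith)
    have key : ∀ y : ℂ, ‖y - R‖ < 2 * e → y ∈ CE δ1 δ2 ρ := by
      intro y hy
      show xiE δ1 δ2 ρ ≤ (mi δ1 δ2 ρ y).re
      rw [← miR] at hy
      have c2 := (Complex.abs_re_le_norm _).trans_lt hy
      rw [Complex.sub_re, Complex.ofReal_re, abs_lt] at c2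
      rw [hxi]
      linarith
    exact ⟨key _ (by linarith), key _ k3⟩
  · -- clusters
    refine hcyc n O A hOn hO hvis ?_ ?_
    · intro j
      rcases (A j).eq_empty_or_nonempty with h | ⟨s, hs⟩
      · left
        rw [h]
        exact Finset.empty_subset _
      · have key : ∀ s' ∈ A j, gr s' = gr s := fun s' hs' => hgr j s' s hs' hs
        have d : ∀ s s' : Fin 4, gr s' = gr s → (gr s = 0 → s' ∈ ({0, 1} : Finset (Fin 4))) ∧
          (gr s = 1 → s' ∈ ({2} : Finset (Fin 4))) ∧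
          (gr s = 2 → s' ∈ ({3} : Finset (Fin 4))) := by decide
        have d' : ∀ s : Fin 4, gr s = 0 ∨ gr s = 1 ∨ gr s = 2 := by decide
        rcases d' s with h | h | h
        · exact Or.inl fun s' hs' => (d s s' (key s' hs')).1 h
        · exact Or.inr (Or.inl fun s' hs' => (d s s' (key s' hs')).2.1 h)
        · exact Or.inr (Or.inr fun s' hs' => (d s s' (key s' hs')).2.2 h)
    · intro X hX j a' b' c' k1 k2 k3 k4 hA0 hA1 hA2
      obtain ⟨p, hp⟩ : ∃ p : Fin 3, ∀ s : Fin 4, s ∈ X ↔ gr s = p := by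
        rcases hX with rfl | rfl | rfl
        · exact ⟨0, by decide⟩
        · exact ⟨1, by decide⟩
        · exact ⟨2, by decide⟩
      rw [Finset.not_disjoint_iff] at hA0 hA2
      rw [Finset.not_subset] at hA1
      by_contra hA3
      rw [Finset.not_subset] at hA3
      obtain ⟨s0, i0, i0'⟩ := hA0
      obtain ⟨s1, i1, i1'⟩ := hA1
      obtain ⟨s2, i2, i2'⟩ := hA2
      obtain ⟨s3, i3, i3'⟩ := hA3
      exact alt hpol hT e0 (by linarith only [e1, hδ, hδe]) hn hPl hv p j a' b' c' k1 k2 k3 k4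
        ⟨s0, i0, (hp s0).1 i0'⟩ ⟨s1, i1, fun h => i1' ((hp s1).2 h)⟩
        ⟨s2, i2, (hp s2).1 i2'⟩ ⟨s3, i3, fun h => i3' ((hp s3).2 h)⟩
  · -- the window
    rintro ⟨k, l, hk0, hkl, hln, hk3, hl2, hO'⟩ hchi
    obtain ⟨s, hs⟩ := hOn
    obtain ⟨i, hki, hil, hsi⟩ := hO' s hs
    have hxi' : ‖x (Fin.ofNat n i)‖ < e := by
      have := hO hs
      rw [Finset.mem_insert, Finset.mem_singleton] at this
      rcases this with rfl | rfl
      · exact h01 _ (Or.inl hsi)
      · exact h01 _ (Or.inr hsi)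
    have hxk := h3 _ hk3
    have hxl := h2 _ hl2
    have hp4 := poly4 hpol x hk0 hki hil hln
    have z0 : Fin.ofNat n 0 = (0 : Fin n) := by
      ext
      simp [Fin.ofNat]
    rw [z0] at hp4
    -- the sum of distances
    have c1 : ‖R‖ - 2 * e ≤ ‖x (Fin.ofNat n k) - x (Fin.ofNat n i)‖ := by
      have := near hxk (by rw [sub_zero]; exact hxi' : ‖x (Fin.ofNat n i) - 0‖ < e)
      rwa [sub_zero] at this
    have c2 : ‖Q‖ - 2 * e ≤ ‖x (Fin.ofNat n i) - x (Fin.ofNat n l)‖ := by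
      have := near (by rw [sub_zero]; exact hxi' : ‖x (Fin.ofNat n i) - 0‖ < e) hxl
      rwa [zero_sub, norm_neg] at this
    have c3 : ‖x 0 - R‖ ≤ ‖x 0 - x (Fin.ofNat n k)‖ + e := by
      have : x 0 - R = (x 0 - x (Fin.ofNat n k)) + (x (Fin.ofNat n k) - R) := by ring
      rw [this]
      exact (norm_add_le _ _).trans (by linarith only [hxk])
    have c4 : ‖x 0 - Q‖ ≤ ‖x (Fin.ofNat n l) - x 0‖ + e := by
      have : x 0 - Q = -(x (Fin.ofNat n l) - x 0) + (x (Fin.ofNat n l) - Q) := by ring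
      rw [this]
      refine (norm_add_le _ _).trans ?_
      rw [norm_neg]
      linarith only [hxl]
    have hsum : ‖mi δ1 δ2 ρ (x 0) - (a : ℝ)‖ + ‖mi δ1 δ2 ρ (x 0) - ((L - b : ℝ) : ℂ)‖
        < m + 7 * e := by
      rw [miQ, miR]
      rw [nR] at c1
      rw [nQ] at c2
      linarith only [hPl, hp4, c1, c2, c3, c4]
    have him := thin (by rw [hm] : (L - b) - a = m) hsum
    have him0 : |(mi δ1 δ2 ρ (x 0)).im| < ζ / 2 := by
      apply abs_lt_of_sq_lt_sq _ (by positivity)
      have k1 : e * (14 * m + 100) ≤ ζ ^ 2 := by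
        rwa [le_div_iff₀ (by positivity)] at e5
      have k2 : e ^ 2 ≤ e := by nlinarith only [e0, e4]
      linarith only [him, k1, k2, e0]
    have hd01 : ‖mi δ1 δ2 ρ (x 0) - mi δ1 δ2 ρ (x 1)‖ < δ := by
      rw [hiso]
      have := hsh 0
      rwa [zero_add] at this
    have hre := (Complex.abs_re_le_norm _).trans_lt hd01
    have him1 := (Complex.abs_im_le_norm _).trans_lt hd01
    rw [Complex.sub_re, abs_lt] at hre
    rw [Complex.sub_im, abs_lt] at him1
    rw [abs_lt] at him0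
    have hcr : ((mi δ1 δ2 ρ (x 0)).re < xiE δ1 δ2 ρ ∧ xiE δ1 δ2 ρ ≤ (mi δ1 δ2 ρ (x 1)).re) ∨
        ((mi δ1 δ2 ρ (x 1)).re < xiE δ1 δ2 ρ ∧ xiE δ1 δ2 ρ ≤ (mi δ1 δ2 ρ (x 0)).re) := by
      by_cases c0 : x 0 ∈ CE δ1 δ2 ρ
      · by_cases c1 : x 1 ∈ CE δ1 δ2 ρ
        · exfalso
          apply hchi
          unfold chi
          rw [Set.indicator_of_mem c0, Set.indicator_of_mem c1]
        · right
          exact ⟨not_le.1 c1, c0⟩
      · by_cases c1 : x 1 ∈ CE δ1 δ2 ρ
        · left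
          exact ⟨not_le.1 c0, c1⟩
        · exfalso
          apply hchi
          unfold chi
          rw [Set.indicator_of_notMem c0, Set.indicator_of_notMem c1]
    constructor
    · refine ⟨?_, ?_, ?_⟩
      · rw [abs_lt]
        rcases hcr with h | h <;> constructor <;> linarith only [hre, h.1, h.2]
      · linarith only [him0]
      · linarith only [him0]
    · refine ⟨?_, ?_, ?_⟩
      · rw [abs_lt]
        rcases hcr with h | h <;> constructor <;> linarith only [hre, h.1, h.2]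
      · linarith only [e3, hδe, him0, him1]
      · linarith

end Pool.Agent.XQ.K4.H16
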