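import Pool.Agent.Helper16_XQ.StmtG
import Pool.Agent.Helper16_XQ.Ana2
import Pool.Agent.Helper62_AEU.Stmt
import Pool.Agent.Helper35_AEU.LocE

/-!
Squad XQ (MP_5b0138_an), Part D: the heat trace of an arbitrary convex polygon near the first
failing level, and the comparison of the items. Recipes: `/team-store/XQ_planD.md`.
-/

set_option autoImplicit false

namespace Pool.Agent.XQ

open MeasureTheory Complex Filter Topology ProbabilityTheory Pool.Agent.H16Iso Pool.Agent.H62T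
open Pool.Agent.H16F (Sublin ind)
open Pool.Agent.AEU

/-! ### Definitions -/

/-- area of the inner parallel body -/
noncomputable def VX (X : Finset HP) (h : ℂ → ℝ) : ℝ :=
  (volume {x : ℂ | ∀ s ∈ X, ip s.1 x ≤ s.2 - h s.1}).toReal

/-- `q` is the quadratic polynomial which gives the area as long as no side disappears -/
structure Quad (X : Finset HP) (q : (ℂ → ℝ) → ℝ) : Prop where
  form : ∃ (w0 : ℝ) (w1 : HP → ℝ) (w2 : HP → HP → ℝ), ∀ h : ℂ → ℝ,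
    q h = w0 + ∑ s ∈ X, w1 s * h s.1 + ∑ s ∈ X, ∑ r ∈ X, w2 s r * (h s.1 * h r.1)
  small : ∃ r > 0, ∀ h : ℂ → ℝ, Sublin h → (∀ s ∈ X, |h s.1| ≤ r) → VX X h = q h

/-- generic bodies: no ties -/
def Gn (X : Finset HP) (h : ℂ → ℝ) : Prop :=
  ∀ a ∈ X, ∀ b ∈ X, ∀ c ∈ X, ∀ d ∈ X, Ne4 a b c d → dt a.1 b.1 ≠ 0 →
    D0 a b c * DD a.1 b.1 d.1 h ≠ D0 a b d * DD a.1 b.1 c.1 h

/-- no copy of the body (with factor at most one) touches two parallel sides -/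
def Nc (X : Finset HP) (h : ℂ → ℝ) : Prop :=
  ∀ a ∈ X, ∀ a' ∈ X, a ≠ a' → dt a.1 a'.1 = 0 → ∀ (σ : ℝ) (x : ℂ), 0 < σ → σ ≤ 1 →
    Fits X (fun w => σ * h w + ip w x) →
    ¬ (σ * h a.1 + ip a.1 x = a.2 ∧ σ * h a'.1 + ip a'.1 x = a'.2)

/-- the copy of the body touching the lines of `S` leaves the half-plane `t` -/
def EvO (S : Finset HP) (t : HP) (h : ℂ → ℝ) : Prop :=
  ∃ (σ : ℝ) (x : ℂ), 0 < σ ∧ σ ≤ 1 ∧ (∀ s ∈ S, σ * h s.1 + ip s.1 x = s.2) ∧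
    t.2 < σ * h t.1 + ip t.1 x

/-- the copy of the body touching the lines of `S` is strictly inside the half-plane `t` -/
def EvN (S : Finset HP) (t : HP) (h : ℂ → ℝ) : Prop :=
  ∃ (σ : ℝ) (x : ℂ), 0 < σ ∧ σ ≤ 1 ∧ (∀ s ∈ S, σ * h s.1 + ip s.1 x = s.2) ∧
    σ * h t.1 + ip t.1 x < t.2

/-- contribution of the triples in `A` (relaxed polygons) and of the torn quadruples in `T` -/
noncomputable def DX (X : Finset HP) (T : Finset (Finset HP)) (c : Finset HP → HP → ℝ)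
    (A : Finset (Finset HP)) (h : ℂ → ℝ) : ℝ :=
  ∑ S ∈ A, ind (Ev (rlx X T c S) S h) * Zs S h
    + ∑ F ∈ T, (-1) ^ (Mm F (c F)).card * Ar (Mp F (c F)) (Mm F (c F)) h

/-! ### Deterministic part -/

/-- QUA: the quadratic polynomial exists (RUN, ZERO of squad FINE) -/
def QuaStatement : Prop := ∀ X : Finset HP, Pg X → ∃ q, Quad X q

/-- GNX: generic perturbations -/
def GnxStatement : Prop := ∀ X : Finset HP, Pg X → ∀ ε > 0, ∃ k : ℂ → ℝ, Sublin k ∧ lam k < ε ∧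
  (∀ s ∈ X, |k s.1| < ε) ∧ ∀ h : ℂ → ℝ, ∀ᶠ η in 𝓝[>] (0 : ℝ),
    Gn X fun w => (1 - η) * h w + η * k w

/-- DDX: the death formula for arbitrary polygons (`Gn` implies `NoTie`) -/
def DdxStatement : Prop := ∀ (X : Finset HP) (q : (ℂ → ℝ) → ℝ), Pg X → Quad X q →
  (∀ h : ℂ → ℝ, Gn X h → NoTie X h) ∧
  ∀ h : ℂ → ℝ, Sublin h → Gn X h → Nc X h →
    VX X h = q h + ∑ S ∈ X.powersetCard 3, ind (Ev X S h) * Zs S h

/-- DPX: the death formula for polygons without parallel sides (`DeathStmt`) -/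
def DpxStatement : Prop := ∀ (X : Finset HP) (q : (ℂ → ℝ) → ℝ), Pg X → Nonpar X → Quad X q →
  ∀ h : ℂ → ℝ, Sublin h → NoTie X h →
    VX X h = q h + ∑ S ∈ X.powersetCard 3, ind (Ev X S h) * Zs S h

/-- CLX: the area of a cell of four lines -/
def ClxStatement : Prop := ∀ (F : Finset HP) (c : HP → ℝ), F.card = 4 → (∀ s ∈ F, ‖s.1‖ = 1) →
  Np F → (∀ s ∈ F, c s ≠ 0) → ∑ s ∈ F, ((c s : ℝ) : ℂ) * s.1 = 0 → 0 < ∑ s ∈ F, c s * s.2 →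
  ∀ h : ℂ → ℝ, NoTie F h →
    (-1) ^ (Mm F c).card * Ar (Mp F c) (Mm F c) h
      = -∑ t ∈ Mp F c, ind (EvO (F.erase t) t h) * Zs (F.erase t) h
        + ∑ t ∈ Mm F c, ind (EvN (F.erase t) t h) * Zs (F.erase t) h

/-- DCX: the triples of sides near the level `L` -/
def DcxStatement : Prop := ∀ (X : Finset HP) (L δ : ℝ) (M N T : Finset (Finset HP))
  (c : Finset HP → HP → ℝ) (K : Finset HP → ℂ → ℝ), 0 < L → Pg X → Part X L δ M N T c K →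
  ∀ h : ℂ → ℝ, Sublin h → lam h < L + δ → NoTie X h →
    ∑ S ∈ X.powersetCard 3, ind (Ev X S h) * Zs S h = DX X T c (M ∪ N) h

/-- FCD: facing sides. `m` is a fraction of the length of the overlap. -/
def FcdStatement : Prop := ∀ (Q : Finset HP) (q : (ℂ → ℝ) → ℝ) (L δ : ℝ)
  (M N T : Finset (Finset HP)) (c : Finset HP → HP → ℝ) (K : Finset HP → ℂ → ℝ), 0 < L → 0 < δ →
  Pg Q → Quad Q q → Part Q L δ M N T c K → ∃ δ' m C : ℝ, 0 < δ' ∧ δ' ≤ δ ∧ 0 < m ∧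
    ∀ h : ℂ → ℝ, Sublin h → lam h < L + δ' → Gn Q h →
      ((∀ a a', FacePair Q L a a' → h a.1 + h a'.1 < L / 2) →
        VX Q h = q h + DX Q T c (M ∪ N) h) ∧
      ∀ a a', FacePair Q L a a' → L / 2 < h a.1 + h a'.1 →
        m * (h a.1 + h a'.1 - L / 2) - C * (h a.1 + h a'.1 - L / 2) ^ 2
          ≤ VX Q h - q h - DX Q T c (M ∪ N) h

/-- TWF: a short body is too wide for at most one pair of facing sides -/
def TwfStatement : Prop := ∀ (Q : Finset HP) (L : ℝ), 0 < L → Pg Q → ∃ δ' > 0, ∀ h : ℂ → ℝ,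
  Sublin h → lam h < L + δ' → ∀ a a' b b', FacePair Q L a a' → FacePair Q L b b' →
    L / 2 < h a.1 + h a'.1 → L / 2 < h b.1 + h b'.1 → (a = b ∧ a' = b') ∨ (a = b' ∧ a' = b)

open Classical in
/-- DNS: the same for bodies without ties in `P` (density of the generic bodies) -/
def DnsStatement : Prop := ∀ (P Q : Finset HP) (L δ : ℝ) M NP NQ TP TQ cP cQ KP KQ γ
  (q : (ℂ → ℝ) → ℝ), Pg P → Pg Q → Quad Q q →
  SplitX P Q L δ M NP NQ TP TQ cP cQ KP KQ γ → ∃ δ' m C : ℝ, 0 < δ' ∧ δ' ≤ δ ∧ 0 < m ∧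
    ∀ h : ℂ → ℝ, Sublin h → lam h < L + δ' → (∀ S ∈ M, NoTie P (mb (γ S)⁻¹ h)) →
      ((∀ a a', FacePair Q L a a' → h a.1 + h a'.1 ≤ L / 2) →
        VX Q h = q h + DX Q TQ cQ ((M.image fun S => S.image (mv (γ S))) ∪ NQ) h) ∧
      ∀ a a', FacePair Q L a a' → L / 2 < h a.1 + h a'.1 →
        m * (h a.1 + h a'.1 - L / 2) - C * (h a.1 + h a'.1 - L / 2) ^ 2
          ≤ VX Q h - q h - DX Q TQ cQ ((M.image fun S => S.image (mv (γ S))) ∪ NQ) h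

/-! ### Expectations -/

/-- MSX: measurability and bounds: `VX`, `Ar`, the quadratic polynomial -/
def MsxStatement : Prop :=
  (∀ (X : Finset HP) (q : (ℂ → ℝ) → ℝ), Pg X → Quad X q →
    (Measurable fun p : ℝ × Sp => VX X fun u => Real.sqrt p.1 * hs p.2 u) ∧
    (Measurable fun p : ℝ × Sp => q fun u => Real.sqrt p.1 * hs p.2 u) ∧
    ∃ C : ℝ, ∀ h : ℂ → ℝ, |VX X h| + |q h| ≤ C * (1 + ∑ s ∈ X, |h s.1|) ^ 2) ∧
  ∀ (F : Finset HP) (c : HP → ℝ), F.card = 4 → (∀ s ∈ F, ‖s.1‖ = 1) → Np F →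
    (∀ s ∈ F, c s ≠ 0) → ∑ s ∈ F, ((c s : ℝ) : ℂ) * s.1 = 0 → 0 < ∑ s ∈ F, c s * s.2 →
    (Measurable fun p : ℝ × Sp => Ar (Mp F c) (Mm F c) fun u => Real.sqrt p.1 * hs p.2 u) ∧
    ∃ C : ℝ, ∀ h : ℂ → ℝ, Ar (Mp F c) (Mm F c) h ≤ C * (1 + ∑ s ∈ F, |h s.1|) ^ 2 ∧
      (Ar (Mp F c) (Mm F c) h ≠ 0 → ∑ s ∈ F, c s * s.2 < ∑ s ∈ F, c s * h s.1)

/-- TRX: long loops -/
def TrxStatement : Prop := ∀ (L A C : ℝ) (U : Finset ℂ) (f : ℝ → Sp → ℝ), 0 ≤ L → L < A →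
  (∀ t, 0 < t → ∀ᵐ ω ∂PP, |f t ω| ≤ C * (1 + ∑ u ∈ U, |Real.sqrt t * hs ω u|) ^ 2 ∧
    (Real.sqrt t * lam (hs ω) < A → f t ω = 0)) →
  Small L (Lap fun t => ∫ ω, f t ω ∂PP)

/-- LWX: the contributions of matched triples agree -/
def LwxStatement : Prop := ∀ (X Y S : Finset HP) (g : Iso2) (A : ℝ), S ⊆ X → S.card = 3 →
  (∀ s ∈ S, ‖s.1‖ = 1) → Np S → S.image (mv g) ⊆ Y →
  (∀ h, Sublin h → lam h < A → (Ev X S h ↔ Ev Y (S.image (mv g)) (mb g h))) → ∀ t : ℝ, 0 < t →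
  ∫ ω, ind (Real.sqrt t * lam (hs ω) < A) * (ind (Ev X S fun u => Real.sqrt t * hs ω u)
      * Zs S fun u => Real.sqrt t * hs ω u) ∂PP
    = ∫ ω, ind (Real.sqrt t * lam (hs ω) < A)
      * (ind (Ev Y (S.image (mv g)) fun u => Real.sqrt t * hs ω u)
      * Zs (S.image (mv g)) fun u => Real.sqrt t * hs ω u) ∂PP

/-- EXH: isospectral polygons have the same remainder -/
def ExhStatement : Prop := ∀ (P Q : Finset HP) (qP qQ : (ℂ → ℝ) → ℝ), Pg P → Pg Q → Quad P qP →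
  Quad Q qQ → (∀ k, dirEig (opn P) k = dirEig (opn Q) k) → ∀ t : ℝ, 0 < t →
    ∫ ω, (VX P (fun u => Real.sqrt t * hs ω u) - qP fun u => Real.sqrt t * hs ω u) ∂PP
      = ∫ ω, (VX Q (fun u => Real.sqrt t * hs ω u) - qQ fun u => Real.sqrt t * hs ω u) ∂PP

/-- JLB: lower bound for the contribution of facing sides; `U` contains one normal of every pair -/
def JlbStatement : Prop := FbStmt → ∀ (L A m C C' : ℝ) (U V : Finset ℂ) (W : ℝ → Sp → ℝ), 0 < L →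
  L < A → 0 < m → U.Nonempty → (∀ u ∈ U, ‖u‖ = 1) → (Measurable fun p : ℝ × Sp => W p.1 p.2) →
  (∀ t, 0 < t → ∀ᵐ ω ∂PP, |W t ω| ≤ C' * (1 + ∑ u ∈ V, |Real.sqrt t * hs ω u|) ^ 2 ∧
    (A ≤ Real.sqrt t * lam (hs ω) → W t ω = 0) ∧
    (Real.sqrt t * lam (hs ω) < A →
      ((∀ u ∈ U, Real.sqrt t * (hs ω u + hs ω (-u)) ≤ L / 2) → W t ω = 0) ∧
      ∀ u ∈ U, L / 2 < Real.sqrt t * (hs ω u + hs ω (-u)) →
        m * (Real.sqrt t * (hs ω u + hs ω (-u)) - L / 2)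
          - C * (Real.sqrt t * (hs ω u + hs ω (-u)) - L / 2) ^ 2 ≤ W t ω)) →
  ∃ c κ0 : ℝ, 0 < c ∧ 0 < κ0 ∧ ∀ κ : ℝ, κ0 ≤ κ →
    c * κ ^ (1 / 2 : ℝ) * Real.exp (-(L * κ)) ≤ Lap (fun t => ∫ ω, W t ω ∂PP) κ

/-- the difference of the contributions of the new items of `P` and `Q` -/
noncomputable def Df (NP NQ TP TQ : Finset (Finset HP)) (cP cQ : Finset HP → HP → ℝ)
    (κ : ℝ) : ℝ :=
  (∑ S ∈ NP, Lap (EZs S) κ
      + ∑ F ∈ TP, (-1) ^ (Mm F (cP F)).card * Lap (EAr (Mp F (cP F)) (Mm F (cP F))) κ)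
    - (∑ S ∈ NQ, Lap (EZs S) κ
      + ∑ F ∈ TQ, (-1) ^ (Mm F (cQ F)).card * Lap (EAr (Mp F (cQ F)) (Mm F (cQ F))) κ)

/-- EQN: the equation for the new items -/
def EqnStatement : Prop := FbStmt → ∀ (P Q : Finset HP) (L δ : ℝ) M NP NQ TP TQ cP cQ KP KQ γ,
  GenX P → Pg Q → SplitX P Q L δ M NP NQ TP TQ cP cQ KP KQ γ → (∀ᵐ ω ∂PP, NoTie P (hs ω)) →
  (∀ k, dirEig (opn P) k = dirEig (opn Q) k) →
  ∃ J : ℝ → ℝ, ((J = 0 ∧ ∀ a a', ¬ FacePair Q L a a') ∨ ∃ c κ0 : ℝ, 0 < c ∧ 0 < κ0 ∧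
      ∀ κ : ℝ, κ0 ≤ κ → c * κ ^ (1 / 2 : ℝ) * Real.exp (-(L * κ)) ≤ J κ) ∧
    Small L fun κ => Df NP NQ TP TQ cP cQ κ - J κ

/-! ### Items -/

/-- ITG: germs of the kinds -/
def ItgStatement : Prop := GermAStmt → GermBStmt → GermB'Stmt → GermDXStmt → GermIsoStmt →
  GermAhStmt → GermBrStmt → ∀ (S : Finset HP) (L : ℝ), 0 < L →
    (Old S L → Small L fun κ => Lap (EZs S) κ - germD (ell S) κ) ∧
    (KGh S L → Small L fun κ => Lap (EZs S) κ + Real.exp (-(L * κ))) ∧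
    (∀ c c', KA S L c c' → ∃ β β' : ℝ, OkA (β, β') ∧ c = Real.cos β ∧ c' = Real.cos β' ∧
      Small L fun κ => Lap (EZs S) κ - germA (L / 2) β β' κ) ∧
    (∀ c, KAh S L c → ∃ α : ℝ, Real.pi / 2 < α ∧ α < Real.pi ∧ c = -Real.cos α ∧
      Small L fun κ => Lap (EZs S) κ - 1 / 2 * germB (L / 2) α 0 κ) ∧
    (∀ c a b, KB S L c a b → ∃ α η : ℝ, OkB (α, η) ∧ 0 < η ∧ η < α ∧ α < Real.pi ∧
      c = -Real.cos α ∧ a = -Real.sin η ∧ b = -Real.sin (α - η) ∧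
      Small L fun κ => Lap (EZs S) κ - germB (L / 2) α η κ) ∧
    ((∃ a b, KBr S L a b) → Small L fun κ => Lap (EZs S) κ + 1 / 2 * Real.exp (-(L * κ))) ∧
    (∀ c a b, KBa S L c a b → ∃ α η : ℝ, OkB (α, η) ∧ 0 < η ∧ η < α ∧ α < Real.pi ∧
      c = -Real.cos α ∧ a = -Real.sin η ∧ b = -Real.sin (α - η) ∧
      Small L fun κ => Lap (EZs S) κ - (germB (L / 2) α η κ + germD (ell S) κ)) ∧
    (KIso S L → ∃ c κ0 : ℝ, 0 < c ∧ 0 < κ0 ∧ ∀ κ : ℝ, κ0 ≤ κ →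
      c * κ ^ (1 / 2 : ℝ) * Real.exp (-(L * κ)) ≤ Lap (EZs S) κ - germD (ell S) κ)

/-- ITE: germs of the torn quadruples -/
def IteStatement : Prop := GermE2Stmt → GermE1Stmt → Germ3Stmt → Germ4Stmt →
  ∀ (X F : Finset HP) (K : ℂ → ℝ) (L : ℝ) (c : HP → ℝ), 0 < L → TornC X F K L c →
    (∀ α θ γ, StdE F (Mm F c) L α θ γ → (∀ n : ℤ, 4 * Real.cos (2 * Real.pi * θ / α) ≠ n) →
      OkE (α, θ, γ) ∧ Small L fun κ =>
        (-1) ^ (Mm F c).card * Lap (EAr (Mp F c) (Mm F c)) κ - germE L (Real.pi / α) θ γ κ) ∧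
    (Std3 F (Mm F c) L → Ord L 1 fun κ => Lap (EAr (Mp F c) (Mm F c)) κ) ∧
    (Std4 F (Mm F c) L → (Mm F c).card = 1 ∧ Ord L 2 fun κ => Lap (EAr (Mp F c) (Mm F c)) κ)

/-- KEX: the kinds exclude each other, and their parameters are unique -/
def KexStatement : Prop := ∀ (S : Finset HP) (L : ℝ), 0 < L →
  (Old S L → ¬ KGh S L) ∧
  (Old S L ∨ KGh S L → (∀ c c', ¬ KA S L c c') ∧ (∀ c, ¬ KAh S L c) ∧ (∀ c a b, ¬ KB S L c a b) ∧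
    (∀ a b, ¬ KBr S L a b) ∧ (∀ c a b, ¬ KBa S L c a b) ∧ ¬ KIso S L) ∧
  (∀ c c', KA S L c c' → (∀ c, ¬ KAh S L c) ∧ (∀ c a b, ¬ KB S L c a b) ∧
    (∀ a b, ¬ KBr S L a b) ∧ (∀ c a b, ¬ KBa S L c a b) ∧ ¬ KIso S L) ∧
  (∀ c, KAh S L c → (∀ c a b, ¬ KB S L c a b) ∧ (∀ a b, ¬ KBr S L a b) ∧
    (∀ c a b, ¬ KBa S L c a b) ∧ ¬ KIso S L) ∧
  (∀ c a b, KB S L c a b → (∀ a b, ¬ KBr S L a b) ∧ (∀ c a b, ¬ KBa S L c a b) ∧ ¬ KIso S L) ∧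
  (∀ a b, KBr S L a b → (∀ c a b, ¬ KBa S L c a b) ∧ ¬ KIso S L) ∧
  (∀ c a b, KBa S L c a b → ¬ KIso S L) ∧
  (∀ c a b c' a' b', KB S L c a b ∨ KBa S L c a b → KB S L c' a' b' ∨ KBa S L c' a' b' →
    c = c' ∧ ((a = a' ∧ b = b') ∨ (a = b' ∧ b = a'))) ∧
  (∀ c d c' d', KA S L c d → KA S L c' d' → (c = c' ∧ d = d') ∨ (c = d' ∧ d = c')) ∧
  ((Old S L ∨ (∃ c a b, KBa S L c a b) ∨ KIso S L) → Acute S ∧ ell S < L) ∧
  ((KGh S L ∨ (∃ c c', KA S L c c') ∨ (∃ c, KAh S L c) ∨ (∃ c a b, KB S L c a b) ∨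
    ∃ a b, KBr S L a b) → ¬ (Acute S ∧ ell S < L))

/-- KEY: comparison of the items -/
def KeyStatement : Prop := UStmt → ItgStatement → IteStatement → KexStatement →
  GermAStmt → GermBStmt → GermB'Stmt → GermDXStmt → GermIsoStmt → GermAhStmt → GermBrStmt →
  GermE2Stmt → GermE1Stmt → Germ3Stmt → Germ4Stmt →
  ∀ (P Q : Finset HP) (L δ : ℝ) M NP NQ TP TQ cP cQ KP KQ γ, GenX P →
    SplitX P Q L δ M NP NQ TP TQ cP cQ KP KQ γ → ∀ J : ℝ → ℝ,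
    (J = 0 ∨ ∃ c κ0 : ℝ, 0 < c ∧ 0 < κ0 ∧
      ∀ κ : ℝ, κ0 ≤ κ → c * κ ^ (1 / 2 : ℝ) * Real.exp (-(L * κ)) ≤ J κ) →
    (Small L fun κ => Df NP NQ TP TQ cP cQ κ - J κ) →
    (¬ ∃ c κ0 : ℝ, 0 < c ∧ 0 < κ0 ∧
      ∀ κ : ℝ, κ0 ≤ κ → c * κ ^ (1 / 2 : ℝ) * Real.exp (-(L * κ)) ≤ J κ) ∧
    TP = ∅ ∧ TQ = ∅ ∧ Same NP NQ L

end Pool.Agent.XQ
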