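import Pool.Agent.Helper16_XQ.Ana

/-!
Squad XQ (MP_5b0138_an), germs GE1, GE2: statements of the plane wave part (helper16).

`γ = δ2 - δ1 - π / 2`, `L = 2 ρ sin (δ2 - δ1)`.  The product of the reflections in the lines `q`
and `r` is the rotation about `ρ` by `2 (δ2 - δ1)`; it sends `exp (- i γ) w` to
`exp (i γ) (L - w)`.  In the frame `w` the loop leaves the vertex `0` in the direction of the
positive real axis (towards `q`).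
-/

set_option autoImplicit false

namespace Pool.Agent.XQ.E

open MeasureTheory Complex Filter Topology ProbabilityTheory Pool.Agent.H16Iso Pool.Agent.H62T
  Pool.Agent.H16F Pool.Agent.H38KL Pool.Agent.H60K

/-- the flux through the window in a block of duration `a`: `x`, `y` are the end points of the
block in the frame `w`; the rest of the loop starts at the image of `y` under the two
reflections and ends at `x` -/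
noncomputable def TTE (η1 η2 γ L : ℝ) (O E : Finset (Fin 3)) (ξ1 δ ζ1 ζ2 a t : ℝ) : ℝ :=
  ∫ x in Rw ξ1 δ ζ1 ζ2, ∫ y in Rw ξ1 δ ζ1 ζ2, G a (x - y) * (ch ξ1 y - ch ξ1 x)
    * kME (us η1 η2) (hh 1) O E (t - a) (exp (γ * I) * (L - y)) (exp (-(γ * I)) * x)

/-- main term of GE1 -/
noncomputable def FE1 (η1 η2 γ L κ : ℝ) : ℝ :=
  2 / Real.pi * ∫ τ in Set.Ioi (0 : ℝ), m2 (η1 + η2) τ *
    (Real.cosh (2 * η2 * τ) * Kit (2 * τ) (κ * L) - Real.cosh (2 * γ * τ) * Kit 0 (κ * L))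

/-- main term of GE2 -/
noncomputable def FE2 (η1 η2 γ L κ : ℝ) : ℝ :=
  2 / Real.pi * ∫ τ in Set.Ioi (0 : ℝ),
    (m1 (η1 + η2) τ * Real.cosh ((η1 - η2) * τ) * Kit (2 * τ) (κ * L)
      + m2 (η1 + η2) τ * Real.cosh (2 * γ * τ) * Kit 0 (κ * L))

/-- FLE1: the flux, one side obtuse -/
def FluxE1Stmt : Prop :=
  ∀ η1 η2 γ L ξ0 : ℝ, Real.pi / 2 < η1 → 0 < η2 → η1 + η2 < Real.pi → 0 < γ → γ < η2 →
    0 < ξ0 → ξ0 < L →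
    ∃ ζ0 : ℝ, 0 < ζ0 ∧ ∀ ζ : ℝ, 0 < ζ → ζ < ζ0 → ∃ e δ0 : ℝ, 0 < e ∧ 0 < δ0 ∧
    ∀ δ : ℝ, 0 < δ → δ < δ0 → ∀ ξ1 : ℝ, |ξ1 - ξ0| ≤ 2 * δ →
    ∃ c0 : ℝ, 0 < c0 ∧ ∀ c : ℝ, 0 < c → c < c0 → ∃ C κ0 : ℝ, 0 < κ0 ∧ ∀ κ : ℝ, κ0 ≤ κ →
      |κ / c * (∫ t in Set.Ioi (c / κ), Real.exp (-(κ ^ 2 * t)) *
          TTE η1 η2 γ L {1} {2} ξ1 δ ζ ζ (c / κ) t)
        - FE1 η1 η2 γ L κ| ≤ C * Real.exp (-(κ * (L + e)))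

/-- FLE2: the flux, both sides acute -/
def FluxE2Stmt : Prop :=
  ∀ η1 η2 γ L ξ0 : ℝ, 0 < η1 → η1 < Real.pi / 2 → 0 < η2 → η2 < Real.pi / 2 → 0 < γ →
    γ + Real.pi / 2 < η1 + η2 → 0 < ξ0 → ξ0 < L →
    ∃ ζ0 : ℝ, 0 < ζ0 ∧ ∀ ζ : ℝ, 0 < ζ → ζ < ζ0 → ∃ e δ0 : ℝ, 0 < e ∧ 0 < δ0 ∧
    ∀ δ : ℝ, 0 < δ → δ < δ0 → ∀ ξ1 : ℝ, |ξ1 - ξ0| ≤ 2 * δ →
    ∃ c0 : ℝ, 0 < c0 ∧ ∀ c : ℝ, 0 < c → c < c0 → ∃ C κ0 : ℝ, 0 < κ0 ∧ ∀ κ : ℝ, κ0 ≤ κ →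
      |κ / c * (∫ t in Set.Ioi (c / κ), Real.exp (-(κ ^ 2 * t)) *
          TTE η1 η2 γ L {1, 2} ∅ ξ1 δ ζ ζ (c / κ) t)
        - FE2 η1 η2 γ L κ| ≤ C * Real.exp (-(κ * (L + e)))

/-- FINE: closed forms -/
def FinEStmt : Prop :=
  (∀ η1 η2 γ L κ : ℝ, Real.pi / 2 < η1 → 0 < η2 → η1 + η2 < Real.pi → 0 < γ → γ < η2 →
    0 < L → 0 < κ →
    germE L (Real.pi / (η1 + η2)) η2 γ κ = -(2 * FE1 η1 η2 γ L κ)) ∧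
  ∀ η1 η2 γ L κ : ℝ, 0 < η1 → η1 < Real.pi / 2 → 0 < η2 → η2 < Real.pi / 2 → 0 < γ →
    γ + Real.pi / 2 < η1 + η2 → 0 < L → 0 < κ →
    germE L (Real.pi / (η1 + η2)) η2 γ κ = 2 * FE2 η1 η2 γ L κ

end Pool.Agent.XQ.E
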