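import Pool.Agent.Helper16_XQ.Defs
import Pool.Agent.Helper25_AEU.Stmt

/-!
Squad XQ (MP_5b0138_an), Part G: statements of the geometric modules. Every module proves its
statement from the statements it uses, which are hypotheses; recipes in the comments and in
`/team-store/XQ_planG.md`. Tools of squad AEU which need no change (SUP LAM HUL PER CNT ACT MIX MSY
OPN REF RAD F3 ELL EVN ALC CGA CGB, all proved) may be used freely.
-/

set_option autoImplicit false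

namespace Pool.Agent.XQ

open MeasureTheory Complex Filter Topology Pool.Agent.H62T
open Pool.Agent.H16F (Sublin)
open Pool.Agent.AEU

/-- the environment is symmetric -/
theorem Env.symm {X Y : Finset HP} {L : ℝ} (h : Env X Y L) : Env Y X L :=
  ⟨h.pg', h.pg, h.all', h.all, h.uq', h.uq⟩

/-! ### Block T: tools for arbitrary polygons -/

/-- VXX: VER of squad AEU for arbitrary polygons -/
def VxxStatement : Prop := ∀ P : Finset HP, Pg P →
  (∀ s t v, VxOf P s t v → ∀ r ∈ P, ip r.1 v = r.2 → r = s ∨ r = t) ∧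
  (∀ s t v, VxOf P s t v → ∀ r ∈ P, r ≠ s → r ≠ t → ip r.1 v < r.2) ∧
  (∀ v, Vx P v → ∀ a ∈ Cl P, ∀ b ∈ Cl P, v ∈ openSegment ℝ a b → a = v ∧ b = v) ∧
  (∀ s t v w, VxOf P s t v → VxOf P s t w → v = w) ∧
  (∀ s t v, VxOf P s t v → v = vx s t ∧ VxOf P t s v ∧ dt s.1 t.1 ≠ 0) ∧
  (∀ x ∈ Cl P, ∀ s ∈ P, ip s.1 x = s.2 → ¬ Vx P x → ∀ t ∈ P, t ≠ s → ip t.1 x < t.2) ∧
  (∀ h : ℂ → ℝ, Fits P h → ∀ x, In x h → x ∈ Cl P) ∧
  (∀ (s t : HP) (v : ℂ) (h : ℂ → ℝ), VxOf P s t v → Fits P h → In v h →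
    s ∈ touch P h ∧ t ∈ touch P h) ∧
  IsCompact (Cl P) ∧
  (∀ s ∈ P, ∀ t ∈ P, s ≠ t → dt s.1 t.1 = 0 → t.1 = -s.1) ∧
  ∀ (h : ℂ → ℝ), Sublin h → Fits P h → ∀ s ∈ touch P h, ∃ x, In x h ∧ x ∈ Cl P ∧ ip s.1 x = s.2

/-- UNX: uniqueness of isometries into a generic polygon -/
def UnxStatement : Prop :=
  (∀ (g g' : Iso2) (s t : HP), ‖s.1‖ = 1 → ‖t.1‖ = 1 → dt s.1 t.1 ≠ 0 →
    mv g s = mv g' s → mv g t = mv g' t → g = g') ∧
  ∀ X P : Finset HP, (∀ s ∈ X, ‖s.1‖ = 1) → Pg P → G1 P → ∀ g g' : Iso2,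
    (∀ s ∈ X, ∀ t ∈ X, s ≠ t → mv g s ∈ P → mv g t ∈ P → mv g' s ∈ P → mv g' t ∈ P →
      g = g' ∨ (mv g s = mv g' t ∧ mv g t = mv g' s)) ∧
    ∀ S ⊆ X, 3 ≤ S.card → (∀ s ∈ S, mv g s ∈ P) → (∀ s ∈ S, mv g' s ∈ P) → g = g'

/-- K4X: K4 for an arbitrary source and a generic target. If all three are different one gets
`b = ± c` for two sides of `P`. -/
def K4xStatement : Prop := ∀ X P : Finset HP, (∀ s ∈ X, ‖s.1‖ = 1) → Pg P → G1 P →
  ∀ (g g' g'' : Iso2) (a b c d : HP), a ∈ X → b ∈ X → c ∈ X → d ∈ X → Ne4 a b c d →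
    mv g a ∈ P → mv g b ∈ P → mv g c ∈ P → mv g' a ∈ P → mv g' b ∈ P → mv g' d ∈ P →
    mv g'' a ∈ P → mv g'' c ∈ P → mv g'' d ∈ P → g = g' ∧ g = g''

/-- EVR: the environment -/
def EvrStatement : Prop := ∀ (P Q : Finset HP) (L : ℝ), Pg P → G1 P → Pg Q → Hyp P Q L → Env P Q L

/-- LCX: Lemma C. The isometries matching `mix τ h₀ h`, `τ < 1`, are locally constant by `Uq`. -/
def LcxStatement : Prop := ∀ (X Y : Finset HP) (L : ℝ), Env X Y L →
  ∀ h₀ h : ℂ → ℝ, Sublin h₀ → Sublin h → Fits X h₀ → Fits X h → lam h₀ < L → lam h ≤ L →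
    3 ≤ (touch X h₀ ∩ touch X h).card →
    ((∃ v, Vx X v ∧ In v h₀ ∧ In v h) ∨ 4 ≤ (touch X h₀ ∩ touch X h).card) →
    ∃ g, Mat X Y g h₀ ∧ Fits Y (mb g h) ∧ ∀ s ∈ touch X h₀ ∩ touch X h, mv g s ∈ Y

/-- LXX: Lemma X below the level `L`, and in the limit -/
def LxxStatement : Prop := ∀ (X Y : Finset HP) (L : ℝ), Env X Y L →
  ∀ (S : Finset HP) (g : Iso2) (h₀ h : ℂ → ℝ), S.card = 3 → S ⊆ touch X h₀ → S ⊆ touch X h →
    Sublin h₀ → Sublin h → Mat X Y g h₀ → Fits X h → lam h₀ < L →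
    (lam h < L → Mat X Y g h) ∧ (lam h ≤ L → Fits Y (mb g h))

/-- SLX: sliding a vertex along a side -/
def SlxStatement : Prop := ∀ P : Finset HP, Pg P → ∀ k l w, VxOf P k l w →
  ∀ v ∈ Cl P, ∀ x ∈ Cl P, v ≠ w → x ≠ w →
    ((Ac ((v - w) / (‖v - w‖ : ℂ) + (x - w) / (‖x - w‖ : ℂ)) k l ∨
        Ac ((v - w) / (‖v - w‖ : ℂ) + (x - w) / (‖x - w‖ : ℂ)) l k) ∧
      (Ac ((v - w) / (‖v - w‖ : ℂ) + (x - w) / (‖x - w‖ : ℂ)) k l →
        ∃ w' ∈ Cl P, w' ≠ w ∧ ip k.1 w' = k.2 ∧ ‖v - w'‖ + ‖w' - x‖ < ‖v - w‖ + ‖w - x‖))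

/-- UMX: the shortest body touching three pairwise nonparallel sides is unique. Equality in the
triangle inequality for the midpoints of the contact points. -/
def UmxStatement : Prop := ∀ X : Finset HP, Pg X → ∀ S ⊆ X, S.card = 3 → Np S → ∀ h h' : ℂ → ℝ,
  Sublin h → Sublin h' → Fits X h → Fits X h' → S ⊆ touch X h → S ⊆ touch X h' →
    lam h = lam h' → (∀ h'', Sublin h'' → Fits X h'' → S ⊆ touch X h'' → lam h ≤ lam h'') → h = h'

/-- T3X: among four touched sides there are three which are touched by a shorter body: the hull of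
three contact points, or a diagonal shortened by SLX -/
def T3xStatement : Prop := ∀ X : Finset HP, Pg X → ∀ h : ℂ → ℝ, Sublin h → Fits X h →
  ∀ F ⊆ touch X h, F.card = 4 → ∃ t ∈ F, Lt X (F.erase t) (lam h)

/-! ### Block C: special bodies at the level `L` -/

/-- CL3: a special body touching three sides which is a shortest one among the special bodies
touching them: an edge or a perpendicular from a vertex -/
def Cl3Statement : Prop := ∀ X : Finset HP, Pg X → ∀ h : ℂ → ℝ, Special X h →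
  (touch X h).card = 3 → (∀ h', Special X h' → touch X h ⊆ touch X h' → lam h ≤ lam h') →
  (∃ i j k v w, ShA X h i j k v w) ∨ ∃ i j q v d, TypeB X h i j q v d

/-- TAX: data of an edge -/
def TaxStatement : Prop := ∀ X : Finset HP, Pg X → ∀ h i j k v w, ShA X h i j k v w →
  Special X h ∧ touch X h = {i, j, k} ∧ i ≠ j ∧ j ≠ k ∧ v = vx i j ∧ w = vx j k ∧
    lam h = eA i j k ∧ 0 < eA i j k ∧
    (0 < ip i.1 j.1 → 0 < ip j.1 k.1 → KA {i, j, k} (lam h) (ip i.1 j.1) (ip j.1 k.1)) ∧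
    (0 < ip i.1 j.1 → ip j.1 k.1 = 0 → KAh {i, j, k} (lam h) (ip i.1 j.1)) ∧
    (ip i.1 j.1 = 0 → 0 < ip j.1 k.1 → KAh {i, j, k} (lam h) (ip j.1 k.1)) ∧
    (ip i.1 j.1 = 0 → ip j.1 k.1 = 0 → dt i.1 k.1 = 0)

/-- TBX: data of a perpendicular -/
def TbxStatement : Prop := ∀ X : Finset HP, Pg X → ∀ h i j q v d, TypeB X h i j q v d →
  Special X h ∧ touch X h = {i, j, q} ∧ i ≠ j ∧ i ≠ q ∧ j ≠ q ∧ v = vx i j ∧ lam h = 2 * d ∧
    lam h = eB i j q ∧ (Np {i, j, q} →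
      IsB i j q (lam h) (ip i.1 j.1) (ip i.1 q.1) (ip j.1 q.1))

/-- CL5: a special body of length `L` with at least five contacts can be placed. Subhulls of the
contact points and a vertex are shorter; LCX, Uq; the exceptional configurations are triangles and
segments with vertices, there use SLX. -/
def Cl5Statement : Prop := ∀ (X Y : Finset HP) (L : ℝ), Env X Y L → ∀ h : ℂ → ℝ, Special X h →
  lam h = L → 5 ≤ (touch X h).card → ∃ g, Fits Y (mb g h) ∧ ∀ s ∈ touch X h, mv g s ∈ Y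

/-- CL4: a special body of length `L` with four contacts which cannot be placed -/
def Cl4Statement : Prop := ∀ (X Y : Finset HP) (L : ℝ), Env X Y L → ∀ h : ℂ → ℝ, Unl X Y h →
  lam h = L → (touch X h).card = 4 → MinF X h ∧
    ((∃ x s, ShC X h x s ∧ ∀ v, Vx X v → ¬ In v h) ∨ (∃ i j q r v x y, ShE X h i j q r v x y) ∨
      (∃ i j k l v w, Sh3 X h i j k l v w) ∨ ∃ i j k s v w x, Sh4 X h i j k s v w x)

/-- C4R: the reflection law at the four points of a shortest quadrilateral; the outer normal at a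
point is a positive multiple of (incoming direction - outgoing direction), the four turning angles
sum up to `2π` -/
def C4rStatement : Prop := ∀ X : Finset HP, Pg X → ∀ h x s, ShC X h x s → MinF X h →
  ∃ e : Equiv.Perm (Fin 4), (s (e 0)).1 * (s (e 2)).1 = -((s (e 1)).1 * (s (e 3)).1)

/-- AC4: at most one of the four triples is acute: `ip a b = - ip c d`, `ip a d = - ip b c` -/
def Ac4Statement : Prop := ∀ a b c d : HP, ‖a.1‖ = 1 → ‖b.1‖ = 1 → ‖c.1‖ = 1 → ‖d.1‖ = 1 →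
  Ne4 a b c d → a.1 * c.1 = -(b.1 * d.1) → ∃ t₀ ∈ ({a, b, c, d} : Finset HP),
    ∀ t ∈ ({a, b, c, d} : Finset HP), t ≠ t₀ → ¬ Acute (({a, b, c, d} : Finset HP).erase t)

/-- GHX: ghosts of arbitrary polygons -/
def GhxStatement : Prop := ∀ X : Finset HP, Pg X → ∀ S : Finset HP, Ghost X S →
  Acute S ∧ Np S ∧ 0 < ell S ∧ ∃ h₀, Sublin h₀ ∧ Fits X h₀ ∧ touch X h₀ = S ∧ lam h₀ = ell S ∧
    ∀ h, Sublin h → Fits X h → S ⊆ touch X h → ell S ≤ lam h

/-- PLC: a triple which is touched by a body shorter than `L` and is not a ghost is placed by one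
isometry -/
def PlcStatement : Prop := ∀ (X Y : Finset HP) (L : ℝ), Env X Y L → ∀ S ⊆ X, S.card = 3 →
  Lt X S L → ¬ Ghost X S → ∃ g, (∀ s ∈ S, mv g s ∈ Y) ∧ ∀ h, Sublin h → Fits X h →
    S ⊆ touch X h → (lam h < L → Mat X Y g h) ∧ (lam h ≤ L → Fits Y (mb g h))

/-- XC: no quadrilaterals in `Q`: three of the four triples are not acute, so they are placed by
PLC; K4X; then G1.four for `P` -/
def XcStatement : Prop := ∀ (P Q : Finset HP) (L : ℝ), Env Q P L → G1 P → ∀ h x s,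
  ShC Q h x s → MinF Q h → lam h = L → False

/-- XE: no type E in `Q`: `{i,j,q}`, `{i,j,r}` are placed; SLX at `v` gives a shorter body touching
`i*`, `q`, `r`: placed (K4X), or a ghost with partner in `P` (flip, flipq) -/
def XeStatement : Prop := ∀ (P Q : Finset HP) (L : ℝ), Env Q P L → GenX P →
  (∀ l : ℝ, l < L → gc P l = gc Q l) → ∀ h i j q r v x y, ShE Q h i j q r v x y → Unl Q P h →
  MinF Q h → lam h = L → False

/-- XF: no type IV in `Q`: the edge and the segments `[v, x]`, `[w, x]` are placed, K4X -/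
def XfStatement : Prop := ∀ (P Q : Finset HP) (L : ℝ), Env Q P L → G1 P → ∀ h i j k s v w x,
  Sh4 Q h i j k s v w x → Unl Q P h → lam h = L → False

/-- QTX: type III in `Q`. SLX at both ends; three placed triples would give K4X; so exactly one
acute angle at each end; the images of the common pair `i`, `k` are exchanged (otherwise `g1 = g2`
by UNX); `mv g1 j = mv g2 l` contradicts `Uq P Q` -/
def QtxStatement : Prop := ∀ (P Q : Finset HP) (L : ℝ), Env Q P L → G1 P → ∀ h i j k l v w,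
  Sh3 Q h i j k l v w → MinF Q h → Unl Q P h → lam h = L →
  ∃ i' j' k' l' v' w' g1 g2, QTor Q P L h i' j' k' l' v' w' g1 g2 ∧
    ({i', j', k', l'} : Finset HP) = {i, j, k, l}

/-- CQX: unmatchable bodies of `Q` with at least four contacts -/
def CqxStatement : Prop := ∀ (P Q : Finset HP) (L : ℝ), Hyp P Q L → GenX P → Pg Q → ∀ h,
  Unl Q P h → lam h = L → 4 ≤ (touch Q h).card →
  ∃ i j k l v w g1 g2, QTor Q P L h i j k l v w g1 g2 ∧ touch Q h = {i, j, k, l}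

/-- CPX: unmatchable bodies of `P` with at least four contacts (ShC is excluded by C4R and
`G1.four`) -/
def CpxStatement : Prop := ∀ (P Q : Finset HP) (L : ℝ), Hyp P Q L → GenX P → Pg Q → ∀ h,
  Unl P Q h → lam h = L → 4 ≤ (touch P h).card → MinF P h ∧
    ((∃ i j q r v x y, ShE P h i j q r v x y) ∨ (∃ i j k l v w, Sh3 P h i j k l v w) ∨
      ∃ i j k s v w x, Sh4 P h i j k s v w x)

/-- UQL: placements of bodies of length at most `L` touching a triple which is touched by shorter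
bodies are unique -/
def UqlStatement : Prop := ∀ (P Q : Finset HP) (L : ℝ), Hyp P Q L → GenX P → Pg Q →
  ∀ (g g' : Iso2) (S : Finset HP) (h : ℂ → ℝ), WP P Q g S h → WP P Q g' S h → lam h ≤ L →
    Lt P S L → g = g'

/-- LMX: special bodies of length `L` with at least four contacts which can be placed are
matched -/
def LmxStatement : Prop := ∀ (P Q : Finset HP) (L : ℝ), Hyp P Q L → GenX P → Pg Q →
  (∀ h, Special P h → lam h = L → 4 ≤ (touch P h).card → ¬ Unl P Q h → ∃ g, Mat P Q g h) ∧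
  ∀ h, Special Q h → lam h = L → 4 ≤ (touch Q h).card → ¬ Unl Q P h → ∃ g, Mat Q P g h

/-! ### Block S: certificates of torn bodies -/

/-- ARC: Jensen's inequality on an arc, and the equality case -/
def ArcStatement : Prop := ∀ h : ℂ → ℝ, Sublin h → ∀ a b : ℝ, a ≤ b → b < a + 2 * Real.pi →
  h (I * exp (a * I) - I * exp (b * I)) ≤ ∫ θ in a..b, h (exp (θ * I)) ∧
  (∫ θ in a..b, h (exp (θ * I)) ≤ h (I * exp (a * I) - I * exp (b * I)) → a < b →
    ∃ y : ℂ, In y h ∧ ∀ θ ∈ Set.Icc a b, h (exp (θ * I)) = ip (exp (θ * I)) y)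

/-- ARZ: splitting of an arc: `z` in the open circular segment between the chord and the arc from
`I exp (a I)` to `I exp (b I)` -/
def ArzStatement : Prop := ∀ h : ℂ → ℝ, Sublin h → ∀ (a b : ℝ) (z : ℂ), a < b → b ≤ a + Real.pi →
  ‖z‖ < 1 → 0 < ip (z - I * exp (a * I)) (I * exp (((a + b) / 2 : ℝ) * I)) →
  h (I * exp (a * I) - z) + h (z - I * exp (b * I)) ≤ ∫ θ in a..b, h (exp (θ * I)) ∧
  (∫ θ in a..b, h (exp (θ * I)) ≤ h (I * exp (a * I) - z) + h (z - I * exp (b * I)) →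
    ∃ y : ℂ, In y h ∧ (∀ θ ∈ Set.Icc a b, h (exp (θ * I)) = ip (exp (θ * I)) y) ∧
      h (I * exp (a * I) - z) = ip (I * exp (a * I) - z) y ∧
      h (z - I * exp (b * I)) = ip (z - I * exp (b * I)) y)

/-- TOE: certificate and standard form of type E. With `e₁ = v → x`, `e₂ = x → y`, `e₃ = y → v`:
`e₁ - e₂ = c_q q`, `e₂ - e₃ = c_r r`, `e₃ - e₁ = c_i i + c_j j`. -/
def ToeStatement : Prop := ∀ X : Finset HP, Pg X → ∀ h i j q r v x y, ShE X h i j q r v x y →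
  MinF X h → Np {i, j, q, r} → ip (v - vx q r) (I * i.1) ≠ 0 → ip (v - vx q r) (I * j.1) ≠ 0 →
  ip i.1 j.1 + ip q.1 r.1 ≠ 0 → ∃ (c : HP → ℝ) (α θ γ : ℝ),
    TornC X {i, j, q, r} h (lam h) c ∧ StdE {i, j, q, r} (Mm {i, j, q, r} c) (lam h) α θ γ ∧
    lam h = 2 * hE i j q r ∧ Real.cos α = -ip i.1 j.1 ∧ 0 < α ∧ α < Real.pi ∧ 0 < θ ∧
    θ < Real.pi ∧ ∃ s, (s = i ∨ s = j) ∧
      (Real.cos θ * ‖vx q r - v‖ = ip (I * s.1) (vx q r - v) ∨
        Real.cos θ * ‖vx q r - v‖ = -ip (I * s.1) (vx q r - v))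

/-- TO3: certificate and standard form of type III -/
def To3Statement : Prop := ∀ X : Finset HP, Pg X → ∀ h i j k l v w, Sh3 X h i j k l v w →
  MinF X h → Np {i, j, k, l} → ip (w - v) (I * i.1) ≠ 0 → ip (w - v) (I * j.1) ≠ 0 →
  ip (w - v) (I * k.1) ≠ 0 → ip (w - v) (I * l.1) ≠ 0 → ip i.1 j.1 ≠ 0 → ip k.1 l.1 ≠ 0 →
  ∃ c : HP → ℝ, TornC X {i, j, k, l} h (lam h) c ∧
    Std3 {i, j, k, l} (Mm {i, j, k, l} c) (lam h) ∧ lam h = 2 * ‖v - w‖ ∧
    (0 < c j ↔ Ac (w - v) i j) ∧ (0 < c i ↔ Ac (w - v) j i) ∧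
    (0 < c l ↔ Ac (v - w) k l) ∧ (0 < c k ↔ Ac (v - w) l k)

/-- TO4: certificate and standard form of type IV -/
def To4Statement : Prop := ∀ X : Finset HP, Pg X → ∀ h i j k s v w x, Sh4 X h i j k s v w x →
  MinF X h → Np {i, j, k, s} →
  dt (rl s w - v) (i.1 * i.1 * (starRingEnd ℂ) (w - v)) ≠ 0 →
  dt (rl s v - w) (k.1 * k.1 * (starRingEnd ℂ) (v - w)) ≠ 0 → ip i.1 j.1 ≠ 0 → ip j.1 k.1 ≠ 0 →
  ∃ c : HP → ℝ, TornC X {i, j, k, s} h (lam h) c ∧
    Std4 {i, j, k, s} (Mm {i, j, k, s} c) (lam h)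

/-- FRX: locality of torn bodies (compactness and `TornC.uniq`) -/
def FrxStatement : Prop := ∀ (X F : Finset HP) (K : ℂ → ℝ) (L : ℝ) (c : HP → ℝ), Pg X → F ⊆ X →
  TornC X F K L c → ∃ δ > 0, ∀ h, Sublin h → lam h < L + δ →
    (∀ s ∈ F, 0 ≤ c s * (h s.1 - s.2)) → ∀ s ∈ X, s ∉ F → h s.1 < s.2

/-! ### Block N: near the level `L` -/

/-- matched triples: touched by a matched special body shorter than `L`, or of length `L` with at
least four contacts -/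
def MTr (X Y : Finset HP) (L : ℝ) (S : Finset HP) : Prop :=
  S ⊆ X ∧ S.card = 3 ∧ ∃ (h : ℂ → ℝ) (g : Iso2), Special X h ∧ Mat X Y g h ∧ S ⊆ touch X h ∧
    (lam h < L ∨ (lam h = L ∧ 4 ≤ (touch X h).card))

/-- context: the families of the torn quadruples -/
structure Ctx (P Q : Finset HP) (L : ℝ) (TP TQ : Finset (Finset HP))
    (cP cQ : Finset HP → HP → ℝ) (KP KQ : Finset HP → ℂ → ℝ) : Prop where
  gx : GenX P
  pq : Pg Q
  hyp : Hyp P Q L
  L0 : 0 < L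
  c4 : 4 ≤ P.card
  c4' : 4 ≤ Q.card
  tP : ∀ F ∈ TP, F ⊆ P ∧ TornC P F (KP F) L (cP F) ∧ Unl P Q (KP F) ∧
    ((∃ α θ γ, StdE F (Mm F (cP F)) L α θ γ ∧
      ∀ n : ℤ, 4 * Real.cos (2 * Real.pi * θ / α) ≠ n) ∨
      Std3 F (Mm F (cP F)) L ∨ Std4 F (Mm F (cP F)) L)
  tP' : ∀ h, Unl P Q h → lam h = L → 4 ≤ (touch P h).card → touch P h ∈ TP ∧ h = KP (touch P h)
  tQ : ∀ F ∈ TQ, F ⊆ Q ∧ TornC Q F (KQ F) L (cQ F) ∧ Unl Q P (KQ F) ∧
    Std3 F (Mm F (cQ F)) L ∧ (Mm F (cQ F)).card = 2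
  tQ' : ∀ h, Unl Q P h → lam h = L → 4 ≤ (touch Q h).card → touch Q h ∈ TQ ∧ h = KQ (touch Q h)
  tE : ∀ F ∈ TP, ∀ F' ∈ TP, ∀ α θ γ θ' γ', StdE F (Mm F (cP F)) L α θ γ →
    StdE F' (Mm F' (cP F')) L α θ' γ' → F = F'
  t3 : ∀ F ∈ TP, ∀ F' ∈ TP, Std3 F (Mm F (cP F)) L → Std3 F' (Mm F' (cP F')) L → F = F'
  t34 : TQ.Nonempty → ∀ F ∈ TP, ¬ Std3 F (Mm F (cP F)) L

/-- CTX: the context exists (CPX, CQX, TOE, TO3, TO4, GenX; uniqueness of the body:
`TornC.uniq`) -/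
def CtxStatement : Prop := ∀ (P Q : Finset HP) (L : ℝ), GenX P → Pg Q → Hyp P Q L → 0 < L →
  4 ≤ P.card → 4 ≤ Q.card → ∃ TP TQ cP cQ KP KQ, Ctx P Q L TP TQ cP cQ KP KQ

/-- RLX: all bodies touching a matched triple, up to a little more than `L`, are matched between
the relaxed polygons, by the same isometry -/
def RlxStatement : Prop := ∀ (P Q : Finset HP) (L : ℝ) TP TQ cP cQ KP KQ,
  Ctx P Q L TP TQ cP cQ KP KQ → ∀ S, MTr P Q L S → ∃ g : Iso2, MTr Q P L (S.image (mv g)) ∧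
    (∀ g', (∃ h, Special P h ∧ Mat P Q g' h ∧ S ⊆ touch P h ∧
      (lam h < L ∨ (lam h = L ∧ 4 ≤ (touch P h).card))) → g' = g) ∧
    ∃ δ > 0, (∀ h, Sublin h → Fits (rlx P TP cP S) h → S ⊆ touch P h → lam h < L + δ →
      Mat (rlx P TP cP S) (rlx Q TQ cQ (S.image (mv g))) g h) ∧
    ∀ h, Sublin h → Fits (rlx Q TQ cQ (S.image (mv g))) h → S.image (mv g) ⊆ touch Q h →
      lam h < L + δ → Mat (rlx Q TQ cQ (S.image (mv g))) (rlx P TP cP S) g⁻¹ h

/-- MBJ: the matched triples of `P` and `Q` are in bijection -/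
def MbjStatement : Prop := ∀ (P Q : Finset HP) (L : ℝ) TP TQ cP cQ KP KQ,
  Ctx P Q L TP TQ cP cQ KP KQ → ∃ γ : Finset HP → Iso2,
    (∀ S, MTr P Q L S → MTr Q P L (S.image (mv (γ S)))) ∧
    (∀ S', MTr Q P L S' → ∃ S, MTr P Q L S ∧ S.image (mv (γ S)) = S') ∧
    (∀ S S', MTr P Q L S → MTr P Q L S' → S.image (mv (γ S)) = S'.image (mv (γ S')) → S = S') ∧
    (∀ S, MTr P Q L S → ∃ δ > 0, ∀ h, Sublin h → lam h < L + δ →
      (Ev (rlx P TP cP S) S h ↔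
        Ev (rlx Q TQ cQ (S.image (mv (γ S)))) (S.image (mv (γ S))) (mb (γ S) h))) ∧
    ∀ S, MTr P Q L S → ∀ g h, Special P h → Mat P Q g h → S ⊆ touch P h →
      (lam h < L ∨ (lam h = L ∧ 4 ≤ (touch P h).card)) → g = γ S

/-- TBM: the triples in `TB` are touched by no body shorter than `L`, and only by the torn body at
the level `L`; they are not matched -/
def TbmStatement : Prop := ∀ (X Y F : Finset HP) (K : ℂ → ℝ) (L : ℝ) (c : HP → ℝ), Pg X → F ⊆ X →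
  TornC X F K L c → Unl X Y K → ∀ t ∈ F, c t < 0 → ¬ Lt X (F.erase t) L ∧
    (∀ h, Sublin h → Fits X h → F.erase t ⊆ touch X h → lam h ≤ L → h = K) ∧
    ¬ MTr X Y L (F.erase t)

/-- EXX: exit lemma for a finite set of half-planes (the polygon may be relaxed) -/
def ExxStatement : Prop := ∀ (X : Finset HP), (∀ s ∈ X, ‖s.1‖ = 1) → ∀ (S : Finset HP) (L : ℝ),
  S ⊆ X → S.card = 3 → Np S → Le X S L →
  (∀ h, Sublin h → Fits X h → S ⊆ touch X h → lam h ≤ L → touch X h = S) →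
  ∃ δ > 0, ∀ h, Sublin h → (∀ s ∈ S, h s.1 = s.2) → lam h < L + δ → Fits X h ∧ touch X h = S

/-- UTX: untouched triples -/
def UtxStatement : Prop := ∀ X : Finset HP, Pg X → ∀ (S : Finset HP) (L : ℝ), S ⊆ X →
  S.card = 3 → ¬ Le X S L →
  ∃ δ > 0, ∀ h, Sublin h → Fits X h → S ⊆ touch X h → L + δ ≤ lam h

/-- one side of the context, for statements which hold for `P` and for `Q` -/
structure Half (X Y : Finset HP) (L : ℝ) (T : Finset (Finset HP)) (c : Finset HP → HP → ℝ)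
    (K : Finset HP → ℂ → ℝ) : Prop where
  env : Env X Y L
  L0 : 0 < L
  c4 : 4 ≤ X.card
  t : ∀ F ∈ T, F ⊆ X ∧ TornC X F (K F) L (c F) ∧ Unl X Y (K F)
  t' : ∀ h, Unl X Y h → lam h = L → 4 ≤ (touch X h).card → touch X h ∈ T ∧ h = K (touch X h)
  lm : ∀ h, Special X h → lam h = L → 4 ≤ (touch X h).card → ¬ Unl X Y h → ∃ g, Mat X Y g h

/-- NLC: unmatched triples: near the level `L` only the three lines matter (for the relaxed
polygon) -/
def NlcStatement : Prop := ∀ (X Y : Finset HP) (L : ℝ) T c K, Half X Y L T c K →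
  ∀ S ⊆ X, S.card = 3 → Np S → Le X S L → ¬ MTr X Y L S → ¬ TB T c S →
  (∀ h, Sublin h → Fits (rlx X T c S) h → S ⊆ touch X h → lam h ≤ L →
    Fits X h ∧ touch (rlx X T c S) h = S) ∧
  ∃ δ > 0, ∀ h, Sublin h → lam h < L + δ → (Ev (rlx X T c S) S h ↔ EvL S h)

/-- ALX: altitudes of unmatched acute triples -/
def AlxStatement : Prop := ∀ (X Y : Finset HP) (L : ℝ) T c K, Half X Y L T c K →
  ∀ S ⊆ X, S.card = 3 → Acute S → Le X S L → ¬ MTr X Y L S → ¬ TB T c S →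
  ∀ i j q, S = {i, j, q} → L / 2 ≤ q.2 - ip q.1 (vx i j) ∧ (q.2 - ip q.1 (vx i j) = L / 2 →
    ∃ h, TypeB X h i j q (vx i j) (L / 2))

/-- BRX: at a vertex with an acute angle a perpendicular is not the shortest body touching the
three sides -/
def BrxStatement : Prop := ∀ X : Finset HP, Pg X → ∀ h i j q v d, TypeB X h i j q v d →
  ip i.1 j.1 < 0 → Lt X {i, j, q} (lam h)

/-- NKX: kinds of the unmatched triples. If `Lt X S L`: a ghost (`GHX`), altitudes by ALX, not all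
three altitudes equal `L/2` (`c4`). Otherwise the shortest body is special (CL3) or a ghost of
length `L`. -/
def NkxStatement : Prop := ∀ (X Y : Finset HP) (L : ℝ) T c K, Half X Y L T c K →
  ∀ S ⊆ X, S.card = 3 → Np S → Le X S L → ¬ MTr X Y L S → ¬ TB T c S → KindQ S L ∧
    (∀ a b, KBr S L a b → ∃ h i j q v d, TypeB X h i j q v d ∧ ip i.1 j.1 = 0 ∧ lam h = L ∧
      S = {i, j, q}) ∧
    ((Ghost X S ∧ ell S < L) ↔ (Acute S ∧ ell S < L)) ∧
    ((Ghost X S ∧ ell S = L) ↔ KGh S L)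

/-- NKP: in `P` only the kinds `KindP` occur, and at most one of them is not old -/
def NkpStatement : Prop := ∀ (P Y : Finset HP) (L : ℝ) T c K, GenX P → Half P Y L T c K →
  (∀ S ⊆ P, S.card = 3 → Le P S L → ¬ MTr P Y L S → ¬ TB T c S → KindP S L) ∧
  ∀ S ⊆ P, ∀ S' ⊆ P, KindP S L → KindP S' L → ¬ Old S L → ¬ Old S' L → S = S'

/-- PRX: bodies touching two parallel sides of `Q` -/
def PrxStatement : Prop := ∀ (P Q : Finset HP) (L : ℝ), Hyp P Q L → GenX P → Pg Q → 0 < L →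
  ∀ a ∈ Q, ∀ a' ∈ Q, a ≠ a' → dt a.1 a'.1 = 0 → ∀ h, Sublin h → Fits Q h → a ∈ touch Q h →
    a' ∈ touch Q h → L ≤ lam h ∧ (lam h = L → FacePair Q L a a')

/-- PRD: the same a little above the level `L` -/
def PrdStatement : Prop := ∀ (P Q : Finset HP) (L : ℝ), Hyp P Q L → GenX P → Pg Q → 0 < L →
  ∀ a ∈ Q, ∀ a' ∈ Q, a ≠ a' → dt a.1 a'.1 = 0 → ¬ FacePair Q L a a' → ∃ δ > 0, ∀ h, Sublin h →
    Fits Q h → lam h < L + δ → ¬ (a ∈ touch Q h ∧ a' ∈ touch Q h)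

/-- FCX: facing sides have an overlap of positive length (a single perpendicular would be a body of
type III with `j` parallel to `l`, which contradicts `G1.four`) -/
def FcxStatement : Prop := ∀ (P Q : Finset HP) (L : ℝ), Hyp P Q L → GenX P → Pg Q → 0 < L →
  ∀ a a', FacePair Q L a a' → ∃ x y : ℂ, x ≠ y ∧ x ∈ Cl Q ∧ y ∈ Cl Q ∧ ip a.1 x = a.2 ∧
    ip a.1 y = a.2 ∧ x - ((L / 2 : ℝ) : ℂ) * a.1 ∈ Cl Q ∧ y - ((L / 2 : ℝ) : ℂ) * a.1 ∈ Cl Q

/-- R9X: at most one perpendicular of length `L / 2` from a right-angled vertex in `Q` -/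
def R9xStatement : Prop := ∀ (P Q : Finset HP) (L : ℝ), Hyp P Q L → GenX P → Pg Q → 0 < L →
  ∀ h i j q v d h' i' j' q' v' d', TypeB Q h i j q v d → ip i.1 j.1 = 0 → lam h = L →
    TypeB Q h' i' j' q' v' d' → ip i'.1 j'.1 = 0 → lam h' = L →
    ({i, j, q} : Finset HP) = {i', j', q'}

/-- GCX: ghosts among the unmatched triples: ghosts among the matched triples correspond to each
other -/
def GcxStatement : Prop := ∀ (P Q : Finset HP) (L : ℝ) TP TQ cP cQ KP KQ,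
  Ctx P Q L TP TQ cP cQ KP KQ → ∀ NP NQ : Finset (Finset HP),
    (∀ S, S ∈ NP ↔ S ∈ P.powersetCard 3 ∧ Np S ∧ Le P S L ∧ ¬ MTr P Q L S ∧ ¬ TB TP cP S) →
    (∀ S, S ∈ NQ ↔ S ∈ Q.powersetCard 3 ∧ Np S ∧ Le Q S L ∧ ¬ MTr Q P L S ∧ ¬ TB TQ cQ S) →
    ∀ l : ℝ, l < L → (∀ D : DecidablePred fun S : Finset HP => Acute S ∧ ell S = l,
      (NP.filter fun S => Acute S ∧ ell S = l).card
        = (NQ.filter fun S => Acute S ∧ ell S = l).card)

/-- SPX: the splitting. `M` = matched triples, `N` = the other nonparallel triples which are touched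
by bodies of length at most `L` and are not in `TB`. -/
def SpxStatement : Prop := ∀ (P Q : Finset HP) (L : ℝ) TP TQ cP cQ KP KQ,
  Ctx P Q L TP TQ cP cQ KP KQ → ∃ δ M NP NQ γ, SplitX P Q L δ M NP NQ TP TQ cP cQ KP KQ γ ∧
    (∀ S, S ∈ M ↔ MTr P Q L S) ∧
    (∀ S, S ∈ NP ↔ S ∈ P.powersetCard 3 ∧ Np S ∧ Le P S L ∧ ¬ MTr P Q L S ∧ ¬ TB TP cP S) ∧
    ∀ S, S ∈ NQ ↔ S ∈ Q.powersetCard 3 ∧ Np S ∧ Le Q S L ∧ ¬ MTr Q P L S ∧ ¬ TB TQ cQ S

/-! ### Block F: the inductive step and the first failing level -/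

/-- the new items of `P` and `Q` at the level `L` are the same -/
structure Same (NP NQ : Finset (Finset HP)) (L : ℝ) : Prop where
  noIso : ∀ S ∈ NQ, ¬ KIso S L
  noAh : ∀ S ∈ NQ, ∀ c, ¬ KAh S L c
  noBr : ∀ S ∈ NQ, ∀ a b, ¬ KBr S L a b
  gh : (∃ S ∈ NP, KGh S L) ↔ ∃ S ∈ NQ, KGh S L
  gh1 : ∀ S ∈ NQ, ∀ S' ∈ NQ, KGh S L → KGh S' L → S = S'
  A : ∀ S ∈ NP, ∀ c c', KA S L c c' → ∃ S' ∈ NQ, KA S' L c c'
  A' : ∀ S ∈ NQ, ∀ c c', KA S L c c' → ∃ S' ∈ NP, KA S' L c c'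
  A1 : ∀ S ∈ NQ, ∀ S' ∈ NQ, ∀ c c' d d', KA S L c c' → KA S' L d d' → S = S'
  B : ∀ S ∈ NP, ∀ c a b, KB S L c a b ∨ KBa S L c a b → ∃ S' ∈ NQ, ∃ i j q, S' = {i, j, q} ∧
    S'.card = 3 ∧ IsB i j q L c a b
  B' : ∀ S ∈ NQ, ∀ c a b, KB S L c a b ∨ KBa S L c a b → ∃ S' ∈ NP, ∃ i j q, S' = {i, j, q} ∧
    S'.card = 3 ∧ IsB i j q L c a b
  B1 : ∀ S ∈ NQ, ∀ S' ∈ NQ, ∀ c a b c' a' b', KB S L c a b ∨ KBa S L c a b →
    KB S' L c' a' b' ∨ KBa S' L c' a' b' → S = S'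

/-- FNX: the inductive step, from the analysis: no torn bodies, no facing sides, the same items -/
def FnxStatement : Prop := ∀ (P Q : Finset HP) (L : ℝ) cP cQ KP KQ,
  Ctx P Q L ∅ ∅ cP cQ KP KQ → (∀ a a', ¬ FacePair Q L a a') → ∀ NP NQ : Finset (Finset HP),
    (∀ S, S ∈ NP ↔ S ∈ P.powersetCard 3 ∧ Np S ∧ Le P S L ∧ ¬ MTr P Q L S) →
    (∀ S, S ∈ NQ ↔ S ∈ Q.powersetCard 3 ∧ Np S ∧ Le Q S L ∧ ¬ MTr Q P L S) →
    Same NP NQ L → HypLe P Q L

/-- ATX: a shortest unmatched special body exists -/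
def AtxStatement : Prop := ∀ X Y : Finset HP, Pg X → Pg Y → (∃ h, Special X h ∧ ¬ ∃ g, Mat X Y g h) →
  ∃ h, (Special X h ∧ ¬ ∃ g, Mat X Y g h) ∧
    ∀ h', (Special X h' ∧ ¬ ∃ g, Mat X Y g h') → lam h ≤ lam h'

/-- UTT: a shortest body with two placements exists -/
def UttStatement : Prop := ∀ X Y : Finset HP, Pg X → Pg Y →
  (∃ g g' S h, WP X Y g S h ∧ WP X Y g' S h ∧ g ≠ g') →
  ∃ g g' S h, (WP X Y g S h ∧ WP X Y g' S h ∧ g ≠ g') ∧
    ∀ k k' S' h', (WP X Y k S' h' ∧ WP X Y k' S' h' ∧ k ≠ k') → lam h ≤ lam h'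

/-- CGX: if all special bodies are matched, the polygons are congruent -/
def CgxStatement : Prop := ∀ P Q : Finset HP, Pg P → Pg Q →
  (∀ h, Special P h → ∃ g, Mat P Q g h) → ∃ g : Iso2, P.image (mv g) = Q

/-- LVX: the first level at which `P` and `Q` disagree -/
def LvxStatement : Prop := ∀ P Q : Finset HP, GenX P → Pg Q → (¬ ∃ g : Iso2, P.image (mv g) = Q) →
  ∃ L : ℝ, 0 < L ∧ Hyp P Q L ∧ ¬ HypLe P Q L

end Pool.Agent.XQ
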